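import Mathlib

/-! Codes of separable C*-algebras, embeddability, simple, AF and nuclear C*-algebras. -/

namespace Pool.Agent.H491Z.AFS

open scoped InnerProductSpace ComplexOrder

section Abstract

variable {𝒜 : Type} [CStarAlgebra 𝒜]

/-- The C*-subalgebra generated by `S`: the norm closure of the star algebra generated by `S`. -/
noncomputable def gen (S : Set 𝒜) : NonUnitalStarSubalgebra ℂ 𝒜 :=
  (NonUnitalStarAlgebra.adjoin ℂ S).topologicalClosure

/-- There is an injective star homomorphism from `A` to `A'`. -/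
def Embeds (A A' : NonUnitalStarSubalgebra ℂ 𝒜) : Prop :=
  ∃ φ : A →⋆ₙₐ[ℂ] A', Function.Injective φ

/-- `A` is nonzero and has no closed two-sided ideals other than `0` and `A`. -/
def IsSimple (A : NonUnitalStarSubalgebra ℂ 𝒜) : Prop :=
  Nontrivial A ∧ ∀ J : TwoSidedIdeal A, IsClosed (J : Set A) → J = ⊥ ∨ J = ⊤

/-- `A` contains an increasing sequence of finite-dimensional star subalgebras with dense union. -/
def IsAF (A : NonUnitalStarSubalgebra ℂ 𝒜) : Prop :=
  ∃ F : ℕ → NonUnitalStarSubalgebra ℂ 𝒜, Monotone F ∧ (∀ n, FiniteDimensional ℂ (F n)) ∧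
    (∀ n, F n ≤ A) ∧ (A : Set 𝒜) ⊆ closure (⋃ n, (F n : Set 𝒜))

end Abstract

section Concrete

variable {K L : Type} [NormedAddCommGroup K] [InnerProductSpace ℂ K] [CompleteSpace K]
  [NormedAddCommGroup L] [InnerProductSpace ℂ L] [CompleteSpace L]

variable (K) in
/-- The space of codes: sequences of bounded operators on `K`. -/
def Gamma : Type := ℕ → (K →WOT[ℂ] K)

/-- The product of the Borel structures of the weak operator topology. -/
noncomputable instance : MeasurableSpace (Gamma K) :=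
  @MeasurableSpace.pi ℕ (fun _ => K →WOT[ℂ] K) (fun _ => borel (K →WOT[ℂ] K))

/-- The C*-algebra coded by `γ`: the C*-algebra generated by its entries. -/
noncomputable def Cstar (γ : Gamma K) : NonUnitalStarSubalgebra ℂ (K →L[ℂ] K) :=
  gen (Set.range fun n => (γ n).toCLM)

/-- The operator matrix `x` is a positive operator on `K^n`. -/
def PosMat {n : ℕ} (x : Fin n → Fin n → K →L[ℂ] K) : Prop :=
  ∀ ξ : Fin n → K, 0 ≤ ∑ i, ∑ j, ⟪ξ i, x i j (ξ j)⟫_ℂ

/-- On `S`, the map `φ` is linear, contractive and completely positive, with values in `T`. -/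
def IsCPC (S : Set (K →L[ℂ] K)) (T : Set (L →L[ℂ] L)) (φ : (K →L[ℂ] K) → (L →L[ℂ] L)) : Prop :=
  Set.MapsTo φ S T ∧ (∀ a ∈ S, ∀ b ∈ S, ∀ c : ℂ, φ (c • a + b) = c • φ a + φ b) ∧
    (∀ a ∈ S, ‖φ a‖ ≤ ‖a‖) ∧
    ∀ (n : ℕ) (x : Fin n → Fin n → K →L[ℂ] K), (∀ i j, x i j ∈ S) → PosMat x →
      PosMat fun i j => φ (x i j)

variable (L) in
/-- The identity of `A` factors through `B(L)` by contractive completely positive maps, up to `ε`
on `F`. -/
def Factors (A F : Set (K →L[ℂ] K)) (ε : ℝ) : Prop :=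
  ∃ (φ : (K →L[ℂ] K) → (L →L[ℂ] L)) (ψ : (L →L[ℂ] L) → (K →L[ℂ] K)),
    IsCPC A Set.univ φ ∧ IsCPC Set.univ A ψ ∧ ∀ a ∈ F, ‖ψ (φ a) - a‖ < ε

/-- Nuclearity as the completely positive approximation property: the identity of `A` is a
point-norm limit of maps `ψ ∘ φ` with `φ : A → M_k` and `ψ : M_k → A` contractive and
completely positive, `M_k = B(ℂ^k)`. -/
def IsNuclear (A : Set (K →L[ℂ] K)) : Prop :=
  ∀ (F : Set (K →L[ℂ] K)) (ε : ℝ), F.Finite → F ⊆ A → 0 < ε →
    ∃ k : ℕ, Factors (EuclideanSpace ℂ (Fin k)) A F ε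

/-- `γ` codes a simple, nuclear, AF algebra. -/
def SimpleNuclearAF (γ : Gamma K) : Prop :=
  IsSimple (Cstar γ) ∧ IsNuclear (Cstar γ : Set (K →L[ℂ] K)) ∧ IsAF (Cstar γ)

/-- The algebras coded by `γ` and `δ` are bi-embeddable. -/
def BiEmb (γ δ : Gamma K) : Prop := Embeds (Cstar γ) (Cstar δ) ∧ Embeds (Cstar δ) (Cstar γ)

end Concrete

/-- The separable infinite-dimensional Hilbert space `ℓ²(ℕ)`. -/
noncomputable abbrev H : Type := lp (fun _ : ℕ => ℂ) 2

end Pool.Agent.H491Z.AFS
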