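import Pool.Agent.H491Z.AFMain
import Pool.Agent.H491Z.AFStmt

namespace Pool.Agent.H491Z.AFS

open scoped InnerProductSpace ComplexOrder

section

variable {K L : Type} [NormedAddCommGroup K] [InnerProductSpace ℂ K] [CompleteSpace K]
  [NormedAddCommGroup L] [InnerProductSpace ℂ L] [CompleteSpace L]

lemma factors_of {σ : Type} [SetLike σ (K →L[ℂ] K)] [AddSubgroupClass σ (K →L[ℂ] K)]
    [SMulMemClass σ ℂ (K →L[ℂ] K)] (A : σ) (F : Set (K →L[ℂ] K)) (hF : F ⊆ A) (ε : ℝ)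
    (φ : A → (L →L[ℂ] L)) (ψ : (L →L[ℂ] L) → A)
    (l1 : ∀ (a b : A) (c : ℂ), φ ⟨c • a.1 + b.1, add_mem (SMulMemClass.smul_mem c a.2) b.2⟩ =
      c • φ a + φ b)
    (l2 : ∀ (a b : L →L[ℂ] L) (c : ℂ), (ψ (c • a + b)).1 = c • (ψ a).1 + (ψ b).1)
    (h1 : ∀ a, ‖φ a‖ ≤ ‖a.1‖) (h2 : ∀ m, ‖(ψ m).1‖ ≤ ‖m‖)
    (h3 : ∀ (n : ℕ) (x : Fin n → Fin n → A), PosMat (fun i j => (x i j).1) →
      PosMat (fun i j => φ (x i j)))
    (h4 : ∀ (n : ℕ) (y : Fin n → Fin n → L →L[ℂ] L), PosMat y → PosMat (fun i j => (ψ (y i j)).1))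
    (h5 : ∀ a : A, a.1 ∈ F → ‖(ψ (φ a)).1 - a.1‖ < ε) : Factors L (A : Set (K →L[ℂ] K)) F ε := by
  classical
  refine ⟨fun a => if h : a ∈ A then φ ⟨a, h⟩ else 0, fun m => (ψ m).1,
    ⟨fun _ _ => trivial, fun a ha b hb c => ?_, fun a ha => ?_, fun n x hx hp => ?_⟩,
    ⟨fun m _ => (ψ m).2, fun a _ b _ c => l2 a b c, fun m _ => h2 m, fun n y _ hy => h4 n y hy⟩,
    fun a ha => ?_⟩
  · have ha' : a ∈ A := ha
    have hb' : b ∈ A := hb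
    simp only [dif_pos ha', dif_pos hb', dif_pos (add_mem (SMulMemClass.smul_mem c ha') hb')]
    exact l1 ⟨a, ha'⟩ ⟨b, hb'⟩ c
  · have ha' : a ∈ A := ha
    simp only [dif_pos ha']
    exact h1 ⟨a, ha'⟩
  · have hx' : ∀ i j, x i j ∈ A := hx
    simp only [dif_pos (hx' _ _)]
    exact h3 n (fun i j => ⟨x i j, hx' i j⟩) hp
  · have ha' : a ∈ A := hF ha
    simp only [dif_pos ha']
    exact h5 ⟨a, ha'⟩ ha

end

lemma nuclear_of {A : NonUnitalStarSubalgebra ℂ AF.B} (h : AF.IsNuclear A) :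
    IsNuclear (K := H) (A : Set AF.B) := by
  intro F ε hF hA hε
  have hf : (Subtype.val ⁻¹' F : Set A).Finite := hF.preimage Subtype.val_injective.injOn
  obtain ⟨k, φ, ψ, h1, h2, h3, h4, h5⟩ := h hf.toFinset ε hε
  refine ⟨k, factors_of A F hA ε φ ψ (fun a b c => ?_) (fun a b c => ?_) h1 h2 h3 h4
    fun a ha => h5 a (hf.mem_toFinset.2 ha)⟩
  · exact (φ.map_add (c • a) b).trans (by rw [φ.map_smul])
  · rw [ψ.map_add, ψ.map_smul]; rfl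

theorem main' (X : Type) [TopologicalSpace X] [PolishSpace X] [MeasurableSpace X] [BorelSpace X]
    (R : X → X → Prop) (hr : ∀ x, R x x) (ht : ∀ x y z, R x y → R y z → R x z)
    (hA : MeasureTheory.AnalyticSet {p : X × X | R p.1 p.2}) :
    ∃ f : X → Gamma H, Measurable f ∧ (∀ x, SimpleNuclearAF (f x)) ∧
      ∀ x y, R x y ↔ Embeds (Cstar (f x)) (Cstar (f y)) := by
  obtain ⟨f, h1, h2, h3⟩ := AF.main X R hr ht hA
  exact ⟨f, h1, fun x => ⟨(h2 x).1, nuclear_of (h2 x).2.1, (h2 x).2.2⟩, h3⟩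

end Pool.Agent.H491Z.AFS
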