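import Pool.Agent.H491Z.AFTrace

namespace Pool.Agent.H491Z.AF

open Finset

section generic

variable {𝒜 : Type} [CStarAlgebra 𝒜]

lemma proj_star_of {v : 𝒜} (h : IsStarProjection (star v * v)) : IsStarProjection (v * star v) := by
  have h1 := mul_proj_of_star_mul h rfl
  refine ⟨?_, by rw [IsSelfAdjoint, star_mul, star_star]⟩
  rw [IsIdempotentElem]
  calc v * star v * (v * star v) = (v * (star v * v)) * star v := by simp only [mul_assoc]
    _ = v * star v := by rw [h1]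

lemma est_mvn {v w f f' : 𝒜} (h : IsStarProjection (star v * v)) (pf : IsStarProjection f)
    (hf : ‖f - star v * v‖ ≤ 1 / 100) (hf' : ‖f' - v * star v‖ ≤ 1 / 100)
    (hw : ‖w - v‖ ≤ 1 / 100) : ‖star (f' * w * f) * (f' * w * f) - f‖ < 1 := by
  have h1 : v * (star v * v) = v := mul_proj_of_star_mul h rfl
  have h2 : v * star v * v = v := by rw [mul_assoc, h1]
  have nv : ‖v‖ ≤ 1 := by
    have := h.norm_le
    rw [CStarRing.norm_star_mul_self] at this
    nlinarith [norm_nonneg v]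
  have nw : ‖w‖ ≤ 101 / 100 := by
    have := norm_add_le (w - v) v
    simp only [sub_add_cancel] at this
    linarith
  have nf := pf.norm_le
  have ne' := (proj_star_of h).norm_le
  set z := f' * w * f with hz
  have nz : ‖z - v‖ ≤ 4 / 100 := by
    have e1 : z - v = (f' - v * star v) * w * f + (v * star v) * (w - v) * f +
        v * (f - star v * v) := by
      rw [hz, sub_mul, sub_mul, mul_sub, sub_mul, h2, mul_sub, h1]; abel
    have a1 : ‖(f' - v * star v) * w * f‖ ≤ 1 / 100 * (101 / 100) * 1 :=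
      (norm_mul_le _ _).trans (by
        gcongr
        exact (norm_mul_le _ _).trans (by gcongr))
    have a2 : ‖(v * star v) * (w - v) * f‖ ≤ 1 * (1 / 100) * 1 :=
      (norm_mul_le _ _).trans (by
        gcongr
        exact (norm_mul_le _ _).trans (by gcongr))
    have a3 : ‖v * (f - star v * v)‖ ≤ 1 * (1 / 100) := (norm_mul_le _ _).trans (by gcongr)
    rw [e1]
    have := norm_add₃_le (a := (f' - v * star v) * w * f) (b := (v * star v) * (w - v) * f)
      (c := v * (f - star v * v))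
    linarith
  have nz' : ‖z‖ ≤ 104 / 100 := by
    have := norm_add_le (z - v) v
    simp only [sub_add_cancel] at this
    linarith
  have e2 : star z * z - f = star z * (z - v) + star (z - v) * v + -(f - star v * v) := by
    rw [star_sub, mul_sub, sub_mul]; abel
  have b1 : ‖star z * (z - v)‖ ≤ 104 / 100 * (4 / 100) :=
    (norm_mul_le _ _).trans (by rw [norm_star]; gcongr)
  have b2 : ‖star (z - v) * v‖ ≤ 4 / 100 * 1 :=
    (norm_mul_le _ _).trans (by rw [norm_star]; gcongr)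
  rw [e2]
  have := norm_add₃_le (a := star z * (z - v)) (b := star (z - v) * v) (c := -(f - star v * v))
  rw [norm_neg] at this
  linarith

lemma est_orth {e1 e2 f1 a : 𝒜} (p2 : IsStarProjection e2) (pf : IsStarProjection f1)
    (h : e1 * e2 = 0) (h' : e2 * e1 = 0) {ε : ℝ} (hf : ‖f1 - e1‖ ≤ ε) (ha : ‖a - e2‖ ≤ ε) :
    ‖(1 - f1) * a * (1 - f1) - e2‖ ≤ 3 * ε := by
  have hε : 0 ≤ ε := (norm_nonneg _).trans hf
  have n1 := pf.one_sub.norm_le
  have n2 := p2.norm_le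
  have e : (1 - f1) * a * (1 - f1) - e2 = (1 - f1) * (a - e2) * (1 - f1) +
      -((f1 - e1) * e2 * (1 - f1)) + -(e2 * (f1 - e1)) := by
    rw [sub_mul f1 e1 e2, h, mul_sub e2 f1 e1, h']; noncomm_ring
  have a1 : ‖(1 - f1) * (a - e2) * (1 - f1)‖ ≤ 1 * ε * 1 :=
    (norm_mul_le _ _).trans (by
      gcongr
      exact (norm_mul_le _ _).trans (by gcongr))
  have a2 : ‖(f1 - e1) * e2 * (1 - f1)‖ ≤ ε * 1 * 1 :=
    (norm_mul_le _ _).trans (by
      gcongr
      exact (norm_mul_le _ _).trans (by gcongr))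
  have a3 : ‖e2 * (f1 - e1)‖ ≤ 1 * ε := (norm_mul_le _ _).trans (by gcongr)
  rw [e]
  have := norm_add₃_le (a := (1 - f1) * (a - e2) * (1 - f1)) (b := -((f1 - e1) * e2 * (1 - f1)))
    (c := -(e2 * (f1 - e1)))
  rw [norm_neg, norm_neg] at this
  linarith

noncomputable def perp (S : NonUnitalStarSubalgebra ℂ 𝒜) {f : 𝒜} (pf : IsStarProjection f) :
    NonUnitalStarSubalgebra ℂ 𝒜 where
  carrier := {a | a ∈ S ∧ f * a = 0 ∧ a * f = 0}
  add_mem' := fun h h' => ⟨add_mem h.1 h'.1, by rw [mul_add, h.2.1, h'.2.1, add_zero],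
    by rw [add_mul, h.2.2, h'.2.2, add_zero]⟩
  zero_mem' := ⟨zero_mem _, mul_zero _, zero_mul _⟩
  smul_mem' := fun c _ h => ⟨SMulMemClass.smul_mem c h.1, by rw [mul_smul_comm, h.2.1, smul_zero],
    by rw [smul_mul_assoc, h.2.2, smul_zero]⟩
  mul_mem' := fun h h' => ⟨mul_mem h.1 h'.1, by rw [← mul_assoc, h.2.1, zero_mul],
    by rw [mul_assoc, h'.2.2, mul_zero]⟩
  star_mem' := fun h => ⟨star_mem h.1, by
    have := congrArg star h.2.2
    rwa [star_mul, pf.isSelfAdjoint.star_eq, star_zero] at this, by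
    have := congrArg star h.2.1
    rwa [star_mul, pf.isSelfAdjoint.star_eq, star_zero] at this⟩

lemma closed_perp (S : NonUnitalStarSubalgebra ℂ 𝒜) (hS : IsClosed (S : Set 𝒜)) {f : 𝒜}
    (pf : IsStarProjection f) : IsClosed (perp S pf : Set 𝒜) :=
  hS.inter ((isClosed_eq (by fun_prop) continuous_const).inter
    (isClosed_eq (by fun_prop) continuous_const))

lemma norm_proj_eq {e : 𝒜} (he : IsStarProjection e) (h : e ≠ 0) : ‖e‖ = 1 := by
  have h1 := CStarRing.norm_star_mul_self (x := e)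
  rw [he.isSelfAdjoint.star_eq, he.isIdempotentElem.eq] at h1
  have h2 := norm_ne_zero_iff.2 h
  field_simp at h1
  exact h1.symm

end generic

variable {V : Type} [AddCommGroup V]

def Compat (D : Diag) (b : ℕ → ℕ → V) : Prop :=
  ∀ n, ∀ i < D.r n, b n i = ∑ j ∈ range (D.r (n + 1)), D.M n i j • b (n + 1) j

def PCone (D : Diag) (b : ℕ → ℕ → V) (g : V) : Prop :=
  ∃ (n : ℕ) (k : ℕ → ℕ), g = ∑ i ∈ range (D.r n), k i • b n i ∧ ∃ i < D.r n, k i ≠ 0

lemma Compat.up {D : Diag} {b : ℕ → ℕ → V} (hb : Compat D b) {R : Type} [Semiring R]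
    [Module R V] (n : ℕ) (k : ℕ → R) : ∑ i ∈ range (D.r n), k i • b n i =
      ∑ j ∈ range (D.r (n + 1)), (∑ i ∈ range (D.r n), D.M n i j * k i) • b (n + 1) j := by
  simp only [Finset.sum_smul]
  rw [Finset.sum_comm]
  refine Finset.sum_congr rfl fun i hi => ?_
  rw [hb n i (mem_range.1 hi), Finset.smul_sum]
  refine Finset.sum_congr rfl fun j _ => ?_
  rw [mul_smul, Nat.cast_smul_eq_nsmul, smul_comm]

namespace Fam

variable {D : Diag} (F : Fam D B) (b : ℕ → ℕ → V)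

def Cl (n : ℕ) (f : B) (g : V) : Prop :=
  ∃ k : ℕ → ℕ, (∀ i < D.r n, F.tr n i f = k i) ∧ g = ∑ i ∈ range (D.r n), k i • b n i

def HC (e : B) (g : V) : Prop :=
  ∃ n f, f ∈ F.sp n ∧ IsStarProjection f ∧ ‖f - e‖ ≤ 1 / 100 ∧ F.Cl b n f g

lemma Cl_add {n : ℕ} {f f' : B} {g g' : V} (h : F.Cl b n f g) (h' : F.Cl b n f' g') :
    F.Cl b n (f + f') (g + g') := by
  obtain ⟨k, h1, rfl⟩ := h
  obtain ⟨k', h1', rfl⟩ := h'
  refine ⟨fun i => k i + k' i, fun i hi => by rw [F.tr_add, h1 i hi, h1' i hi]; simp, ?_⟩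
  simp [add_smul, Finset.sum_add_distrib]

lemma HC_zero : F.HC b 0 0 :=
  ⟨0, 0, zero_mem _, IsStarProjection.zero B, by simp, 0, fun i _ => by simp [F.tr_zero], by simp⟩

variable (hD : D.OK) (h1 : ∀ n i, F.p n i = 1) (hb : Compat D b)
include hD h1

lemma Cl_exists {n : ℕ} {f : B} (hf : f ∈ F.sp n) (pf : IsStarProjection f) :
    ∃ g, F.Cl b n f g := by
  choose k hk using fun i => F.tr_idem hD h1 i hf pf.isIdempotentElem.eq
  exact ⟨_, k, fun i _ => (hk i).1, rfl⟩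

omit h1 in
lemma proj_approx {e : B} (he : e ∈ F.alg hD) (pe : IsStarProjection e) {ε : ℝ} (hε : 0 < ε) :
    ∃ n, ∃ f ∈ F.sp n, IsStarProjection f ∧ ‖f - e‖ ≤ ε := by
  obtain ⟨n, -, a, ha, h⟩ := F.approx hD he (ε := min (ε / 7) (1 / 20)) (by positivity) 0
  obtain ⟨f, h1, h2, h3⟩ := exists_proj_near (F.lev hD n) (F.closed_sp n) pe ha
    (min_le_right (ε / 7) (1 / 20)) h.le
  exact ⟨n, f, h1, h2, h3.trans (by have := min_le_left (ε / 7) (1 / 20); linarith)⟩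

lemma HC_exists {e : B} (he : e ∈ F.alg hD) (pe : IsStarProjection e) : ∃ g, F.HC b e g := by
  obtain ⟨n, f, hf, pf, h⟩ := F.proj_approx hD he pe (ε := 1 / 100) (by norm_num)
  obtain ⟨g, hg⟩ := F.Cl_exists b hD h1 hf pf
  exact ⟨g, n, f, hf, pf, h, hg⟩

lemma HC_pos {e : B} (pe : IsStarProjection e) (h0 : e ≠ 0) {g : V} (h : F.HC b e g) :
    PCone D b g := by
  obtain ⟨n, f, hf, pf, h, k, hk, rfl⟩ := h
  refine ⟨n, k, rfl, ?_⟩
  by_contra hc
  push Not at hc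
  have : f = 0 := by
    refine F.eq_zero_of_co hD h1 hf fun μ hμ ν hν e => ?_
    obtain ⟨l, hl, hl0⟩ := F.tr_idem hD h1 (en μ) hf pf.isIdempotentElem.eq
    have := Diag.en_lt hD hμ
    rw [hk _ this, hc _ this] at hl
    exact hl0 (Nat.cast_injective hl).symm μ hμ ν hν rfl e.symm
  rw [this, zero_sub, norm_neg, norm_proj_eq pe h0] at h
  norm_num at h

include hb

lemma Cl_up {n m : ℕ} (hnm : n ≤ m) {f : B} (hf : f ∈ F.sp n) {g : V} (h : F.Cl b n f g) :
    F.Cl b m f g := by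
  induction m, hnm using Nat.le_induction with
  | base => exact h
  | succ m hm ih =>
    obtain ⟨k, h2, rfl⟩ := ih
    refine ⟨fun j => ∑ i ∈ range (D.r m), D.M m i j * k i, fun j hj => ?_, ?_⟩
    · rw [F.tr_succ hD h1 j hj (F.sp_mono hD hm hf)]
      push_cast
      exact Finset.sum_congr rfl fun i hi => by rw [h2 i (mem_range.1 hi)]
    · simpa using hb.up m k

lemma HC_mvn {v : B} (hv : v ∈ F.alg hD) (pv : IsStarProjection (star v * v)) {g g' : V}
    (h : F.HC b (star v * v) g) (h' : F.HC b (v * star v) g') : g = g' := by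
  obtain ⟨n, f, hf, pf, h, hg⟩ := h
  obtain ⟨n', f', hf', pf', h', hg'⟩ := h'
  obtain ⟨m, hm, w, hw, hwv⟩ := F.approx hD hv (ε := 1 / 100) (by norm_num) (max n n')
  have l1 : n ≤ m := (le_max_left _ _).trans hm
  have l2 : n' ≤ m := (le_max_right _ _).trans hm
  obtain ⟨k, hk, rfl⟩ := F.Cl_up b hD h1 hb l1 hf hg
  obtain ⟨k', hk', rfl⟩ := F.Cl_up b hD h1 hb l2 hf' hg'
  refine Finset.sum_congr rfl fun i hi => ?_
  have hi := mem_range.1 hi
  have a1 := F.tr_le hD h1 i (F.sp_mono hD l1 hf) (F.sp_mono hD l2 hf') hw pf pf'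
    (est_mvn pv pf h h' hwv.le) (hk i hi) (hk' i hi)
  have a2 := F.tr_le hD h1 i (F.sp_mono hD l2 hf') (F.sp_mono hD l1 hf)
    (star_mem (s := F.lev hD m) hw) pf' pf
    (est_mvn (v := star v) (by rw [star_star]; exact proj_star_of pv) pf'
      (by rwa [star_star]) (by rwa [star_star]) (by rw [← star_sub, norm_star]; exact hwv.le))
    (hk' i hi) (hk i hi)
  rw [le_antisymm a1 a2]

lemma HC_unique {e : B} (he : e ∈ F.alg hD) (pe : IsStarProjection e) {g g' : V}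
    (h : F.HC b e g) (h' : F.HC b e g') : g = g' := by
  have e1 : star e * e = e := by rw [pe.isSelfAdjoint.star_eq, pe.isIdempotentElem.eq]
  have e2 : e * star e = e := by rw [pe.isSelfAdjoint.star_eq, pe.isIdempotentElem.eq]
  exact F.HC_mvn b hD h1 hb he (by rwa [e1]) (by rwa [e1]) (by rwa [e2])

lemma HC_add {e1 e2 : B} (he1 : e1 ∈ F.alg hD) (p1 : IsStarProjection e1) (he2 : e2 ∈ F.alg hD)
    (p2 : IsStarProjection e2) (h : e1 * e2 = 0) {g1 g2 : V} (c1 : F.HC b e1 g1)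
    (c2 : F.HC b e2 g2) : F.HC b (e1 + e2) (g1 + g2) := by
  have h' : e2 * e1 = 0 := by
    have := congrArg star h
    rwa [star_mul, p1.isSelfAdjoint.star_eq, p2.isSelfAdjoint.star_eq, star_zero] at this
  obtain ⟨n, f1, hf1, pf1, n1⟩ := F.proj_approx hD he1 p1 (ε := 1 / 10000) (by norm_num)
  obtain ⟨m, hm, a, ha, na⟩ := F.approx hD he2 (ε := 1 / 10000) (by norm_num) n
  have hf1' := F.sp_mono hD hm hf1
  have o1 : 1 - f1 ∈ F.lev hD m := sub_mem (F.one_mem_sp hD h1 m) hf1'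
  obtain ⟨f2, hf2, pf2, n2⟩ := exists_proj_near (perp (F.lev hD m) pf1)
    (closed_perp _ (F.closed_sp m) pf1) p2 (a := (1 - f1) * a * (1 - f1))
    ⟨mul_mem (mul_mem o1 ha) o1,
      by rw [← mul_assoc, ← mul_assoc, pf1.mul_one_sub_self, zero_mul, zero_mul],
      by rw [mul_assoc, pf1.one_sub_mul_self, mul_zero]⟩ (by norm_num)
    (est_orth p2 pf1 h h' n1 na.le)
  obtain ⟨g1', d1⟩ := F.Cl_exists b hD h1 hf1' pf1
  obtain ⟨g2', d2⟩ := F.Cl_exists b hD h1 hf2.1 pf2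
  rw [F.HC_unique b hD h1 hb he1 p1 c1 ⟨m, f1, hf1', pf1, by linarith, d1⟩,
    F.HC_unique b hD h1 hb he2 p2 c2 ⟨m, f2, hf2.1, pf2, by linarith, d2⟩]
  refine ⟨m, f1 + f2, add_mem hf1' hf2.1, pf1.add pf2 hf2.2.1, ?_, F.Cl_add b d1 d2⟩
  have := norm_add_le (f1 - e1) (f2 - e2)
  rw [show f1 + f2 - (e1 + e2) = f1 - e1 + (f2 - e2) by abel]
  linarith

lemma HC_sum {ι : Type} (s : Finset ι) (e : ι → B) (g : ι → V) (he : ∀ i ∈ s, e i ∈ F.alg hD)
    (pe : ∀ i ∈ s, IsStarProjection (e i)) (ho : ∀ i ∈ s, ∀ j ∈ s, i ≠ j → e i * e j = 0)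
    (hc : ∀ i ∈ s, F.HC b (e i) (g i)) :
    IsStarProjection (∑ i ∈ s, e i) ∧ F.HC b (∑ i ∈ s, e i) (∑ i ∈ s, g i) := by
  classical
  induction s using Finset.induction_on with
  | empty => exact ⟨by simp, by simpa using F.HC_zero b⟩
  | insert a s ha ih =>
    obtain ⟨q1, q2⟩ := ih (fun i hi => he i (mem_insert_of_mem hi))
      (fun i hi => pe i (mem_insert_of_mem hi))
      (fun i hi j hj => ho i (mem_insert_of_mem hi) j (mem_insert_of_mem hj))
      (fun i hi => hc i (mem_insert_of_mem hi))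
    have o : e a * ∑ i ∈ s, e i = 0 := by
      rw [Finset.mul_sum]
      exact Finset.sum_eq_zero fun i hi => ho a (mem_insert_self _ _) i (mem_insert_of_mem hi)
        (fun h => ha (h ▸ hi))
    rw [Finset.sum_insert ha, Finset.sum_insert ha]
    exact ⟨(pe a (mem_insert_self _ _)).add q1 o, F.HC_add b hD h1 hb (he a (mem_insert_self _ _))
      (pe a (mem_insert_self _ _)) (sum_mem fun i hi => he i (mem_insert_of_mem hi)) q1 o
      (hc a (mem_insert_self _ _)) q2⟩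

theorem psi_of_hom {D0 : Diag} (hD0 : D0.OK) (F0 : Fam D0 B) (h0 : ∀ n i, F0.p n i = 1)
    (φ : F0.alg hD0 →⋆ₙₐ[ℂ] F.alg hD) (hφ : Function.Injective φ) :
    ∃ ψ : ℕ → ℕ → V, (∀ n, ∀ i < D0.r n, PCone D b (ψ n i)) ∧ Compat D0 ψ := by
  classical
  let Φ : B → B := fun a => if h : a ∈ F0.alg hD0 then (φ ⟨a, h⟩ : B) else 0
  have Φmem : ∀ a, Φ a ∈ F.alg hD := by
    intro a; simp only [Φ]; split_ifs with h
    exacts [(φ ⟨a, h⟩).2, zero_mem _]
  have Φeq : ∀ a : F0.alg hD0, Φ a = φ a := fun a => by simp only [Φ]; rw [dif_pos a.2]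
  have Φmul : ∀ a ∈ F0.alg hD0, ∀ c ∈ F0.alg hD0, Φ (a * c) = Φ a * Φ c := by
    intro a ha c hc
    have := Φeq (⟨a, ha⟩ * ⟨c, hc⟩)
    rw [map_mul] at this
    rw [Φeq ⟨a, ha⟩, Φeq ⟨c, hc⟩]; exact this
  have Φadd : ∀ a ∈ F0.alg hD0, ∀ c ∈ F0.alg hD0, Φ (a + c) = Φ a + Φ c := by
    intro a ha c hc
    have := Φeq (⟨a, ha⟩ + ⟨c, hc⟩)
    rw [map_add] at this
    rw [Φeq ⟨a, ha⟩, Φeq ⟨c, hc⟩]; exact this
  have Φstar : ∀ a ∈ F0.alg hD0, Φ (star a) = star (Φ a) := by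
    intro a ha
    have := Φeq (star ⟨a, ha⟩)
    rw [map_star] at this
    rw [Φeq ⟨a, ha⟩]; exact this
  have Φzero : Φ 0 = 0 := by
    have := Φeq 0
    rw [map_zero] at this; exact this
  have Φsum : ∀ (s : Finset Ed) (a : Ed → B), (∀ i ∈ s, a i ∈ F0.alg hD0) →
      Φ (∑ i ∈ s, a i) = ∑ i ∈ s, Φ (a i) := by
    intro s a ha
    induction s using Finset.induction_on with
    | empty => simpa using Φzero
    | insert x s hx ih =>
      rw [Finset.sum_insert hx, Finset.sum_insert hx, Φadd _ (ha x (mem_insert_self _ _)) _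
        (sum_mem fun i hi => ha i (mem_insert_of_mem hi)),
        ih fun i hi => ha i (mem_insert_of_mem hi)]
  have Em : ∀ {n μ ν}, μ ∈ D0.paths n → ν ∈ D0.paths n → en μ = en ν → F0.E μ ν ∈ F0.alg hD0 :=
    fun a c d => F0.mem_alg_of_sp hD0 (F0.E_mem_sp a c d)
  have Φproj : ∀ {n μ}, μ ∈ D0.paths n → IsStarProjection (Φ (F0.E μ μ)) := by
    intro n μ hμ
    have := F0.proj_E hD0 hμ
    exact ⟨by rw [IsIdempotentElem, ← Φmul _ (Em hμ hμ rfl) _ (Em hμ hμ rfl),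
      this.isIdempotentElem.eq], by rw [IsSelfAdjoint, ← Φstar _ (Em hμ hμ rfl), F0.star_E]⟩
  have Φne : ∀ {n μ}, μ ∈ D0.paths n → Φ (F0.E μ μ) ≠ 0 := by
    intro n μ hμ h
    have h2 : φ ⟨_, Em hμ hμ rfl⟩ = 0 := Subtype.ext (by rw [← Φeq]; exact h)
    have h3 : F0.E μ μ = 0 := congrArg Subtype.val (hφ (h2.trans (map_zero φ).symm))
    have h4 := F0.tr_E hD0 h0 (en μ) hμ
    rw [h3, F0.tr_zero] at h4
    simp at h4
  have ex : ∀ n i, ∃ g : V, i < D0.r n → ∀ μ ∈ D0.paths n, en μ = i → F.HC b (Φ (F0.E μ μ)) g := by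
    intro n i
    by_cases hi : i < D0.r n
    swap
    · exact ⟨0, fun h => absurd h hi⟩
    obtain ⟨μ0, h2, h3⟩ := Diag.exists_path hD0 n i hi
    obtain ⟨g, hg⟩ := F.HC_exists b hD h1 (Φmem _) (Φproj h2)
    refine ⟨g, fun _ μ hμ e => ?_⟩
    obtain ⟨g', hg'⟩ := F.HC_exists b hD h1 (Φmem _) (Φproj hμ)
    have e' : en μ = en μ0 := by rw [e, h3]
    have q1 : star (Φ (F0.E μ μ0)) * Φ (F0.E μ μ0) = Φ (F0.E μ0 μ0) := by
      rw [← Φstar _ (Em hμ h2 e'), F0.star_E, ← Φmul _ (Em h2 hμ e'.symm) _ (Em hμ h2 e'),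
        F0.E_mul_E hD0 _ h2 hμ hμ e'.symm, if_pos rfl]
    have q2 : Φ (F0.E μ μ0) * star (Φ (F0.E μ μ0)) = Φ (F0.E μ μ) := by
      rw [← Φstar _ (Em hμ h2 e'), F0.star_E, ← Φmul _ (Em hμ h2 e') _ (Em h2 hμ e'.symm),
        F0.E_mul_E hD0 _ hμ h2 h2 e', if_pos rfl]
    have q3 : g = g' := F.HC_mvn b hD h1 hb (Φmem (F0.E μ μ0)) (by rw [q1]; exact Φproj h2)
      (by rwa [q1]) (by rw [q2]; exact hg')
    rwa [q3]
  choose ψ hψ using ex
  refine ⟨ψ, fun n i hi => ?_, fun n i hi => ?_⟩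
  · obtain ⟨μ, h2, h3⟩ := Diag.exists_path hD0 n i hi
    exact F.HC_pos b hD h1 (Φproj h2) (Φne h2) (hψ n i hi μ h2 h3)
  · obtain ⟨μ, h2, rfl⟩ := Diag.exists_path hD0 n i hi
    have cm : ∀ e ∈ D0.edges n (en μ), e :: μ ∈ D0.paths (n + 1) :=
      fun e he => D0.cons_mem_paths.2 ⟨h2, he⟩
    have := (F.HC_sum b hD h1 hb (D0.edges n (en μ)) (fun e => Φ (F0.E (e :: μ) (e :: μ)))
      (fun e => ψ (n + 1) e.1) (fun e _ => Φmem _) (fun e he => Φproj (cm e he))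
      (fun e he e' he' hne => by
        rw [← Φmul _ (Em (cm e he) (cm e he) rfl) _ (Em (cm e' he') (cm e' he') rfl),
          F0.E_mul_E hD0 _ (cm e he) (cm e he) (cm e' he') rfl,
          if_neg (fun h => hne (List.cons.inj h).1), Φzero])
      (fun e he => hψ (n + 1) e.1 (D0.mem_edges.1 he).1 _ (cm e he) rfl)).2
    rw [← Φsum _ _ (fun e he => Em (cm e he) (cm e he) rfl), ← F0.E_succ hD0 h2 h2 rfl,
      Diag.sum_edges n (en μ) (ψ (n + 1))] at this
    exact F.HC_unique b hD h1 hb (Φmem _) (Φproj h2) (hψ n _ hi μ h2 rfl) this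

end Fam

end Pool.Agent.H491Z.AF
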