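import Mathlib

/-! Codes of separable C*-algebras, embeddability, simple, AF and nuclear C*-algebras. -/

namespace Pool.Agent.H491Z.AF

open scoped InnerProductSpace ComplexOrder

/-- The separable infinite-dimensional Hilbert space `ℓ²(ℕ)`. -/
noncomputable abbrev H : Type := lp (fun _ : ℕ => ℂ) 2

/-- The bounded operators on `H`, with the operator norm. -/
abbrev B : Type := H →L[ℂ] H

/-- The space of codes: sequences of bounded operators on `H`. -/
def Gamma : Type := ℕ → (H →WOT[ℂ] H)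

/-- The product of the Borel structures of the weak operator topology. -/
noncomputable instance : MeasurableSpace Gamma :=
  @MeasurableSpace.pi ℕ (fun _ => H →WOT[ℂ] H) (fun _ => borel (H →WOT[ℂ] H))

/-- The C*-algebra coded by `γ`: the norm closure of the star algebra generated by its entries. -/
noncomputable def Cstar (γ : Gamma) : NonUnitalStarSubalgebra ℂ B :=
  (NonUnitalStarAlgebra.adjoin ℂ (Set.range fun n => (γ n).toCLM)).topologicalClosure

/-- There is an injective star homomorphism from `A` to `A'`. -/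
def Embeds (A A' : NonUnitalStarSubalgebra ℂ B) : Prop :=
  ∃ φ : A →⋆ₙₐ[ℂ] A', Function.Injective φ

/-- `A` is nonzero and has no closed two-sided ideals other than `0` and `A`. -/
def IsSimple (A : NonUnitalStarSubalgebra ℂ B) : Prop :=
  Nontrivial A ∧ ∀ J : TwoSidedIdeal A, IsClosed (J : Set A) → J = ⊥ ∨ J = ⊤

/-- `A` contains an increasing sequence of finite-dimensional star subalgebras with dense union. -/
def IsAF (A : NonUnitalStarSubalgebra ℂ B) : Prop :=
  ∃ F : ℕ → NonUnitalStarSubalgebra ℂ B, Monotone F ∧ (∀ n, FiniteDimensional ℂ (F n)) ∧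
    (∀ n, F n ≤ A) ∧ (A : Set B) ⊆ closure (⋃ n, (F n : Set B))

/-- The operator matrix `x` is a positive operator on `K^n`. -/
def PosMat {K : Type} [NormedAddCommGroup K] [InnerProductSpace ℂ K] {n : ℕ}
    (x : Fin n → Fin n → K →L[ℂ] K) : Prop :=
  ∀ ξ : Fin n → K, 0 ≤ ∑ i, ∑ j, ⟪ξ i, x i j (ξ j)⟫_ℂ

/-- The matrix algebra `M_k(ℂ)`, as the operators on `ℂ^k` with the operator norm. -/
abbrev Mat (k : ℕ) : Type := EuclideanSpace ℂ (Fin k) →L[ℂ] EuclideanSpace ℂ (Fin k)

/-- Nuclearity as the completely positive approximation property: the identity of `A` is a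
point-norm limit of maps `ψ ∘ φ` with `φ : A → M_k` and `ψ : M_k → A` contractive and
completely positive. -/
def IsNuclear (A : NonUnitalStarSubalgebra ℂ B) : Prop :=
  ∀ (F : Finset A) (ε : ℝ), 0 < ε → ∃ (k : ℕ) (φ : A →ₗ[ℂ] Mat k) (ψ : Mat k →ₗ[ℂ] A),
    (∀ a, ‖φ a‖ ≤ ‖a‖) ∧ (∀ m, ‖ψ m‖ ≤ ‖m‖) ∧
    (∀ (n : ℕ) (x : Fin n → Fin n → A), PosMat (fun i j => (x i j : B)) →
      PosMat (fun i j => φ (x i j))) ∧
    (∀ (n : ℕ) (y : Fin n → Fin n → Mat k), PosMat y → PosMat (fun i j => (ψ (y i j) : B))) ∧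
    ∀ a ∈ F, ‖ψ (φ a) - a‖ < ε

end Pool.Agent.H491Z.AF
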