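import Mathlib

/-! Bratteli diagrams and families of partial isometries representing them. -/

namespace Pool.Agent.H491Z.AF

open Finset

abbrev Ed : Type := Σ _ : ℕ, ℕ

structure Diag where
  r : ℕ → ℕ
  M : ℕ → ℕ → ℕ → ℕ

namespace Diag

def OK (D : Diag) : Prop :=
  (∀ n, 0 < D.r n) ∧ D.r 0 = 1 ∧ ∀ n, ∀ i < D.r n, ∀ j < D.r (n + 1), 0 < D.M n i j

def edges (D : Diag) (n i : ℕ) : Finset Ed :=
  (range (D.r (n + 1))).sigma fun j => range (D.M n i j)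

end Diag

def en : List Ed → ℕ
  | [] => 0
  | e :: _ => e.1

@[simp] lemma en_nil : en [] = 0 := rfl
@[simp] lemma en_cons (e : Ed) (μ : List Ed) : en (e :: μ) = e.1 := rfl

namespace Diag

variable (D : Diag)

def paths : ℕ → Finset (List Ed)
  | 0 => {[]}
  | n + 1 => (paths n).biUnion fun μ => (D.edges n (en μ)).image fun e => e :: μ

lemma mem_edges {n i : ℕ} {e : Ed} : e ∈ D.edges n i ↔ e.1 < D.r (n + 1) ∧ e.2 < D.M n i e.1 := by
  simp [edges]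

lemma mem_paths_zero {μ : List Ed} : μ ∈ D.paths 0 ↔ μ = [] := by simp [paths]

lemma mem_paths_succ {n : ℕ} {ν : List Ed} :
    ν ∈ D.paths (n + 1) ↔ ∃ μ ∈ D.paths n, ∃ e ∈ D.edges n (en μ), ν = e :: μ := by
  simp [paths, eq_comm]

lemma cons_mem_paths {n : ℕ} {μ : List Ed} {e : Ed} :
    e :: μ ∈ D.paths (n + 1) ↔ μ ∈ D.paths n ∧ e ∈ D.edges n (en μ) := by
  rw [mem_paths_succ]
  constructor
  · rintro ⟨μ', h1, e', h2, h3⟩
    obtain ⟨rfl, rfl⟩ := List.cons.inj h3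
    exact ⟨h1, h2⟩
  · rintro ⟨h1, h2⟩; exact ⟨μ, h1, e, h2, rfl⟩

variable {D}

lemma length_of_mem : ∀ {n : ℕ} {μ : List Ed}, μ ∈ D.paths n → μ.length = n
  | 0, μ, h => by rw [D.mem_paths_zero.1 h]; rfl
  | n + 1, μ, h => by
    obtain ⟨μ', h1, e, _, rfl⟩ := D.mem_paths_succ.1 h
    simp [length_of_mem h1]

lemma en_lt (hD : D.OK) : ∀ {n : ℕ} {μ : List Ed}, μ ∈ D.paths n → en μ < D.r n
  | 0, μ, h => by rw [D.mem_paths_zero.1 h]; exact hD.1 0
  | n + 1, μ, h => by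
    obtain ⟨μ', _, e, h2, rfl⟩ := D.mem_paths_succ.1 h
    exact (D.mem_edges.1 h2).1

lemma exists_path (hD : D.OK) : ∀ (n : ℕ), ∀ i < D.r n, ∃ μ ∈ D.paths n, en μ = i
  | 0, i, h => ⟨[], D.mem_paths_zero.2 rfl, by rw [hD.2.1] at h; simp; omega⟩
  | n + 1, i, h => by
    obtain ⟨μ, h1, h2⟩ := exists_path hD n 0 (hD.1 n)
    refine ⟨⟨i, 0⟩ :: μ, D.cons_mem_paths.2 ⟨h1, D.mem_edges.2 ⟨h, ?_⟩⟩, rfl⟩
    rw [h2]; exact hD.2.2 n 0 (hD.1 n) i h

lemma edges_nonempty (hD : D.OK) {n i : ℕ} (hi : i < D.r n) : (D.edges n i).Nonempty :=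
  ⟨⟨0, 0⟩, D.mem_edges.2 ⟨hD.1 _, hD.2.2 n i hi 0 (hD.1 _)⟩⟩

lemma sum_paths_succ {β : Type} [AddCommMonoid β] (n : ℕ) (F : List Ed → β) :
    ∑ ν ∈ D.paths (n + 1), F ν = ∑ μ ∈ D.paths n, ∑ e ∈ D.edges n (en μ), F (e :: μ) := by
  rw [paths, Finset.sum_biUnion]
  · refine Finset.sum_congr rfl fun μ _ => ?_
    rw [Finset.sum_image]
    intro a _ b _ h
    exact (List.cons.inj h).1
  · intro μ _ ν _ h
    simp only [Function.onFun, Finset.disjoint_left, mem_image]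
    rintro _ ⟨e, _, rfl⟩ ⟨e', _, h'⟩
    exact h (List.cons.inj h').2.symm

lemma sum_edges {β : Type} [AddCommMonoid β] (n i : ℕ) (F : ℕ → β) :
    ∑ e ∈ D.edges n i, F e.1 = ∑ j ∈ range (D.r (n + 1)), D.M n i j • F j := by
  rw [edges, Finset.sum_sigma]
  simp

def pairs (D : Diag) (n : ℕ) : Finset (List Ed × List Ed) :=
  (D.paths n ×ˢ D.paths n).filter fun q => en q.1 = en q.2

lemma mem_pairs {n : ℕ} {q : List Ed × List Ed} :
    q ∈ D.pairs n ↔ q.1 ∈ D.paths n ∧ q.2 ∈ D.paths n ∧ en q.1 = en q.2 := by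
  simp [pairs, and_assoc]

end Diag

variable {𝒜 : Type} [CStarAlgebra 𝒜]

structure Fam (D : Diag) (𝒜 : Type) [CStarAlgebra 𝒜] where
  p : ℕ → ℕ → 𝒜
  w : ℕ → ℕ → Ed → 𝒜
  proj : ∀ n, ∀ i < D.r n, IsStarProjection (p n i)
  orth : ∀ n, ∀ i < D.r n, ∀ e ∈ D.edges n i, ∀ e' ∈ D.edges n i,
    star (w n i e) * w n i e' = if e = e' then p (n + 1) e.1 else 0
  sum : ∀ n, ∀ i < D.r n, ∑ e ∈ D.edges n i, w n i e * star (w n i e) = p n i

lemma mul_proj_of_star_mul {v q : 𝒜} (hq : IsStarProjection q) (h : star v * v = q) :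
    v * q = v := by
  have h1 : star (v * q - v) * (v * q - v) = 0 := by
    have e1 : star (v * q - v) * (v * q - v) =
        q * (star v * v) * q - q * (star v * v) - (star v * v) * q + star v * v := by
      simp only [star_sub, star_mul, hq.isSelfAdjoint.star_eq]
      noncomm_ring
    rw [e1, h, hq.isIdempotentElem.eq, hq.isIdempotentElem.eq]
    abel
  exact sub_eq_zero.1 ((CStarRing.star_mul_self_eq_zero_iff _).1 h1)

namespace Fam

variable {D : Diag} (F : Fam D 𝒜)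

def u : List Ed → 𝒜
  | [] => F.p 0 0
  | e :: μ => u μ * F.w μ.length (en μ) e

def E (μ ν : List Ed) : 𝒜 := F.u μ * star (F.u ν)

lemma w_mul_p {n i : ℕ} (hi : i < D.r n) {e : Ed} (he : e ∈ D.edges n i) :
    F.w n i e * F.p (n + 1) e.1 = F.w n i e :=
  mul_proj_of_star_mul (F.proj _ _ (D.mem_edges.1 he).1) (by rw [F.orth n i hi e he e he]; simp)

lemma p_mul_w {n i : ℕ} (hi : i < D.r n) {e : Ed} (he : e ∈ D.edges n i) :
    F.p n i * F.w n i e = F.w n i e := by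
  rw [← F.sum n i hi, Finset.sum_mul, Finset.sum_eq_single_of_mem e he]
  · rw [mul_assoc, F.orth n i hi e he e he, if_pos rfl, F.w_mul_p hi he]
  · intro e' he' h
    rw [mul_assoc, F.orth n i hi e' he' e he, if_neg h, mul_zero]

lemma star_u_mul (hD : D.OK) : ∀ {n : ℕ} {μ ν : List Ed}, μ ∈ D.paths n → ν ∈ D.paths n →
    star (F.u μ) * F.u ν = if μ = ν then F.p n (en μ) else 0
  | 0, μ, ν, h, h' => by
    rw [D.mem_paths_zero.1 h, D.mem_paths_zero.1 h']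
    have := F.proj 0 0 (hD.1 0)
    simp [u, this.isSelfAdjoint.star_eq, this.isIdempotentElem.eq]
  | n + 1, μ, ν, h, h' => by
    obtain ⟨μ', h1, e, h2, rfl⟩ := D.mem_paths_succ.1 h
    obtain ⟨ν', h1', e', h2', rfl⟩ := D.mem_paths_succ.1 h'
    have e1 : star (F.u (e :: μ')) * F.u (e' :: ν') = star (F.w n (en μ') e) *
        (star (F.u μ') * F.u ν') * F.w n (en ν') e' := by
      simp only [u, star_mul, Diag.length_of_mem h1, Diag.length_of_mem h1', mul_assoc]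
    rw [e1, star_u_mul hD h1 h1']
    by_cases hh : μ' = ν'
    · subst hh
      rw [if_pos rfl, mul_assoc, F.p_mul_w (Diag.en_lt hD h1) h2',
        F.orth n _ (Diag.en_lt hD h1) e h2 e' h2']
      simp
    · simp [hh]

lemma u_mul_p (hD : D.OK) {n : ℕ} {μ : List Ed} (h : μ ∈ D.paths n) :
    F.u μ * F.p n (en μ) = F.u μ :=
  mul_proj_of_star_mul (F.proj _ _ (Diag.en_lt hD h)) (by rw [F.star_u_mul hD h h]; simp)

lemma star_E (μ ν : List Ed) : star (F.E μ ν) = F.E ν μ := by simp [E]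

lemma E_mul_u (hD : D.OK) {n : ℕ} {μ ν ρ : List Ed} (hμ : μ ∈ D.paths n) (hν : ν ∈ D.paths n)
    (hρ : ρ ∈ D.paths n) (h : en μ = en ν) :
    F.E μ ν * F.u ρ = if ν = ρ then F.u μ else 0 := by
  rw [E, mul_assoc, F.star_u_mul hD hν hρ]
  split_ifs
  · rw [← h, F.u_mul_p hD hμ]
  · simp

lemma E_mul_E (hD : D.OK) {n : ℕ} {μ ν ρ : List Ed} (σ : List Ed) (hμ : μ ∈ D.paths n)
    (hν : ν ∈ D.paths n) (hρ : ρ ∈ D.paths n) (h : en μ = en ν) :
    F.E μ ν * F.E ρ σ = if ν = ρ then F.E μ σ else 0 := by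
  conv_lhs => rw [E.eq_1 F ρ σ, ← mul_assoc, F.E_mul_u hD hμ hν hρ h]
  split_ifs
  · rfl
  · simp

lemma E_succ (hD : D.OK) {n : ℕ} {μ ν : List Ed} (hμ : μ ∈ D.paths n) (hν : ν ∈ D.paths n)
    (h : en μ = en ν) : F.E μ ν = ∑ e ∈ D.edges n (en μ), F.E (e :: μ) (e :: ν) := by
  have : ∀ e, F.E (e :: μ) (e :: ν) =
      F.u μ * (F.w n (en μ) e * star (F.w n (en μ) e)) * star (F.u ν) := by
    intro e
    simp only [E, u, star_mul, Diag.length_of_mem hμ, Diag.length_of_mem hν, mul_assoc, h]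
  simp only [this]
  rw [← Finset.sum_mul, ← Finset.mul_sum, F.sum n _ (Diag.en_lt hD hμ), F.u_mul_p hD hμ, E]

lemma sum_E (hD : D.OK) : ∀ n : ℕ, ∑ μ ∈ D.paths n, F.E μ μ = F.p 0 0
  | 0 => by
    have := F.proj 0 0 (hD.1 0)
    simp [Diag.paths, E, u, this.isSelfAdjoint.star_eq, this.isIdempotentElem.eq]
  | n + 1 => by
    rw [Diag.sum_paths_succ, ← sum_E hD n]
    exact Finset.sum_congr rfl fun μ h => (F.E_succ hD h h rfl).symm

lemma proj_E (hD : D.OK) {n : ℕ} {μ : List Ed} (hμ : μ ∈ D.paths n) :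
    IsStarProjection (F.E μ μ) :=
  ⟨by rw [IsIdempotentElem, F.E_mul_E hD μ hμ hμ hμ rfl, if_pos rfl], F.star_E μ μ⟩

/-- The span of the matrix units of level `n`. -/
noncomputable def sp (n : ℕ) : Submodule ℂ 𝒜 :=
  Submodule.span ℂ ((fun q : List Ed × List Ed => F.E q.1 q.2) '' (D.pairs n))

lemma E_mem_sp {n : ℕ} {μ ν : List Ed} (hμ : μ ∈ D.paths n) (hν : ν ∈ D.paths n)
    (h : en μ = en ν) : F.E μ ν ∈ F.sp n :=
  Submodule.subset_span ⟨(μ, ν), by simpa [Diag.mem_pairs] using ⟨hμ, hν, h⟩, rfl⟩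

lemma sp_induction {n : ℕ} {P : 𝒜 → Prop} {a : 𝒜} (ha : a ∈ F.sp n)
    (hE : ∀ μ ∈ D.paths n, ∀ ν ∈ D.paths n, en μ = en ν → P (F.E μ ν)) (h0 : P 0)
    (hadd : ∀ a b, P a → P b → P (a + b)) (hsmul : ∀ (c : ℂ) a, P a → P (c • a)) : P a := by
  induction ha using Submodule.span_induction with
  | mem x hx =>
    obtain ⟨q, hq, rfl⟩ := hx
    have := Diag.mem_pairs.1 (Finset.mem_coe.1 hq)
    exact hE _ this.1 _ this.2.1 this.2.2
  | zero => exact h0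
  | add x y _ _ h1 h2 => exact hadd _ _ h1 h2
  | smul c x _ h => exact hsmul _ _ h

noncomputable def lev (hD : D.OK) (n : ℕ) : NonUnitalStarSubalgebra ℂ 𝒜 where
  carrier := F.sp n
  add_mem' := (F.sp n).add_mem
  zero_mem' := (F.sp n).zero_mem
  smul_mem' := fun c _ h => (F.sp n).smul_mem c h
  mul_mem' := by
    intro a b ha hb
    refine F.sp_induction (P := fun a => a * b ∈ F.sp n) ha ?_ (by simp) ?_ ?_
    · intro μ hμ ν hν h
      refine F.sp_induction (P := fun b => F.E μ ν * b ∈ F.sp n) hb ?_ (by simp) ?_ ?_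
      · intro ρ hρ σ hσ h'
        rw [F.E_mul_E hD σ hμ hν hρ h]
        split_ifs with h''
        · exact F.E_mem_sp hμ hσ (by rw [h, h'', h'])
        · exact zero_mem _
      · intro a b h1 h2; rw [mul_add]; exact add_mem h1 h2
      · intro c a h1; rw [mul_smul_comm]; exact Submodule.smul_mem _ _ h1
    · intro a b h1 h2; rw [add_mul]; exact add_mem h1 h2
    · intro c a h1; rw [smul_mul_assoc]; exact Submodule.smul_mem _ _ h1
  star_mem' := by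
    intro a ha
    refine F.sp_induction (P := fun a => star a ∈ F.sp n) ha ?_ (by simp) ?_ ?_
    · intro μ hμ ν hν h
      rw [F.star_E]; exact F.E_mem_sp hν hμ h.symm
    · intro a b h1 h2; rw [star_add]; exact add_mem h1 h2
    · intro c a h1; rw [star_smul]; exact Submodule.smul_mem _ _ h1

lemma mem_lev (hD : D.OK) {n : ℕ} {a : 𝒜} : a ∈ F.lev hD n ↔ a ∈ F.sp n := Iff.rfl

instance (n : ℕ) : FiniteDimensional ℂ (F.sp n) :=
  FiniteDimensional.span_of_finite ℂ ((D.pairs n).finite_toSet.image _)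

lemma finDim_lev (hD : D.OK) (n : ℕ) : FiniteDimensional ℂ (F.lev hD n) :=
  inferInstanceAs (FiniteDimensional ℂ (F.sp n))

lemma closed_sp (n : ℕ) : IsClosed (F.sp n : Set 𝒜) := (F.sp n).closed_of_finiteDimensional

lemma sp_mono (hD : D.OK) : Monotone F.sp := by
  refine monotone_nat_of_le_succ fun n a ha => ?_
  refine F.sp_induction (P := fun a => a ∈ F.sp (n + 1)) ha ?_ (zero_mem _)
    (fun _ _ => add_mem) (fun c a => Submodule.smul_mem _ c)
  intro μ hμ ν hν h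
  rw [F.E_succ hD hμ hν h]
  refine Submodule.sum_mem _ fun e he => ?_
  exact F.E_mem_sp (D.cons_mem_paths.2 ⟨hμ, he⟩) (D.cons_mem_paths.2 ⟨hν, h ▸ he⟩) rfl

lemma lev_mono (hD : D.OK) : Monotone (F.lev hD) := fun _ _ h _ ha => F.sp_mono hD h ha

/-- The union of the levels. -/
noncomputable def inf (hD : D.OK) : NonUnitalStarSubalgebra ℂ 𝒜 where
  carrier := {a | ∃ n, a ∈ F.sp n}
  add_mem' := by
    rintro a b ⟨n, ha⟩ ⟨m, hb⟩
    exact ⟨max n m, add_mem (F.sp_mono hD (le_max_left _ _) ha) (F.sp_mono hD (le_max_right _ _) hb)⟩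
  zero_mem' := ⟨0, zero_mem _⟩
  smul_mem' := by rintro c a ⟨n, ha⟩; exact ⟨n, Submodule.smul_mem _ _ ha⟩
  mul_mem' := by
    rintro a b ⟨n, ha⟩ ⟨m, hb⟩
    exact ⟨max n m, (F.lev hD _).mul_mem (F.sp_mono hD (le_max_left _ _) ha)
      (F.sp_mono hD (le_max_right _ _) hb)⟩
  star_mem' := by rintro a ⟨n, ha⟩; exact ⟨n, star_mem (s := F.lev hD n) ha⟩

noncomputable def alg (hD : D.OK) : NonUnitalStarSubalgebra ℂ 𝒜 := (F.inf hD).topologicalClosure

instance (hD : D.OK) : IsClosed (F.alg hD : Set 𝒜) :=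
  NonUnitalStarSubalgebra.isClosed_topologicalClosure _

lemma mem_alg_of_sp (hD : D.OK) {n : ℕ} {a : 𝒜} (ha : a ∈ F.sp n) : a ∈ F.alg hD :=
  subset_closure (s := (F.inf hD : Set 𝒜)) ⟨n, ha⟩

lemma approx (hD : D.OK) {a : 𝒜} (ha : a ∈ F.alg hD) {ε : ℝ} (hε : 0 < ε) (m : ℕ) :
    ∃ n, m ≤ n ∧ ∃ b ∈ F.sp n, ‖b - a‖ < ε := by
  obtain ⟨b, ⟨n, hb⟩, h⟩ := Metric.mem_closure_iff.1 (show a ∈ closure (F.inf hD : Set 𝒜) from ha) ε hε
  exact ⟨max n m, le_max_right _ _, b, F.sp_mono hD (le_max_left _ _) hb,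
    by rwa [dist_comm, dist_eq_norm] at h⟩

lemma exists_coeff {n : ℕ} {a : 𝒜} (ha : a ∈ F.sp n) :
    ∃ c : List Ed × List Ed → ℂ, a = ∑ q ∈ D.pairs n, c q • F.E q.1 q.2 := by
  obtain ⟨c, hc⟩ := (Submodule.mem_span_image_finset_iff_exists_fun' ℂ).1 ha
  exact ⟨c, hc.symm⟩

lemma sandwich (hD : D.OK) {n : ℕ} (c : List Ed × List Ed → ℂ) {μ ν : List Ed}
    (hμ : μ ∈ D.paths n) (hν : ν ∈ D.paths n) :
    star (F.u μ) * (∑ q ∈ D.pairs n, c q • F.E q.1 q.2) * F.u ν =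
      if en μ = en ν then c (μ, ν) • F.p n (en μ) else 0 := by
  have : ∀ q ∈ D.pairs n, star (F.u μ) * (c q • F.E q.1 q.2) * F.u ν =
      if q = (μ, ν) then c (μ, ν) • F.p n (en μ) else 0 := by
    intro q hq
    obtain ⟨h1, h2, h3⟩ := Diag.mem_pairs.1 hq
    rw [mul_smul_comm, smul_mul_assoc, mul_assoc, F.E_mul_u hD h1 h2 hν h3]
    by_cases e2 : q.2 = ν
    · rw [if_pos e2, F.star_u_mul hD hμ h1]
      by_cases e1 : μ = q.1
      · have : q = (μ, ν) := Prod.ext e1.symm e2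
        simp [this]
      · rw [if_neg e1, if_neg (fun h => e1 (by rw [h]))]; simp
    · rw [if_neg e2, if_neg (fun h => e2 (by rw [h]))]; simp
  rw [Finset.mul_sum, Finset.sum_mul, Finset.sum_congr rfl this, Finset.sum_ite_eq']
  simp [Diag.mem_pairs, hμ, hν]

end Fam

end Pool.Agent.H491Z.AF
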