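import Pool.Agent.H491Z.AFLift

namespace Pool.Agent.H491Z.AF

open Finset

variable {V : Type} [AddCommGroup V] [Module ℚ V] (s : V →ₗ[ℚ] ℚ)

lemma exists_gen (F : List V) (hF : F ≠ []) (hp : ∀ f ∈ F, 0 < s f) :
    ∃ g ∈ Submodule.span ℤ {f | f ∈ F}, 0 < s g ∧
      ∀ v ∈ Submodule.span ℤ {f | f ∈ F}, ∃ n : ℤ, s v = n * s g := by
  obtain ⟨N, hN, hz⟩ : ∃ N : ℕ, 0 < N ∧ ∀ f ∈ F, ∃ z : ℤ, N * s f = z := by
    clear hF hp
    induction F with
    | nil => exact ⟨1, one_pos, by simp⟩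
    | cons a F ih =>
      obtain ⟨N, h1, h2⟩ := ih
      refine ⟨N * (s a).den, Nat.mul_pos h1 (s a).den_pos, fun f hf => ?_⟩
      rcases List.mem_cons.1 hf with rfl | hf
      · exact ⟨N * (s f).num, by push_cast; rw [mul_assoc, Rat.den_mul_eq_num]⟩
      · obtain ⟨z, hz⟩ := h2 f hf
        exact ⟨z * (s a).den, by push_cast; rw [← hz]; ring⟩
  have hz' : ∀ v ∈ Submodule.span ℤ {f | f ∈ F}, ∃ z : ℤ, N * s v = z := by
    intro v hv
    induction hv using Submodule.span_induction with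
    | mem x hx => exact hz x hx
    | zero => exact ⟨0, by simp⟩
    | add x y _ _ h1 h2 =>
      obtain ⟨a, ha⟩ := h1
      obtain ⟨b, hb⟩ := h2
      exact ⟨a + b, by rw [map_add, mul_add, ha, hb]; simp⟩
    | smul c x _ h =>
      obtain ⟨a, ha⟩ := h
      exact ⟨c * a, by rw [map_zsmul, zsmul_eq_mul]; push_cast; rw [← ha]; ring⟩
  let S : AddSubgroup ℤ :=
    { carrier := {z | ∃ v ∈ Submodule.span ℤ {f | f ∈ F}, N * s v = z}
      add_mem' := by
        rintro a b ⟨v, h1, h2⟩ ⟨w, h3, h4⟩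
        exact ⟨v + w, add_mem h1 h3, by rw [map_add, mul_add, h2, h4]; simp⟩
      zero_mem' := ⟨0, zero_mem _, by simp⟩
      neg_mem' := by
        rintro a ⟨v, h1, h2⟩
        exact ⟨-v, neg_mem h1, by rw [map_neg, mul_neg, h2]; simp⟩ }
  obtain ⟨a, ha⟩ := Int.subgroup_cyclic S
  obtain ⟨g, hg, hga⟩ : a ∈ S := ha ▸ AddSubgroup.subset_closure rfl
  have hN' : (0 : ℚ) < N := by exact_mod_cast hN
  have key : ∀ v ∈ Submodule.span ℤ {f | f ∈ F}, ∃ n : ℤ, s v = n * s g := by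
    intro v hv
    obtain ⟨z, h⟩ := hz' v hv
    have : z ∈ S := ⟨v, hv, h⟩
    rw [ha, AddSubgroup.mem_closure_singleton] at this
    obtain ⟨n, rfl⟩ := this
    refine ⟨n, mul_left_cancel₀ hN'.ne' ?_⟩
    rw [h, smul_eq_mul]; push_cast; rw [← hga]; ring
  obtain ⟨f0, hf0⟩ := List.exists_mem_of_ne_nil F hF
  have g0 : s g ≠ 0 := by
    intro h
    obtain ⟨n, hn⟩ := key f0 (Submodule.subset_span hf0)
    have := hp f0 hf0
    rw [hn, h, mul_zero] at this
    exact lt_irrefl _ this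
  rcases lt_or_gt_of_ne g0 with h | h
  · refine ⟨-g, neg_mem hg, by rw [map_neg]; linarith, fun v hv => ?_⟩
    obtain ⟨n, hn⟩ := key v hv
    exact ⟨-n, by rw [hn, map_neg]; push_cast; ring⟩
  · exact ⟨g, hg, h, key⟩

def StepOK (F L : List V) : Prop :=
  L ≠ [] ∧ (∀ x : ℕ → ℤ, ∑ j ∈ range L.length, x j • L.getD j 0 = 0 → ∀ j < L.length, x j = 0) ∧
    (∀ v ∈ L, 0 < s v ∧ ∃ a : ℕ, ∃ w ∈ Submodule.span ℤ {f | f ∈ F}, v = ((2 : ℚ) ^ a)⁻¹ • w) ∧
    ∀ f ∈ F, ∃ m : ℕ → ℕ, (∀ j < L.length, 0 < m j) ∧ f = ∑ j ∈ range L.length, m j • L.getD j 0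

lemma exists_step (F : List V) : ∃ L, F ≠ [] → (∀ f ∈ F, 0 < s f) → StepOK s F L := by
  by_cases hF : F ≠ [] ∧ ∀ f ∈ F, 0 < s f
  swap
  · exact ⟨[], fun h1 h2 => absurd ⟨h1, h2⟩ hF⟩
  obtain ⟨g, hg, gp, key⟩ := exists_gen s F hF.1 hF.2
  set L0 := Submodule.span ℤ {f | f ∈ F} with hL0
  let K : Submodule ℤ V := L0 ⊓ (LinearMap.ker s).restrictScalars ℤ
  have fg0 : L0.FG := Submodule.fg_span (List.finite_toSet F)
  have fgK : K.FG := fg0.of_le inf_le_left
  have : Module.Finite ℤ K := Module.Finite.iff_fg.2 fgK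
  have : IsAddTorsionFree V := IsAddTorsionFree.of_module_rat V
  let k := Module.finBasis ℤ K
  set d := Module.finrank ℤ K
  let kk : ℕ → V := fun j => if hj : j < d then (k ⟨j, hj⟩ : V) else 0
  have kks : ∀ j, s (kk j) = 0 := by
    intro j; simp only [kk]; split_ifs with hj
    · exact (k ⟨j, hj⟩).2.2
    · simp
  have kkm : ∀ j, kk j ∈ L0 := by
    intro j; simp only [kk]; split_ifs with hj
    · exact (k ⟨j, hj⟩).2.1
    · simp
  have kki : ∀ x : ℕ → ℤ, ∑ j ∈ range d, x j • kk j = 0 → ∀ j < d, x j = 0 := by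
    intro x hx j hj
    have h1 : ∑ i : Fin d, x i • k i = 0 := by
      apply Subtype.ext
      rw [Finset.sum_range] at hx
      simpa [kk] using hx
    exact Fintype.linearIndependent_iff.1 k.linearIndependent (fun i => x i) h1 ⟨j, hj⟩
  have dec : ∀ f ∈ F, ∃ (n : ℤ) (c : ℕ → ℤ), 0 < n ∧ f = n • g + ∑ j ∈ range d, c j • kk j := by
    intro f hf
    have hf' : f ∈ L0 := Submodule.subset_span hf
    obtain ⟨n, hn⟩ := key f hf'
    have hk : f - n • g ∈ K := ⟨sub_mem hf' (L0.smul_mem _ hg), by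
      change s (f - n • g) = 0
      rw [map_sub, map_zsmul, hn]; simp⟩
    refine ⟨n, fun j => if hj : j < d then k.repr ⟨_, hk⟩ ⟨j, hj⟩ else 0, ?_, ?_⟩
    · have := hF.2 f hf
      rw [hn] at this
      exact_mod_cast (pos_iff_pos_of_mul_pos this).2 gp
    · have := congrArg Subtype.val (k.sum_repr ⟨_, hk⟩)
      rw [Finset.sum_range, ← sub_eq_iff_eq_add']
      rw [Submodule.coe_sum] at this
      refine this.symm.trans (Finset.sum_congr rfl fun i _ => ?_)
      simp [kk]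
  choose! nn cc hnn using dec
  obtain ⟨c, hc⟩ : ∃ c : ℕ, ∀ f ∈ F, ∀ j < d, |cc f j| < c := by
    have fin : ((fun p : V × ℕ => (cc p.1 p.2).natAbs) '' ({f | f ∈ F} ×ˢ Set.Iio d)).Finite :=
      ((List.finite_toSet F).prod (Set.finite_Iio d)).image _
    obtain ⟨c, hc⟩ := fin.bddAbove
    refine ⟨c + 1, fun f hf j hj => ?_⟩
    have : (cc f j).natAbs ≤ c := hc ⟨(f, j), ⟨hf, hj⟩, rfl⟩
    rw [Int.abs_eq_natAbs]; omega
  let a := 2 * c * d
  have ha : (2 * c * d : ℤ) < 2 ^ a := by exact_mod_cast Nat.lt_two_pow_self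
  let w : V := g - ∑ j ∈ range d, (c : ℤ) • kk j
  let h : V := ((2 : ℚ) ^ a)⁻¹ • w
  have hw : w ∈ L0 := sub_mem hg (Submodule.sum_mem _ fun j _ => L0.smul_mem _ (kkm j))
  have h2 : ((2 : ℤ) ^ a) • h = w := by
    rw [← Int.cast_smul_eq_zsmul ℚ, smul_smul]; push_cast
    rw [mul_inv_cancel₀ (by positivity), one_smul]
  have sh : 0 < s h := by
    have : s w = s g := by simp [w, kks]
    simp only [h, map_smul, this, smul_eq_mul]; positivity
  let bb : ℕ → V := fun j => match j with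
    | 0 => h
    | j + 1 => h + kk j
  have gd : ∀ j < d + 1, ((List.range (d + 1)).map bb).getD j 0 = bb j := by
    intro j hj
    simp [List.getD_eq_getElem?_getD, hj]
  have sm : ∀ {R : Type} [Semiring R] [Module R V] (x : ℕ → R),
      ∑ j ∈ range (d + 1), x j • ((List.range (d + 1)).map bb).getD j 0 =
      (x 0 + ∑ j ∈ range d, x (j + 1)) • h + ∑ j ∈ range d, x (j + 1) • kk j := by
    intro R _ _ x
    rw [Finset.sum_congr rfl (fun j hj => by rw [gd j (mem_range.1 hj)]), Finset.sum_range_succ']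
    simp only [bb, smul_add, Finset.sum_add_distrib, add_smul, Finset.sum_smul]
    abel
  refine ⟨(List.range (d + 1)).map bb, fun _ _ => ⟨by simp, ?_, ?_, ?_⟩⟩
  · intro x hx j hj
    simp only [List.length_map, List.length_range] at hx hj
    rw [sm] at hx
    have e1 : x 0 + ∑ j ∈ range d, x (j + 1) = 0 := by
      have := congrArg s hx
      simp only [map_add, map_sum, map_zsmul, kks, smul_zero, Finset.sum_const_zero, add_zero,
        map_zero, zsmul_eq_mul, mul_eq_zero] at this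
      exact_mod_cast this.resolve_right sh.ne'
    rw [e1, zero_smul, zero_add] at hx
    have e2 := kki _ hx
    rcases j with _ | j
    · rwa [Finset.sum_eq_zero (fun j hj => e2 j (mem_range.1 hj)), add_zero] at e1
    · exact e2 j (by omega)
  · intro v hv
    obtain ⟨j, -, rfl⟩ := List.mem_map.1 hv
    rcases j with _ | j
    · exact ⟨sh, a, w, hw, rfl⟩
    · refine ⟨by simpa [bb, kks] using sh, a, w + ((2 : ℤ) ^ a) • kk j,
        add_mem hw (L0.smul_mem _ (kkm j)), ?_⟩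
      rw [smul_add, ← Int.cast_smul_eq_zsmul ℚ, smul_smul]; push_cast
      rw [inv_mul_cancel₀ (by positivity), one_smul]
  · intro f hf
    obtain ⟨n1, n2⟩ := hnn f hf
    let x : ℕ → ℤ := fun j => match j with
      | 0 => nn f * 2 ^ a - ∑ j ∈ range d, (nn f * c + cc f j)
      | j + 1 => nn f * c + cc f j
    have xp : ∀ j < d + 1, 0 < x j := by
      intro j hj
      rcases j with _ | j
      · have : ∑ j ∈ range d, (nn f * c + cc f j) ≤ ∑ j ∈ range d, nn f * (2 * c) :=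
          Finset.sum_le_sum fun j hj => by
            have := abs_lt.1 (hc f hf j (mem_range.1 hj))
            nlinarith
        rw [Finset.sum_const, card_range, nsmul_eq_mul] at this
        simp only [x]
        nlinarith
      · have := abs_lt.1 (hc f hf j (by omega))
        simp only [x]
        nlinarith
    simp only [List.length_map, List.length_range]
    refine ⟨fun j => (x j).toNat, fun j hj => by have := xp j hj; dsimp only; omega, ?_⟩
    have e1 : ∑ j ∈ range (d + 1), (x j).toNat • ((List.range (d + 1)).map bb).getD j 0 =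
        ∑ j ∈ range (d + 1), x j • ((List.range (d + 1)).map bb).getD j 0 :=
      Finset.sum_congr rfl fun j hj => by
        rw [← natCast_zsmul, Int.toNat_of_nonneg (xp j (mem_range.1 hj)).le]
    rw [e1, sm]
    simp only [x, sub_add_cancel]
    rw [mul_smul, h2]
    conv_lhs => rw [n2]
    simp only [w, smul_sub, Finset.smul_sum, add_smul, Finset.sum_add_distrib, mul_smul]
    abel

noncomputable def step (F : List V) : List V := (exists_step s F).choose

open Classical in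
noncomputable def mult (f : V) (L : List V) : ℕ → ℕ :=
  if h : ∃ m : ℕ → ℕ, (∀ j < L.length, 0 < m j) ∧ f = ∑ j ∈ range L.length, m j • L.getD j 0
  then h.choose else 0

variable (en' : ℕ → V) (g0 : V) (G : Submodule ℤ V)

open Classical in
noncomputable def LL : ℕ → List V
  | 0 => [g0]
  | n + 1 => step s (LL n ++ if en' n ∈ G ∧ 0 < s (en' n) then [en' n] else [])

noncomputable def diag : Diag :=
  ⟨fun n => (LL s en' g0 G n).length,
    fun n i => mult ((LL s en' g0 G n).getD i 0) (LL s en' g0 G (n + 1))⟩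

noncomputable def bas (n i : ℕ) : V := (LL s en' g0 G n).getD i 0

structure Adm : Prop where
  mem : g0 ∈ G
  pos : 0 < s g0
  half : ∀ v ∈ G, (2 : ℚ)⁻¹ • v ∈ G
  surj : Function.Surjective en'

variable {s en' g0 G} (hA : Adm s en' g0 G)
include hA

lemma Adm.half_pow (a : ℕ) : ∀ v ∈ G, ((2 : ℚ) ^ a)⁻¹ • v ∈ G := by
  induction a with
  | zero => simp
  | succ a ih =>
    intro v hv
    rw [pow_succ, mul_inv, mul_smul]
    exact ih _ (hA.half v hv)

open Classical in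
lemma Adm.inv : ∀ n, (LL s en' g0 G n ≠ [] ∧ ∀ v ∈ LL s en' g0 G n, 0 < s v ∧ v ∈ G) ∧
    StepOK s (LL s en' g0 G n ++ if en' n ∈ G ∧ 0 < s (en' n) then [en' n] else [])
      (LL s en' g0 G (n + 1)) := by
  have a1 : ∀ n, (LL s en' g0 G n ≠ [] ∧ ∀ v ∈ LL s en' g0 G n, 0 < s v ∧ v ∈ G) →
      (∀ v ∈ (LL s en' g0 G n ++ if en' n ∈ G ∧ 0 < s (en' n) then [en' n] else []),
        0 < s v ∧ v ∈ G) ∧
      StepOK s (LL s en' g0 G n ++ if en' n ∈ G ∧ 0 < s (en' n) then [en' n] else [])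
      (LL s en' g0 G (n + 1)) := by
    intro n h
    have : ∀ v ∈ (LL s en' g0 G n ++ if en' n ∈ G ∧ 0 < s (en' n) then [en' n] else []),
        0 < s v ∧ v ∈ G := by
      intro v hv
      rcases List.mem_append.1 hv with hv | hv
      · exact h.2 v hv
      · split_ifs at hv with h'
        · rw [List.mem_singleton.1 hv]; exact h'.symm
        · simp at hv
    exact ⟨this, (exists_step s _).choose_spec (by simp [h.1]) fun v hv => (this v hv).1⟩
  have a2 : ∀ n, LL s en' g0 G n ≠ [] ∧ ∀ v ∈ LL s en' g0 G n, 0 < s v ∧ v ∈ G := by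
    intro n
    induction n with
    | zero => simp [LL, hA.mem, hA.pos]
    | succ n ih =>
      obtain ⟨b1, b2⟩ := a1 n ih
      refine ⟨b2.1, fun v hv => ⟨(b2.2.2.1 v hv).1, ?_⟩⟩
      obtain ⟨a, w, hw, rfl⟩ := (b2.2.2.1 v hv).2
      exact hA.half_pow a w ((Submodule.span_le.2 fun f hf => (b1 f hf).2) hw)
  exact fun n => ⟨a2 n, (a1 n (a2 n)).2⟩

omit hA in
lemma bas_mem_LL {n i : ℕ} (hi : i < (diag s en' g0 G).r n) :
    bas s en' g0 G n i ∈ LL s en' g0 G n := by
  have hi' : i < (LL s en' g0 G n).length := hi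
  rw [bas, List.getD_eq_getElem _ _ hi']
  exact List.getElem_mem hi'

lemma Adm.bas_pos {n i : ℕ} (hi : i < (diag s en' g0 G).r n) :
    0 < s (bas s en' g0 G n i) ∧ bas s en' g0 G n i ∈ G := (hA.inv n).1.2 _ (bas_mem_LL hi)

lemma Adm.mult_spec {n i : ℕ} (hi : i < (diag s en' g0 G).r n) :
    (∀ j < (diag s en' g0 G).r (n + 1), 0 < (diag s en' g0 G).M n i j) ∧
    bas s en' g0 G n i = ∑ j ∈ range ((diag s en' g0 G).r (n + 1)),
      (diag s en' g0 G).M n i j • bas s en' g0 G (n + 1) j := by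
  have h := (hA.inv n).2.2.2.2 _ (List.mem_append_left _ (bas_mem_LL hi))
  have := h.choose_spec
  have e : (diag s en' g0 G).M n i = h.choose := dif_pos h
  rw [e]
  exact this

lemma Adm.ok : (diag s en' g0 G).OK :=
  ⟨fun n => List.length_pos_iff.2 (hA.inv n).1.1, rfl, fun _ _ hi => (hA.mult_spec hi).1⟩

lemma Adm.compat : Compat (diag s en' g0 G) (bas s en' g0 G) := fun _ _ hi => (hA.mult_spec hi).2

lemma Adm.indep : Indep (diag s en' g0 G) (bas s en' g0 G) := by
  intro n x hx i hi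
  rcases n with _ | n
  · have : (diag s en' g0 G).r 0 = 1 := rfl
    rw [this] at hx hi
    obtain rfl : i = 0 := by omega
    have e : bas s en' g0 G 0 0 = g0 := rfl
    rw [Finset.sum_range_one, e] at hx
    have := congrArg s hx
    rw [map_zsmul, map_zero, zsmul_eq_mul, mul_eq_zero] at this
    exact_mod_cast this.resolve_right hA.pos.ne'
  · exact (hA.inv n).2.2.1 x hx i hi

lemma Adm.cone {g : V} (hg : g ∈ G) (hp : 0 < s g) :
    ∃ m, ConeAt (diag s en' g0 G) (bas s en' g0 G) m g := by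
  obtain ⟨n, rfl⟩ := hA.surj g
  obtain ⟨m, -, hm⟩ := (hA.inv n).2.2.2.2 (en' n) (List.mem_append_right _ (by simp [hg, hp]))
  exact ⟨n + 1, m, hm⟩

lemma Adm.bas_le {n i : ℕ} (hi : i < (diag s en' g0 G).r n) : s (bas s en' g0 G n i) ≤ s g0 := by
  have e : g0 = bas s en' g0 G 0 0 := rfl
  obtain ⟨μ, hμ, rfl⟩ := Diag.exists_path hA.ok n i hi
  conv_rhs => rw [e, ← sum_paths_b hA.ok hA.compat n, map_sum]
  exact Finset.single_le_sum (f := fun μ => s (bas s en' g0 G n (en μ)))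
    (fun ν hν => (hA.bas_pos (Diag.en_lt hA.ok hν)).1.le) hμ

lemma Adm.pcone {g : V} (h : PCone (diag s en' g0 G) (bas s en' g0 G) g) : 0 < s g ∧ g ∈ G := by
  obtain ⟨n, k, rfl, i, hi, hk⟩ := h
  refine ⟨?_, Submodule.sum_mem _ fun j hj => nsmul_mem (hA.bas_pos (mem_range.1 hj)).2 _⟩
  rw [map_sum]
  refine Finset.sum_pos' (fun j hj => ?_) ⟨i, mem_range.2 hi, ?_⟩
  · rw [map_nsmul]; exact nsmul_nonneg (hA.bas_pos (mem_range.1 hj)).1.le _
  · rw [map_nsmul]; exact nsmul_pos (hA.bas_pos hi).1 hk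

noncomputable def Adm.alg : NonUnitalStarSubalgebra ℂ B := (can _ hA.ok).alg hA.ok

variable {G' : Submodule ℤ V} (hA' : Adm s en' g0 G')
include hA'

theorem Adm.embeds_of_map (Λ : V →ₗ[ℚ] V) (h1 : ∀ v ∈ G, Λ v ∈ G') (h2 : ∀ v, s (Λ v) = s v) :
    Embeds hA.alg hA'.alg := by
  refine (can _ hA'.ok).hom_of_psi (bas s en' g0 G') hA'.ok hA'.compat hA'.indep
    (fun _ _ _ => one_ne_zero_B) hA.ok (can _ hA.ok) (fun _ _ _ => one_ne_zero_B)
    (fun n i => (2 : ℚ)⁻¹ • Λ (bas s en' g0 G n i)) ?_ ?_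
  · intro n i hi
    dsimp only
    rw [hA.compat n i hi, map_sum, Finset.smul_sum]
    exact Finset.sum_congr rfl fun j _ => by rw [map_nsmul, smul_comm]
  · intro n i hi
    have p1 := hA.bas_pos hi
    have p2 := hA.bas_le hi
    have m1 : (2 : ℚ)⁻¹ • Λ (bas s en' g0 G n i) ∈ G' := hA'.half _ (h1 _ p1.2)
    have s1 : s ((2 : ℚ)⁻¹ • Λ (bas s en' g0 G n i)) = 2⁻¹ * s (bas s en' g0 G n i) := by
      rw [map_smul, h2, smul_eq_mul]
    refine ⟨fun h => ?_, hA'.cone m1 (by rw [s1]; linarith [p1.1]),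
      hA'.cone (sub_mem hA'.mem m1) ?_⟩
    · rw [h, map_zero] at s1; linarith [p1.1]
    · have e : bas s en' g0 G' 0 0 = g0 := rfl
      rw [map_sub, s1, e]; linarith [p1.1]

theorem Adm.map_of_embeds (h : Embeds hA.alg hA'.alg) :
    ∃ φ : G →+ V, (∀ g, φ g ∈ G') ∧ ∀ g : G, 0 < s g → φ g ≠ 0 := by
  obtain ⟨φ, hφ⟩ := h
  obtain ⟨ψ, c1, c2⟩ := (can _ hA'.ok).psi_of_hom (bas s en' g0 G') hA'.ok (fun _ _ => rfl)
    hA'.compat hA.ok (can _ hA.ok) (fun _ _ => rfl) φ hφ
  set D := diag s en' g0 G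
  set b := bas s en' g0 G
  let R : ℕ → V → V → Prop := fun n g g' => ∃ x : ℕ → ℤ, g = ∑ i ∈ range (D.r n), x i • b n i ∧
    g' = ∑ i ∈ range (D.r n), x i • ψ n i
  have up : ∀ {n m g g'}, n ≤ m → R n g g' → R m g g' := by
    intro n m g g' hnm h
    induction m, hnm using Nat.le_induction with
    | base => exact h
    | succ m _ ih =>
      obtain ⟨x, rfl, rfl⟩ := ih
      exact ⟨_, hA.compat.up m x, c2.up m x⟩
  have sub : ∀ {n m g g' k k'}, R n g g' → R m k k' → R (max n m) (g - k) (g' - k') := by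
    intro n m g g' k k' h h'
    obtain ⟨x, rfl, rfl⟩ := up (le_max_left n m) h
    obtain ⟨y, rfl, rfl⟩ := up (le_max_right n m) h'
    exact ⟨fun i => x i - y i, by simp [sub_smul], by simp [sub_smul]⟩
  have fn : ∀ {n m g g' k'}, R n g g' → R m g k' → g' = k' := by
    intro n m g g' k' h h'
    obtain ⟨x, h1, h2⟩ := sub h h'
    rw [sub_self] at h1
    rw [← sub_eq_zero, h2]
    exact Finset.sum_eq_zero fun i hi => by
      rw [hA.indep _ x h1.symm i (mem_range.1 hi), zero_smul]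
  have pos : ∀ g ∈ G, 0 < s g → ∃ n g', R n g g' ∧ 0 < s g' := by
    intro g hg hp
    obtain ⟨n, k, hk⟩ := hA.cone hg hp
    refine ⟨n, ∑ i ∈ range (D.r n), (k i : ℤ) • ψ n i, ⟨fun i => k i, by simpa using hk, rfl⟩, ?_⟩
    obtain ⟨i, hi, h0⟩ : ∃ i ∈ range (D.r n), k i ≠ 0 := by
      by_contra hc
      push Not at hc
      rw [hk, Finset.sum_eq_zero (fun i hi => by rw [hc i hi, zero_smul]), map_zero] at hp
      exact lt_irrefl _ hp
    rw [map_sum]
    refine Finset.sum_pos' (fun j hj => ?_) ⟨i, hi, ?_⟩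
    · rw [natCast_zsmul, map_nsmul]
      exact nsmul_nonneg (hA'.pcone (c1 n j (mem_range.1 hj))).1.le _
    · rw [natCast_zsmul, map_nsmul]
      exact nsmul_pos (hA'.pcone (c1 n i (mem_range.1 hi))).1 h0
  have tot : ∀ g : G, ∃ g' n, R n g g' := by
    intro g
    obtain ⟨N, hN⟩ := exists_nat_gt (|s g| / s g0)
    rw [div_lt_iff₀ hA.pos] at hN
    have := abs_lt.1 hN
    have m0 : N • g0 ∈ G := nsmul_mem hA.mem _
    have s0 : s (N • g0) = N * s g0 := by rw [map_nsmul, nsmul_eq_mul]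
    obtain ⟨n, g', h1, -⟩ := pos (g + N • g0) (add_mem g.2 m0) (by rw [map_add, s0]; linarith)
    obtain ⟨m, k', h2, -⟩ := pos (N • g0) m0 (by rw [s0]; linarith [abs_nonneg (s g)])
    have := sub h1 h2
    rw [add_sub_cancel_right] at this
    exact ⟨_, _, this⟩
  choose f nn hf using tot
  refine ⟨AddMonoidHom.ofMapSub (f := f) fun a c => fn (hf (a - c)) (sub (hf a) (hf c)),
    fun g => ?_, fun g hg => ?_⟩
  · obtain ⟨x, -, h2⟩ := hf g
    change f g ∈ G'
    rw [h2]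
    exact Submodule.sum_mem _ fun i hi => G'.smul_mem _ (hA'.pcone (c1 _ i (mem_range.1 hi))).2
  · obtain ⟨n, g', h1, h2⟩ := pos g g.2 hg
    change f g ≠ 0
    rw [fn (hf g) h1]
    intro h; rw [h, map_zero] at h2; exact lt_irrefl _ h2

end Pool.Agent.H491Z.AF
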