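import Pool.Agent.H491Z.AFFam
import Pool.Agent.H491Z.AFDefs

namespace Pool.Agent.H491Z.AF

open Finset
open scoped InnerProductSpace

namespace Fam

variable {𝒜 𝒜' : Type} [CStarAlgebra 𝒜] [CStarAlgebra 𝒜'] {D : Diag}

def prod (F : Fam D 𝒜) (F' : Fam D 𝒜') : Fam D (𝒜 × 𝒜') where
  p n i := (F.p n i, F'.p n i)
  w n i e := (F.w n i e, F'.w n i e)
  proj n i hi := ⟨Prod.ext (F.proj n i hi).isIdempotentElem.eq (F'.proj n i hi).isIdempotentElem.eq,
    Prod.ext (F.proj n i hi).isSelfAdjoint.star_eq (F'.proj n i hi).isSelfAdjoint.star_eq⟩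
  orth n i hi e he e' he' := by
    have h1 := F.orth n i hi e he e' he'
    have h2 := F'.orth n i hi e he e' he'
    refine Prod.ext ?_ ?_
    · simp only [Prod.fst_mul, Prod.fst_star, h1]; split_ifs <;> rfl
    · simp only [Prod.snd_mul, Prod.snd_star, h2]; split_ifs <;> rfl
  sum n i hi := by
    refine Prod.ext ?_ ?_
    · simp only [Prod.fst_sum, Prod.fst_mul, Prod.fst_star, F.sum n i hi]
    · simp only [Prod.snd_sum, Prod.snd_mul, Prod.snd_star, F'.sum n i hi]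

lemma prod_u (F : Fam D 𝒜) (F' : Fam D 𝒜') : ∀ μ, (F.prod F').u μ = (F.u μ, F'.u μ)
  | [] => rfl
  | e :: μ => by rw [u, prod_u F F' μ]; rfl

lemma prod_E (F : Fam D 𝒜) (F' : Fam D 𝒜') (μ ν : List Ed) :
    (F.prod F').E μ ν = (F.E μ ν, F'.E μ ν) := by
  rw [E, prod_u, prod_u]; rfl

lemma coeff_zero (F : Fam D 𝒜) (hD : D.OK) (hp : ∀ n, ∀ i < D.r n, F.p n i ≠ 0) {n : ℕ}
    (c : List Ed × List Ed → ℂ) (h : ∑ q ∈ D.pairs n, c q • F.E q.1 q.2 = 0) :
    ∀ q ∈ D.pairs n, c q = 0 := by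
  intro q hq
  obtain ⟨h1, h2, h3⟩ := Diag.mem_pairs.1 hq
  have := F.sandwich hD c h1 h2
  rw [h, if_pos h3, mul_zero, zero_mul, eq_comm, smul_eq_zero] at this
  exact this.resolve_right (hp n _ (Diag.en_lt hD h1))

lemma norm_fst (F : Fam D 𝒜) (F' : Fam D 𝒜') (hD : D.OK) (hp : ∀ n, ∀ i < D.r n, F.p n i ≠ 0)
    {z : 𝒜 × 𝒜'} (hz : z ∈ (F.prod F').alg hD) : ‖z.1‖ = ‖z‖ := by
  have h1 : ∀ n, ∀ z ∈ (F.prod F').sp n, ‖z.1‖ = ‖z‖ := by
    intro n z hz
    have : IsClosed (((F.prod F').lev hD n : NonUnitalStarSubalgebra ℂ (𝒜 × 𝒜')) :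
      Set (𝒜 × 𝒜')) := (F.prod F').closed_sp n
    let φ : (F.prod F').lev hD n →⋆ₙₐ[ℂ] 𝒜 := (NonUnitalStarAlgHom.fst ℂ 𝒜 𝒜').comp
      (NonUnitalStarSubalgebraClass.subtype _)
    have hφ : Function.Injective φ := by
      rw [injective_iff_map_eq_zero]
      rintro ⟨y, hy⟩ h
      obtain ⟨c, rfl⟩ := (F.prod F').exists_coeff hy
      have h2 : ∑ q ∈ D.pairs n, c q • F.E q.1 q.2 = 0 := by
        have : (∑ q ∈ D.pairs n, c q • (F.prod F').E q.1 q.2).1 = 0 := h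
        simpa [Prod.fst_sum, prod_E] using this
      apply Subtype.ext
      exact Finset.sum_eq_zero fun q hq => by rw [F.coeff_zero hD hp c h2 q hq, zero_smul]
    exact NonUnitalStarAlgHom.norm_map φ hφ ⟨z, hz⟩
  have h2 : IsClosed {z : 𝒜 × 𝒜' | ‖z.1‖ = ‖z‖} := isClosed_eq (by fun_prop) (by fun_prop)
  exact closure_minimal (s := ((F.prod F').inf hD : Set (𝒜 × 𝒜')))
    (by rintro z ⟨n, hz⟩; exact h1 n z hz) h2 hz

lemma norm_snd (F : Fam D 𝒜) (F' : Fam D 𝒜') (hD : D.OK) (hp : ∀ n, ∀ i < D.r n, F'.p n i ≠ 0)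
    {z : 𝒜 × 𝒜'} (hz : z ∈ (F.prod F').alg hD) : ‖z.2‖ = ‖z‖ := by
  have h1 : ∀ n, ∀ z ∈ (F.prod F').sp n, ‖z.2‖ = ‖z‖ := by
    intro n z hz
    have : IsClosed (((F.prod F').lev hD n : NonUnitalStarSubalgebra ℂ (𝒜 × 𝒜')) :
      Set (𝒜 × 𝒜')) := (F.prod F').closed_sp n
    let φ : (F.prod F').lev hD n →⋆ₙₐ[ℂ] 𝒜' := (NonUnitalStarAlgHom.snd ℂ 𝒜 𝒜').comp
      (NonUnitalStarSubalgebraClass.subtype _)
    have hφ : Function.Injective φ := by
      rw [injective_iff_map_eq_zero]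
      rintro ⟨y, hy⟩ h
      obtain ⟨c, rfl⟩ := (F.prod F').exists_coeff hy
      have h2 : ∑ q ∈ D.pairs n, c q • F'.E q.1 q.2 = 0 := by
        have : (∑ q ∈ D.pairs n, c q • (F.prod F').E q.1 q.2).2 = 0 := h
        simpa [Prod.snd_sum, prod_E] using this
      apply Subtype.ext
      exact Finset.sum_eq_zero fun q hq => by rw [F'.coeff_zero hD hp c h2 q hq, zero_smul]
    exact NonUnitalStarAlgHom.norm_map φ hφ ⟨z, hz⟩
  have h2 : IsClosed {z : 𝒜 × 𝒜' | ‖z.2‖ = ‖z‖} := isClosed_eq (by fun_prop) (by fun_prop)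
  exact closure_minimal (s := ((F.prod F').inf hD : Set (𝒜 × 𝒜')))
    (by rintro z ⟨n, hz⟩; exact h1 n z hz) h2 hz

lemma fst_snd_mem (F : Fam D 𝒜) (F' : Fam D 𝒜') (hD : D.OK)
    {z : 𝒜 × 𝒜'} (hz : z ∈ (F.prod F').alg hD) : z.1 ∈ F.alg hD ∧ z.2 ∈ F'.alg hD := by
  have h2 : IsClosed {z : 𝒜 × 𝒜' | z.1 ∈ F.alg hD ∧ z.2 ∈ F'.alg hD} :=
    ((inferInstance : IsClosed (F.alg hD : Set 𝒜)).preimage continuous_fst).inter
      ((inferInstance : IsClosed (F'.alg hD : Set 𝒜')).preimage continuous_snd)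
  refine closure_minimal (s := ((F.prod F').inf hD : Set (𝒜 × 𝒜'))) ?_ h2 hz
  rintro z ⟨n, hz⟩
  refine (F.prod F').sp_induction (P := fun z => z.1 ∈ F.alg hD ∧ z.2 ∈ F'.alg hD) hz ?_
    ⟨zero_mem _, zero_mem _⟩ (fun a b h h' => ⟨add_mem h.1 h'.1, add_mem h.2 h'.2⟩)
    (fun c a h => ⟨SMulMemClass.smul_mem c h.1, SMulMemClass.smul_mem c h.2⟩)
  intro μ hμ ν hν h
  rw [prod_E]
  exact ⟨F.mem_alg_of_sp hD (F.E_mem_sp hμ hν h), F'.mem_alg_of_sp hD (F'.E_mem_sp hμ hν h)⟩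

theorem exists_hom (F : Fam D 𝒜) (F' : Fam D 𝒜') (hD : D.OK)
    (hp : ∀ n, ∀ i < D.r n, F.p n i ≠ 0) (hp' : ∀ n, ∀ i < D.r n, F'.p n i ≠ 0)
    (A' : NonUnitalStarSubalgebra ℂ 𝒜') (hA : F'.alg hD ≤ A') :
    ∃ φ : F.alg hD →⋆ₙₐ[ℂ] A', Function.Injective φ := by
  let f1 : (F.prod F').alg hD →⋆ₙₐ[ℂ] F.alg hD := NonUnitalStarAlgHom.codRestrict
    ((NonUnitalStarAlgHom.fst ℂ 𝒜 𝒜').comp (NonUnitalStarSubalgebraClass.subtype _)) _
    fun z => (F.fst_snd_mem F' hD z.2).1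
  let f2 : (F.prod F').alg hD →⋆ₙₐ[ℂ] A' := NonUnitalStarAlgHom.codRestrict
    ((NonUnitalStarAlgHom.snd ℂ 𝒜 𝒜').comp (NonUnitalStarSubalgebraClass.subtype _)) _
    fun z => hA (F.fst_snd_mem F' hD z.2).2
  have i1 : Function.Injective f1 := by
    rw [injective_iff_map_eq_zero]
    intro z h
    have h1 : z.1.1 = 0 := congrArg Subtype.val h
    have := F.norm_fst F' hD hp z.2
    rw [h1, norm_zero, eq_comm, norm_eq_zero] at this
    exact Subtype.ext this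
  have i2 : Function.Injective f2 := by
    rw [injective_iff_map_eq_zero]
    intro z h
    have h1 : z.1.2 = 0 := congrArg Subtype.val h
    have := F.norm_snd F' hD hp' z.2
    rw [h1, norm_zero, eq_comm, norm_eq_zero] at this
    exact Subtype.ext this
  have s1 : Function.Surjective f1 := by
    have iso : Isometry (fun z : (F.prod F').alg hD => z.1.1) :=
      (isometry_subtype_coe (s := (F.alg hD : Set 𝒜))).comp (NonUnitalStarAlgHom.isometry f1 i1)
    have cl : IsClosed (Set.range fun z : (F.prod F').alg hD => z.1.1) :=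
      iso.isClosedEmbedding.isClosed_range
    rintro ⟨a, ha⟩
    have : a ∈ Set.range fun z : (F.prod F').alg hD => z.1.1 := by
      refine closure_minimal (s := (F.inf hD : Set 𝒜)) ?_ cl ha
      rintro a ⟨n, ha⟩
      obtain ⟨c, rfl⟩ := F.exists_coeff ha
      refine ⟨⟨∑ q ∈ D.pairs n, c q • (F.prod F').E q.1 q.2, (F.prod F').mem_alg_of_sp hD (n := n)
        (Submodule.sum_mem _ fun q hq => Submodule.smul_mem _ _ ?_)⟩, ?_⟩
      · obtain ⟨h1, h2, h3⟩ := Diag.mem_pairs.1 hq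
        exact (F.prod F').E_mem_sp h1 h2 h3
      · simp [Prod.fst_sum, prod_E]
    obtain ⟨z, hz⟩ := this
    exact ⟨z, Subtype.ext hz⟩
  let e := StarAlgEquiv.ofBijective f1 ⟨i1, s1⟩
  exact ⟨f2.comp (e.symm : F.alg hD →⋆ₙₐ[ℂ] (F.prod F').alg hD), i2.comp e.symm.injective⟩

end Fam

/-! Cuntz isometries on `ℓ²(ℕ)`. -/

noncomputable def dl (m : ℕ) : H := lp.single 2 m (1 : ℂ)

lemma inner_dl (a b : ℕ) : ⟪dl a, dl b⟫_ℂ = if a = b then 1 else 0 := by
  unfold dl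
  rw [lp.inner_single_left]
  by_cases h : a = b
  · subst h; simp
  · simp [h, lp.single_apply]

lemma ext_dl {S T : B} (h : ∀ b, S (dl b) = T (dl b)) : S = T := by
  refine lp.ext_continuousLinearMap (by simp) fun i => ?_
  apply ContinuousLinearMap.ext_ring
  simpa [dl] using h i

lemma ext_inner_dl {x y : H} (h : ∀ a, ⟪dl a, x⟫_ℂ = ⟪dl a, y⟫_ℂ) : x = y := by
  apply lp.ext
  funext a
  have := h a
  unfold dl at this
  rw [lp.inner_single_left, lp.inner_single_left] at this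
  simpa using this

lemma exists_iso (g : ℕ → ℕ) (hg : Function.Injective g) : ∃ V : B, ∀ m, V (dl m) = dl (g m) := by
  have ho : Orthonormal ℂ fun m => dl (g m) := by
    rw [orthonormal_iff_ite]
    intro a b
    rw [inner_dl]; simp [hg.eq_iff]
  refine ⟨ho.orthogonalFamily.linearIsometry.toContinuousLinearMap, fun m => ?_⟩
  have := ho.orthogonalFamily.linearIsometry_apply_single (i := m) (1 : ℂ)
  simpa [dl] using this

lemma exists_cuntz (s : Finset Ed) : ∃ S : Ed → B, s.Nonempty →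
    (∀ e ∈ s, ∀ e' ∈ s, star (S e) * S e' = if e = e' then 1 else 0) ∧
      ∑ e ∈ s, S e * star (S e) = 1 := by
  by_cases hs : s.Nonempty
  swap
  · exact ⟨0, fun h => absurd h hs⟩
  have : Nonempty s := hs.to_subtype
  obtain ⟨θ⟩ : Nonempty (s × ℕ ≃ ℕ) := nonempty_equiv_of_countable
  choose V hV using fun e : s => exists_iso (fun m => θ (e, m))
    (fun a b h => by simpa using h)
  have key : ∀ e e' : s, star (V e) * V e' = if e = e' then 1 else 0 := by
    intro e e'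
    refine ext_dl fun b => ext_inner_dl fun a => ?_
    rw [ContinuousLinearMap.mul_apply, ContinuousLinearMap.star_eq_adjoint,
      ContinuousLinearMap.adjoint_inner_right, hV, hV, inner_dl]
    by_cases h : e = e'
    · subst h; simp [inner_dl]
    · simp [h]
  refine ⟨fun e => if h : e ∈ s then V ⟨e, h⟩ else 0, fun _ => ⟨?_, ?_⟩⟩
  · intro e he e' he'
    simp only [he, he', dif_pos, key, Subtype.mk.injEq]
  · rw [← Finset.sum_coe_sort]
    simp only [Finset.coe_mem, dif_pos, Subtype.coe_eta]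
    refine ext_dl fun b => ?_
    obtain ⟨⟨e0, m0⟩, rfl⟩ := θ.surjective b
    rw [ContinuousLinearMap.sum_apply, Finset.sum_eq_single e0]
    · rw [← hV, ← ContinuousLinearMap.mul_apply, mul_assoc, key]; simp
    · intro e _ h
      rw [← hV, ← ContinuousLinearMap.mul_apply, mul_assoc, key]; simp [h]
    · simp

noncomputable def cuntz (s : Finset Ed) : Ed → B := (exists_cuntz s).choose

/-- The canonical family of a diagram on `ℓ²(ℕ)`. -/
noncomputable def can (D : Diag) (hD : D.OK) : Fam D B where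
  p _ _ := 1
  w n i := cuntz (D.edges n i)
  proj _ _ _ := IsStarProjection.one B
  orth n i hi := ((exists_cuntz (D.edges n i)).choose_spec (Diag.edges_nonempty hD hi)).1
  sum n i hi := ((exists_cuntz (D.edges n i)).choose_spec (Diag.edges_nonempty hD hi)).2

lemma one_ne_zero_B : (1 : B) ≠ 0 := by
  intro h
  have := inner_dl 0 0
  have h2 : dl 0 = 0 := by simpa using DFunLike.congr_fun h (dl 0)
  rw [h2] at this
  simp at this

instance : Nontrivial B := ⟨⟨1, 0, one_ne_zero_B⟩⟩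

end Pool.Agent.H491Z.AF
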