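import Pool.Agent.H491Z.AFCls

namespace Pool.Agent.H491Z.AF

open Finset

variable {V : Type} [AddCommGroup V]

def Indep (D : Diag) (b : ℕ → ℕ → V) : Prop :=
  ∀ n (x : ℕ → ℤ), ∑ i ∈ range (D.r n), x i • b n i = 0 → ∀ i < D.r n, x i = 0

def ConeAt (D : Diag) (b : ℕ → ℕ → V) (n : ℕ) (g : V) : Prop :=
  ∃ k : ℕ → ℕ, g = ∑ i ∈ range (D.r n), k i • b n i

lemma Indep.nat_eq {D : Diag} {b : ℕ → ℕ → V} (hi : Indep D b) {n : ℕ} {k k' : ℕ → ℕ}
    (h : ∑ i ∈ range (D.r n), k i • b n i = ∑ i ∈ range (D.r n), k' i • b n i) :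
    ∀ i < D.r n, k i = k' i := by
  intro i hlt
  have := hi n (fun i => (k i : ℤ) - k' i) (by
    simp only [sub_smul, Finset.sum_sub_distrib, natCast_zsmul, h, sub_self]) i hlt
  omega

lemma ConeAt.up {D : Diag} {b : ℕ → ℕ → V} (hb : Compat D b) {n m : ℕ} (h : n ≤ m) {g : V}
    (hg : ConeAt D b n g) : ConeAt D b m g := by
  induction m, h using Nat.le_induction with
  | base => exact hg
  | succ m _ ih =>
    obtain ⟨k, rfl⟩ := ih
    exact ⟨_, hb.up m k⟩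

lemma sum_en {D : Diag} (hD : D.OK) (b : ℕ → ℕ → V) {m : ℕ} {ι : Type} (P : Finset ι)
    (π : ι → List Ed) (hP : ∀ x ∈ P, π x ∈ D.paths m) : ∑ x ∈ P, b m (en (π x)) =
      ∑ l ∈ range (D.r m), (P.filter fun x => en (π x) = l).card • b m l := by
  rw [← Finset.sum_fiberwise_of_maps_to (s := P) (t := range (D.r m)) (g := fun x => en (π x))
    (fun x hx => mem_range.2 (Diag.en_lt hD (hP x hx)))]
  refine Finset.sum_congr rfl fun l _ => ?_
  rw [Finset.sum_congr rfl (g := fun _ => b m l) (fun x hx => by rw [(mem_filter.1 hx).2]),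
    Finset.sum_const]

lemma sum_paths_b {D : Diag} (hD : D.OK) {b : ℕ → ℕ → V} (hb : Compat D b) :
    ∀ m, ∑ μ ∈ D.paths m, b m (en μ) = b 0 0
  | 0 => by simp [Diag.paths]
  | m + 1 => by
    rw [Diag.sum_paths_succ, ← sum_paths_b hD hb m]
    refine Finset.sum_congr rfl fun μ hμ => ?_
    rw [hb m _ (Diag.en_lt hD hμ), ← Diag.sum_edges m (en μ) (b (m + 1))]
    rfl

lemma exists_fiber_equiv {α β : Type} (s : Finset α) (t : Finset β) (f : α → ℕ) (g : β → ℕ)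
    (h : ∀ c, (s.filter fun a => f a = c).card = (t.filter fun a => g a = c).card) :
    ∃ θ : s ≃ t, ∀ a : s, g (θ a) = f a := by
  have e : ∀ c, {a : s // f a = c} ≃ {a : t // g a = c} := fun c =>
    ((Equiv.subtypeSubtypeEquivSubtypeInter (· ∈ s) (fun a => f a = c)).trans
      (Equiv.subtypeEquivRight fun a => (mem_filter (p := fun a => f a = c)).symm)).trans
    ((Finset.equivOfCardEq (h c)).trans
      ((Equiv.subtypeSubtypeEquivSubtypeInter (· ∈ t) (fun a => g a = c)).trans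
        (Equiv.subtypeEquivRight fun a => (mem_filter (p := fun a => g a = c)).symm)).symm)
  exact ⟨Equiv.ofFiberEquiv (f := fun a : s => f a) (g := fun a : t => g a) e,
    fun a => Equiv.ofFiberEquiv_map e a⟩

namespace Fam

variable {𝒜 : Type} [CStarAlgebra 𝒜] {D : Diag} (F : Fam D 𝒜) (b : ℕ → ℕ → V)

def DCAt (m : ℕ) (q : 𝒜) (g : V) : Prop :=
  ∃ P : Finset (List Ed), P ⊆ D.paths m ∧ q = ∑ μ ∈ P, F.E μ μ ∧ g = ∑ μ ∈ P, b m (en μ)

variable (hD : D.OK) (hb : Compat D b)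
include hD hb

lemma DCAt_up {n m : ℕ} (h : n ≤ m) {q : 𝒜} {g : V} (hg : F.DCAt b n q g) : F.DCAt b m q g := by
  induction m, h using Nat.le_induction with
  | base => exact hg
  | succ m _ ih =>
    obtain ⟨P, hP, rfl, rfl⟩ := ih
    have key : ∀ {β : Type} [AddCommMonoid β] (G : List Ed → β),
        ∑ ν ∈ (D.paths (m + 1)).filter (fun ν => ν.tail ∈ P), G ν =
          ∑ μ ∈ P, ∑ e ∈ D.edges m (en μ), G (e :: μ) := by
      intro β _ G
      rw [Finset.sum_filter, Diag.sum_paths_succ, ← Finset.sum_subset hP]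
      · exact Finset.sum_congr rfl fun μ hμ => by simp [hμ]
      · intro μ _ hμ; simp [hμ]
    refine ⟨(D.paths (m + 1)).filter (fun ν => ν.tail ∈ P), filter_subset _ _, ?_, ?_⟩
    · rw [key]
      exact Finset.sum_congr rfl fun μ hμ => F.E_succ hD (hP hμ) (hP hμ) rfl
    · rw [key]
      refine Finset.sum_congr rfl fun μ hμ => ?_
      rw [hb m _ (Diag.en_lt hD (hP hμ)), ← Diag.sum_edges m (en μ) (b (m + 1))]
      rfl

lemma DC_exists (hi : Indep D b) {g : V} {n n' : ℕ} (h1 : ConeAt D b n g)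
    (h2 : ConeAt D b n' (b 0 0 - g)) : ∃ m q, F.DCAt b m q g := by
  obtain ⟨k, hk⟩ := h1.up hb (le_max_left n n')
  obtain ⟨k', hk'⟩ := h2.up hb (le_max_right n n')
  set m := max n n'
  have e1 := sum_en hD b (D.paths m) id (fun x hx => hx)
  simp only [id] at e1
  rw [sum_paths_b hD hb] at e1
  have e2 : b 0 0 = ∑ i ∈ range (D.r m), (k i + k' i) • b m i := by
    simp only [add_smul, Finset.sum_add_distrib, ← hk, ← hk']; abel
  have e3 := hi.nat_eq (e1.symm.trans e2)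
  have ex : ∀ l, ∃ P ⊆ (D.paths m).filter fun x => en x = l, l < D.r m → P.card = k l := by
    intro l
    by_cases hl : l < D.r m
    · obtain ⟨P, a1, a2⟩ := Finset.exists_subset_card_eq
        (s := (D.paths m).filter fun x => en x = l) (n := k l) (by rw [e3 l hl]; omega)
      exact ⟨P, a1, fun _ => a2⟩
    · exact ⟨∅, empty_subset _, fun h => absurd h hl⟩
  choose P hP hc using ex
  refine ⟨m, _, (range (D.r m)).biUnion P, ?_, rfl, ?_⟩
  · intro μ hμ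
    obtain ⟨l, _, h⟩ := mem_biUnion.1 hμ
    exact (mem_filter.1 (hP l h)).1
  · rw [Finset.sum_biUnion, hk]
    · refine Finset.sum_congr rfl fun l hl => ?_
      rw [Finset.sum_congr rfl (g := fun _ => b m l)
        (fun x hx => by rw [(mem_filter.1 (hP l hx)).2]), Finset.sum_const, hc l (mem_range.1 hl)]
    · intro l _ l' _ h
      simp only [Function.onFun, Finset.disjoint_left]
      intro μ a1 a2
      exact h ((mem_filter.1 (hP l a1)).2.symm.trans (mem_filter.1 (hP l' a2)).2)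

omit hb in
lemma DC_proj {m : ℕ} {q : 𝒜} {g : V} (h : F.DCAt b m q g) :
    IsStarProjection q ∧ q ∈ F.sp m := by
  obtain ⟨P, hP, rfl, -⟩ := h
  refine ⟨⟨?_, ?_⟩, Submodule.sum_mem _ fun μ hμ => F.E_mem_sp (hP hμ) (hP hμ) rfl⟩
  · rw [IsIdempotentElem, Finset.sum_mul_sum]
    refine Finset.sum_congr rfl fun μ hμ => ?_
    rw [Finset.sum_congr rfl (fun ν hν => F.E_mul_E hD ν (hP hμ) (hP hμ) (hP hν) rfl),
      Finset.sum_ite_eq, if_pos hμ]
  · rw [IsSelfAdjoint, star_sum]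
    simp only [F.star_E]

omit hb in
lemma DC_ne (hp : ∀ n, ∀ i < D.r n, F.p n i ≠ 0) {m : ℕ} {q : 𝒜} {g : V} (h : F.DCAt b m q g)
    (hg : g ≠ 0) : q ≠ 0 := by
  obtain ⟨P, hP, rfl, rfl⟩ := h
  obtain ⟨μ, hμ⟩ := Finset.nonempty_of_sum_ne_zero hg
  intro h
  have : star (F.u μ) * ((∑ ν ∈ P, F.E ν ν) * F.u μ) = F.p m (en μ) := by
    rw [Finset.sum_mul, Finset.sum_congr rfl
      (fun ν hν => F.E_mul_u hD (hP hν) (hP hν) (hP hμ) rfl), Finset.sum_ite_eq', if_pos hμ,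
      F.star_u_mul hD (hP hμ) (hP hμ), if_pos rfl]
  rw [h, zero_mul, mul_zero] at this
  exact hp m _ (Diag.en_lt hD (hP hμ)) this.symm

omit hb in
lemma DC_split (hi : Indep D b) {m : ℕ} (s : Finset Ed) {p : 𝒜} {q : Ed → 𝒜} {g : Ed → V}
    (hp : F.DCAt b m p (∑ e ∈ s, g e)) (hq : ∀ e ∈ s, F.DCAt b m (q e) (g e)) :
    ∃ w : Ed → 𝒜, (∀ e, w e ∈ F.sp m) ∧
      (∀ e ∈ s, ∀ e' ∈ s, star (w e) * w e' = if e = e' then q e else 0) ∧
      ∑ e ∈ s, w e * star (w e) = p := by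
  obtain ⟨P, hP, rfl, hg⟩ := hp
  have ex : ∀ e, ∃ Q : Finset (List Ed), Q ⊆ D.paths m ∧
      (e ∈ s → q e = ∑ μ ∈ Q, F.E μ μ ∧ g e = ∑ μ ∈ Q, b m (en μ)) := by
    intro e
    by_cases he : e ∈ s
    · obtain ⟨Q, a1, a2⟩ := hq e he
      exact ⟨Q, a1, fun _ => a2⟩
    · exact ⟨∅, empty_subset _, fun h => absurd h he⟩
  choose Q hQ hQ' using ex
  let T : Finset (Σ _ : Ed, List Ed) := s.sigma Q
  have hT : ∀ x ∈ T, x.2 ∈ D.paths m := fun x hx => hQ _ (mem_sigma.1 hx).2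
  have e1 : ∑ x ∈ T, b m (en x.2) = ∑ μ ∈ P, b m (en μ) := by
    rw [← hg, Finset.sum_sigma]
    exact Finset.sum_congr rfl fun e he => (hQ' e he).2.symm
  rw [sum_en hD b T (fun x => x.2) hT, sum_en hD b P (fun x => x) (fun x hx => hP hx)] at e1
  obtain ⟨θ, hθ⟩ := exists_fiber_equiv T P (fun x => en x.2) en (fun c => by
    by_cases hc : c < D.r m
    · exact hi.nat_eq e1 c hc
    · rw [Finset.filter_eq_empty_iff.2, Finset.filter_eq_empty_iff.2]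
      · rfl
      · intro x hx h; exact hc (h ▸ Diag.en_lt hD (hP hx))
      · intro x hx h; exact hc (h ▸ Diag.en_lt hD (hT x hx)))
  let Θ : (Σ _ : Ed, List Ed) → List Ed := fun x => if h : x ∈ T then (θ ⟨x, h⟩).1 else x.2
  have Θ1 : ∀ x (h : x ∈ T), Θ x = (θ ⟨x, h⟩).1 := fun x h => dif_pos h
  have Θ2 : ∀ x ∈ T, Θ x ∈ P := fun x h => by rw [Θ1 x h]; exact (θ ⟨x, h⟩).2
  have Θ3 : ∀ x, en (Θ x) = en x.2 := by
    intro x
    by_cases h : x ∈ T
    · rw [Θ1 x h]; exact hθ ⟨x, h⟩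
    · simp only [Θ, dif_neg h]
  have Θ4 : ∀ x ∈ T, ∀ y ∈ T, Θ x = Θ y → x = y := by
    intro x hx y hy h
    rw [Θ1 x hx, Θ1 y hy] at h
    exact congrArg Subtype.val (θ.injective (Subtype.ext h))
  have Θ5 : ∀ e, ∀ ν ∈ Q e, Θ ⟨e, ν⟩ ∈ D.paths m := by
    intro e ν hν
    by_cases h : (⟨e, ν⟩ : Σ _ : Ed, List Ed) ∈ T
    · exact hP (Θ2 _ h)
    · simp only [Θ, dif_neg h]; exact hQ e hν
  refine ⟨fun e => ∑ ν ∈ Q e, F.E (Θ ⟨e, ν⟩) ν, fun e => Submodule.sum_mem _ fun ν hν =>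
    F.E_mem_sp (Θ5 e ν hν) (hQ e hν) (Θ3 _), ?_, ?_⟩
  · intro e he e' he'
    simp only [star_sum, F.star_E]
    rw [Finset.sum_mul_sum]
    have t : ∀ ν ∈ Q e, ∀ ν' ∈ Q e', F.E ν (Θ ⟨e, ν⟩) * F.E (Θ ⟨e', ν'⟩) ν' =
        if e = e' ∧ ν = ν' then F.E ν ν' else 0 := by
      intro ν hν ν' hν'
      rw [F.E_mul_E hD _ (hQ e hν) (Θ5 e ν hν) (Θ5 e' ν' hν') (Θ3 ⟨e, ν⟩).symm]
      refine if_congr ⟨fun h => ?_, ?_⟩ rfl rfl
      · have := Θ4 _ (mem_sigma.2 ⟨he, hν⟩) _ (mem_sigma.2 ⟨he', hν'⟩) h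
        simpa using this
      · rintro ⟨rfl, rfl⟩; rfl
    rw [Finset.sum_congr rfl fun ν hν => Finset.sum_congr rfl fun ν' hν' => t ν hν ν' hν']
    split_ifs with h
    · subst h
      rw [(hQ' e he).1]
      refine Finset.sum_congr rfl fun ν hν => ?_
      simp [hν]
    · simp [h]
  · have t : ∀ e ∈ s, (∑ ν ∈ Q e, F.E (Θ ⟨e, ν⟩) ν) * star (∑ ν ∈ Q e, F.E (Θ ⟨e, ν⟩) ν) =
        ∑ ν ∈ Q e, F.E (Θ ⟨e, ν⟩) (Θ ⟨e, ν⟩) := by
      intro e _
      simp only [star_sum, F.star_E]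
      rw [Finset.sum_mul_sum]
      refine Finset.sum_congr rfl fun ν hν => ?_
      rw [Finset.sum_congr rfl (fun ν' hν' => F.E_mul_E hD (Θ ⟨e, ν'⟩) (Θ5 e ν hν) (hQ e hν)
        (hQ e hν') (Θ3 ⟨e, ν⟩)), Finset.sum_ite_eq, if_pos hν]
    rw [Finset.sum_congr rfl t, ← Finset.sum_sigma s Q (fun x => F.E (Θ x) (Θ x))]
    refine Finset.sum_bij (fun x _ => Θ x) Θ2 Θ4 ?_ (fun _ _ => rfl)
    intro μ hμ
    obtain ⟨x, hx⟩ := θ.surjective ⟨μ, hμ⟩
    exact ⟨x.1, x.2, by rw [Θ1 _ x.2]; exact congrArg Subtype.val hx⟩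

theorem hom_of_psi (hi : Indep D b) (hp : ∀ n, ∀ i < D.r n, F.p n i ≠ 0)
    {D0 : Diag} (hD0 : D0.OK) (F0 : Fam D0 𝒜) (hp0 : ∀ n, ∀ i < D0.r n, F0.p n i ≠ 0)
    (ψ : ℕ → ℕ → V) (hψ : Compat D0 ψ)
    (c1 : ∀ n, ∀ i < D0.r n, ψ n i ≠ 0 ∧ (∃ m, ConeAt D b m (ψ n i)) ∧
      ∃ m, ConeAt D b m (b 0 0 - ψ n i)) :
    ∃ φ : F0.alg hD0 →⋆ₙₐ[ℂ] F.alg hD, Function.Injective φ := by
  have ex : ∀ n i, ∃ q : 𝒜, i < D0.r n → ∃ m, F.DCAt b m q (ψ n i) := by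
    intro n i
    by_cases h : i < D0.r n
    · obtain ⟨-, ⟨m, a1⟩, m', a2⟩ := c1 n i h
      obtain ⟨m, q, hq⟩ := F.DC_exists b hD hb hi a1 a2
      exact ⟨q, fun _ => ⟨m, hq⟩⟩
    · exact ⟨0, fun h' => absurd h' h⟩
  choose q hq using ex
  have ex2 : ∀ n i, ∃ w : Ed → 𝒜, (∀ e, w e ∈ F.inf hD) ∧ (i < D0.r n →
      (∀ e ∈ D0.edges n i, ∀ e' ∈ D0.edges n i,
        star (w e) * w e' = if e = e' then q (n + 1) e.1 else 0) ∧
      ∑ e ∈ D0.edges n i, w e * star (w e) = q n i) := by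
    intro n i
    by_cases h : i < D0.r n
    swap
    · exact ⟨0, fun _ => zero_mem _, fun h' => absurd h' h⟩
    obtain ⟨m0, a0⟩ := hq n i h
    have ex3 : ∀ j, ∃ m, j < D0.r (n + 1) → F.DCAt b m (q (n + 1) j) (ψ (n + 1) j) := by
      intro j
      by_cases hj : j < D0.r (n + 1)
      · obtain ⟨m, a⟩ := hq (n + 1) j hj
        exact ⟨m, fun _ => a⟩
      · exact ⟨0, fun h' => absurd h' hj⟩
    choose mm hm using ex3
    let m := max m0 ((range (D0.r (n + 1))).sup mm)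
    obtain ⟨w, a1, a2, a3⟩ := F.DC_split b hD hi (m := m) (D0.edges n i) (p := q n i)
      (q := fun e => q (n + 1) e.1) (g := fun e => ψ (n + 1) e.1)
      (by
        rw [Diag.sum_edges n i (ψ (n + 1)), ← hψ n i h]
        exact F.DCAt_up b hD hb (le_max_left _ _) a0)
      (fun e he => by
        have hj := (D0.mem_edges.1 he).1
        exact F.DCAt_up b hD hb ((Finset.le_sup (f := mm) (mem_range.2 hj)).trans
          (le_max_right _ _)) (hm _ hj))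
    exact ⟨w, fun e => ⟨m, a1 e⟩, fun _ => ⟨a2, a3⟩⟩
  choose w hw1 hw2 using ex2
  let F' : Fam D0 𝒜 := ⟨q, w, fun n i h => by
      obtain ⟨m, a⟩ := hq n i h
      exact (F.DC_proj b hD a).1, fun n i h => (hw2 n i h).1, fun n i h => (hw2 n i h).2⟩
  have hu : ∀ μ, F'.u μ ∈ F.inf hD := by
    intro μ
    induction μ with
    | nil =>
      obtain ⟨m, a⟩ := hq 0 0 (hD0.1 0)
      exact ⟨m, (F.DC_proj b hD a).2⟩
    | cons e μ ih => exact mul_mem ih (hw1 _ _ _)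
  refine F0.exists_hom F' hD0 hp0 (fun n i h => ?_) _ ?_
  · obtain ⟨m, a⟩ := hq n i h
    exact F.DC_ne b hD hp a (c1 n i h).1
  · refine NonUnitalStarSubalgebra.topologicalClosure_minimal _ ?_ inferInstance
    rintro a ⟨n, ha⟩
    refine F'.sp_induction (P := fun a => a ∈ F.alg hD) ha ?_ (zero_mem _) (fun _ _ => add_mem)
      (fun c _ h => SMulMemClass.smul_mem c h)
    intro μ _ ν _ _
    exact subset_closure (s := (F.inf hD : Set 𝒜)) (mul_mem (hu μ) (star_mem (hu ν)))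

end Fam

end Pool.Agent.H491Z.AF
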