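import Pool.Agent.H491Z.AFTrace

namespace Pool.Agent.H491Z.AF

open Finset
open scoped InnerProductSpace ComplexOrder

lemma inner_mat {k : ℕ} (m : Mat k) (x y : EuclideanSpace ℂ (Fin k)) :
    ⟪x, m y⟫_ℂ = ∑ i, ∑ j, (starRingEnd ℂ) (x i) * y j *
      ⟪EuclideanSpace.single i (1 : ℂ), m (EuclideanSpace.single j (1 : ℂ))⟫_ℂ := by
  have hx : ∀ x : EuclideanSpace ℂ (Fin k), x = ∑ i, x i • EuclideanSpace.single i (1 : ℂ) := by
    intro x
    conv_lhs => rw [← (EuclideanSpace.basisFun (Fin k) ℂ).sum_repr x]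
    simp
  conv_lhs => rw [hx x, hx y]
  simp only [map_sum, map_smul, sum_inner, inner_sum, inner_smul_left, inner_smul_right,
    Finset.mul_sum]
  rw [Finset.sum_comm]
  refine Finset.sum_congr rfl fun i _ => Finset.sum_congr rfl fun j _ => ?_
  ring

lemma exists_V {k : ℕ} (v : Fin k → H) (hv : Orthonormal ℂ v) :
    ∃ W : EuclideanSpace ℂ (Fin k) →L[ℂ] H, ‖W‖ ≤ 1 ∧
      ∀ i, W (EuclideanSpace.single i (1 : ℂ)) = v i := by
  let b := (EuclideanSpace.basisFun (Fin k) ℂ).toBasis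
  let f : EuclideanSpace ℂ (Fin k) →ₗ[ℂ] H := b.constr ℂ v
  have h1 : f ∘ b = v := by funext i; simp [f]
  let g := f.isometryOfOrthonormal (v := b) (by
    simpa [b] using (EuclideanSpace.basisFun (Fin k) ℂ).orthonormal) (by rwa [h1])
  refine ⟨g.toContinuousLinearMap, g.norm_toContinuousLinearMap_le, fun i => ?_⟩
  have := congrFun h1 i
  change f _ = _
  simpa [b] using this

lemma hasSum_aux {k : ℕ} (c : Fin k → Fin k → ℂ) (x y : Fin k → H) :
    HasSum (fun t : ℕ => ∑ i, ∑ j, c i j * ⟪(x i) t, (y j) t⟫_ℂ)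
      (∑ i, ∑ j, c i j * ⟪x i, y j⟫_ℂ) := by
  refine hasSum_sum fun i _ => hasSum_sum fun j _ => ?_
  exact (lp.hasSum_inner (𝕜 := ℂ) (x i) (y j)).mul_left (c i j)

namespace Fam

variable {D : Diag} (F : Fam D B) (hD : D.OK) (h1 : ∀ n i, F.p n i = 1)

noncomputable def psi {k : ℕ} (σ : Fin k → List Ed) : Mat k →ₗ[ℂ] B where
  toFun m := ∑ i, ∑ j, (if en (σ i) = en (σ j) then
    ⟪EuclideanSpace.single i (1 : ℂ), m (EuclideanSpace.single j (1 : ℂ))⟫_ℂ else 0) •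
      F.E (σ i) (σ j)
  map_add' m m' := by
    rw [← Finset.sum_add_distrib]
    refine Finset.sum_congr rfl fun i _ => ?_
    rw [← Finset.sum_add_distrib]
    refine Finset.sum_congr rfl fun j _ => ?_
    rw [← add_smul]
    split_ifs
    · rw [ContinuousLinearMap.add_apply, inner_add_right]
    · rw [add_zero]
  map_smul' c m := by
    rw [Finset.smul_sum]
    refine Finset.sum_congr rfl fun i _ => ?_
    rw [Finset.smul_sum]
    refine Finset.sum_congr rfl fun j _ => ?_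
    rw [smul_smul]
    split_ifs
    · rw [ContinuousLinearMap.smul_apply, inner_smul_right]; rfl
    · rw [mul_zero]

lemma psi_apply {k : ℕ} (σ : Fin k → List Ed) (m : Mat k) : F.psi σ m =
    ∑ i, ∑ j, (if en (σ i) = en (σ j) then
    ⟪EuclideanSpace.single i (1 : ℂ), m (EuclideanSpace.single j (1 : ℂ))⟫_ℂ else 0) •
      F.E (σ i) (σ j) := rfl

noncomputable def WW {k : ℕ} (σ : Fin k → List Ed) (t l : ℕ) (η : H) :
    EuclideanSpace ℂ (Fin k) :=
  WithLp.toLp 2 fun j => if en (σ j) = l then (star (F.u (σ j)) η) t else 0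

lemma hasSum_psi {k R : ℕ} (σ : Fin k → List Ed) (hσ : ∀ i, en (σ i) < R) (m : Mat k) (η ζ : H) :
    HasSum (fun t => ∑ l ∈ range R, ⟪F.WW σ t l η, m (F.WW σ t l ζ)⟫_ℂ) ⟪η, F.psi σ m ζ⟫_ℂ := by
  have e1 : ⟪η, F.psi σ m ζ⟫_ℂ = ∑ i, ∑ j, (if en (σ i) = en (σ j) then
      ⟪EuclideanSpace.single i (1 : ℂ), m (EuclideanSpace.single j (1 : ℂ))⟫_ℂ else 0) *
        ⟪star (F.u (σ i)) η, star (F.u (σ j)) ζ⟫_ℂ := by
    rw [psi_apply, ContinuousLinearMap.sum_apply, inner_sum]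
    refine Finset.sum_congr rfl fun i _ => ?_
    rw [ContinuousLinearMap.sum_apply, inner_sum]
    refine Finset.sum_congr rfl fun j _ => ?_
    rw [ContinuousLinearMap.smul_apply, inner_smul_right, ContinuousLinearMap.star_eq_adjoint
      (F.u (σ i)), ContinuousLinearMap.adjoint_inner_left]
    rfl
  rw [e1]
  have e2 : ∀ t, ∑ l ∈ range R, ⟪F.WW σ t l η, m (F.WW σ t l ζ)⟫_ℂ =
      ∑ i, ∑ j, (if en (σ i) = en (σ j) then
      ⟪EuclideanSpace.single i (1 : ℂ), m (EuclideanSpace.single j (1 : ℂ))⟫_ℂ else 0) *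
        ⟪(star (F.u (σ i)) η) t, (star (F.u (σ j)) ζ) t⟫_ℂ := by
    intro t
    simp only [inner_mat m (F.WW σ t _ η)]
    rw [Finset.sum_comm]
    refine Finset.sum_congr rfl fun i _ => ?_
    rw [Finset.sum_comm]
    refine Finset.sum_congr rfl fun j _ => ?_
    rw [Finset.sum_eq_single_of_mem (en (σ i)) (mem_range.2 (hσ i))]
    · simp only [WW, if_true, RCLike.inner_apply]
      by_cases h : en (σ i) = en (σ j)
      · rw [if_pos h, if_pos h.symm]; ring
      · rw [if_neg h, if_neg (Ne.symm h)]; ring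
    · intro l _ hl
      simp only [WW, if_neg (Ne.symm hl), map_zero, zero_mul]
  simp only [e2]
  exact hasSum_aux _ (fun i => star (F.u (σ i)) η) (fun j => star (F.u (σ j)) ζ)

lemma psi_pos {k R : ℕ} (σ : Fin k → List Ed) (hσ : ∀ i, en (σ i) < R) {n : ℕ}
    (y : Fin n → Fin n → Mat k) (hy : PosMat y) : PosMat fun i j => F.psi σ (y i j) := by
  intro η
  have := hasSum_sum (s := univ) fun i _ => hasSum_sum (s := univ) fun j _ =>
    F.hasSum_psi σ hσ (y i j) (η i) (η j)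
  refine HasSum.nonneg (fun t => ?_) this
  have e : ∑ i, ∑ j, ∑ l ∈ range R, ⟪F.WW σ t l (η i), y i j (F.WW σ t l (η j))⟫_ℂ =
      ∑ l ∈ range R, ∑ i, ∑ j, ⟪F.WW σ t l (η i), y i j (F.WW σ t l (η j))⟫_ℂ := by
    rw [Finset.sum_comm (s := range R)]
    exact Finset.sum_congr rfl fun i _ => Finset.sum_comm
  rw [e]
  exact Finset.sum_nonneg fun l _ => hy _

lemma psi_norm {k R : ℕ} (σ : Fin k → List Ed) (hσ : ∀ i, en (σ i) < R)
    (h : F.psi σ 1 = 1) (m : Mat k) : ‖F.psi σ m‖ ≤ ‖m‖ := by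
  have a1 : ∀ η : H, HasSum (fun t => ∑ l ∈ range R, ‖F.WW σ t l η‖ ^ 2) (‖η‖ ^ 2) := by
    intro η
    have := Complex.hasSum_re (F.hasSum_psi σ hσ 1 η η)
    rw [h] at this
    simp only [ContinuousLinearMap.one_apply, Complex.re_sum, inner_self_eq_norm_sq_to_K] at this
    simpa [← Complex.ofReal_pow] using this
  have a2 : ∀ η ζ : H, ‖⟪η, F.psi σ m ζ⟫_ℂ‖ ≤ ‖m‖ / 2 * (‖η‖ ^ 2 + ‖ζ‖ ^ 2) := by
    intro η ζ
    refine HasSum.norm_le_of_bounded (F.hasSum_psi σ hσ m η ζ)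
      (((a1 η).add (a1 ζ)).mul_left (‖m‖ / 2)) fun t => ?_
    rw [← Finset.sum_add_distrib, Finset.mul_sum]
    refine (norm_sum_le _ _).trans (Finset.sum_le_sum fun l _ => ?_)
    have b1 := norm_inner_le_norm (𝕜 := ℂ) (F.WW σ t l η) (m (F.WW σ t l ζ))
    have b2 := m.le_opNorm (F.WW σ t l ζ)
    have b3 := norm_nonneg (F.WW σ t l η)
    have b4 := norm_nonneg m
    nlinarith [mul_le_mul_of_nonneg_left b2 b3,
      mul_nonneg b4 (sq_nonneg (‖F.WW σ t l η‖ - ‖F.WW σ t l ζ‖))]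
  refine ContinuousLinearMap.opNorm_le_bound _ (norm_nonneg _) fun ζ => ?_
  by_cases h0 : ‖F.psi σ m ζ‖ = 0
  · rw [h0]; positivity
  by_cases hz : ‖ζ‖ = 0
  · rw [norm_eq_zero.1 hz]; simp
  have p0 : 0 < ‖F.psi σ m ζ‖ := lt_of_le_of_ne (norm_nonneg _) (Ne.symm h0)
  have pz : 0 < ‖ζ‖ := lt_of_le_of_ne (norm_nonneg _) (Ne.symm hz)
  have := a2 (((‖ζ‖ / ‖F.psi σ m ζ‖ : ℝ) : ℂ) • F.psi σ m ζ) ζ
  rw [inner_smul_left, inner_self_eq_norm_sq_to_K, norm_smul, norm_mul] at this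
  simp only [Complex.conj_ofReal, Complex.norm_real, norm_div, norm_norm, norm_pow,
    Complex.coe_algebraMap] at this
  rw [div_mul_cancel₀ _ h0] at this
  have e : ‖ζ‖ / ‖F.psi σ m ζ‖ * ‖F.psi σ m ζ‖ ^ 2 = ‖ζ‖ * ‖F.psi σ m ζ‖ := by field_simp
  rw [e] at this
  nlinarith

include h1 in
theorem isNuclear : IsNuclear (F.alg hD) := by
  intro S ε hε
  obtain ⟨n, hn⟩ : ∃ n, ∀ a ∈ S, ∃ b ∈ F.sp n, ‖b - a.1‖ < ε / 2 := by
    choose nn hn using fun a : F.alg hD => F.approx hD a.2 (half_pos hε) 0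
    refine ⟨S.sup nn, fun a ha => ?_⟩
    obtain ⟨-, b, hb, h⟩ := hn a
    exact ⟨b, F.sp_mono hD (Finset.le_sup ha) hb, h⟩
  let θ := (D.paths n).equivFin.symm
  let σ : Fin (D.paths n).card → List Ed := fun i => (θ i).1
  have hσ : ∀ i, σ i ∈ D.paths n := fun i => (θ i).2
  have hσR : ∀ i, en (σ i) < D.r n := fun i => Diag.en_lt hD (hσ i)
  have sσ : ∀ G : List Ed → B, ∑ i, G (σ i) = ∑ μ ∈ D.paths n, G μ := fun G => by
    rw [← Finset.sum_coe_sort (D.paths n) G]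
    exact Equiv.sum_comp θ (fun x => G x.1)
  have adj : ∀ (μ ν : List Ed) (a : B), ⟪F.u μ (dl 0), a (F.u ν (dl 0))⟫_ℂ = F.co μ ν a := by
    intro μ ν a
    rw [co, om, ← ContinuousLinearMap.adjoint_inner_right, ContinuousLinearMap.star_eq_adjoint]
    rfl
  obtain ⟨W, hW, hW'⟩ := exists_V (fun i => F.u (σ i) (dl 0)) (by
    rw [orthonormal_iff_ite]
    intro i j
    have := adj (σ i) (σ j) 1
    rw [co, mul_one, F.star_u_mul hD (hσ i) (hσ j), h1] at this
    refine Eq.trans this ?_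
    by_cases h : i = j
    · subst h; simpa using om_smul_one 1
    · rw [if_neg h, if_neg (fun h' => h (θ.injective (Subtype.ext h')))]; simp [om])
  let φ0 : B →ₗ[ℂ] Mat (D.paths n).card :=
    { toFun := fun a => (ContinuousLinearMap.adjoint W).comp (a.comp W)
      map_add' := fun a b => by
        rw [ContinuousLinearMap.add_comp, ContinuousLinearMap.comp_add]
      map_smul' := fun c a => by
        rw [ContinuousLinearMap.smul_comp, ContinuousLinearMap.comp_smul]; rfl }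
  have φ0i : ∀ a x y, ⟪x, φ0 a y⟫_ℂ = ⟪W x, a (W y)⟫_ℂ := fun a x y =>
    ContinuousLinearMap.adjoint_inner_right W x (a (W y))
  have φ0n : ∀ a, ‖φ0 a‖ ≤ ‖a‖ := by
    intro a
    have b1 := ContinuousLinearMap.opNorm_comp_le (ContinuousLinearMap.adjoint W) (a.comp W)
    have b2 := ContinuousLinearMap.opNorm_comp_le a W
    rw [LinearIsometryEquiv.norm_map] at b1
    have b3 : ‖W‖ * ‖a.comp W‖ ≤ 1 * (‖a‖ * 1) := by
      gcongr
      exact b2.trans (by gcongr)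
    exact b1.trans (by linarith)
  have ψm : ∀ m, F.psi σ m ∈ F.sp n := by
    intro m
    rw [psi_apply]
    refine Submodule.sum_mem _ fun i _ => Submodule.sum_mem _ fun j _ => ?_
    split_ifs with h
    · exact Submodule.smul_mem _ _ (F.E_mem_sp (hσ i) (hσ j) h)
    · rw [zero_smul]; exact zero_mem _
  have ψφ : ∀ b ∈ F.sp n, F.psi σ (φ0 b) = b := by
    intro b hb
    have : b = (∑ ρ ∈ D.paths n, F.E ρ ρ) * b * (∑ ρ ∈ D.paths n, F.E ρ ρ) := by
      rw [F.sum_E hD n, h1, mul_one, one_mul]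
    conv_rhs => rw [this, ← sσ (fun ρ => F.E ρ ρ), Finset.sum_mul, Finset.sum_mul]
    rw [psi_apply]
    refine Finset.sum_congr rfl fun i _ => ?_
    rw [Finset.mul_sum]
    refine Finset.sum_congr rfl fun j _ => ?_
    have e : F.E (σ i) (σ i) * b * F.E (σ j) (σ j) =
        F.u (σ i) * (star (F.u (σ i)) * b * F.u (σ j)) * star (F.u (σ j)) := by
      simp only [E, mul_assoc]
    rw [e, (F.scal hD h1 hb (hσ i) (hσ j)).1, mul_smul_comm, smul_mul_assoc, mul_one, φ0i, hW',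
      hW', adj]
    split_ifs with h
    · rfl
    · rw [(F.scal hD h1 hb (hσ i) (hσ j)).2 h, zero_smul, zero_smul]
  have ψ1 : F.psi σ 1 = 1 := by
    rw [← h1 0 0, ← F.sum_E hD n, ← sσ (fun ρ => F.E ρ ρ), psi_apply]
    refine Finset.sum_congr rfl fun i _ => ?_
    rw [Finset.sum_eq_single i]
    · simp
    · intro j _ h
      have : ⟪EuclideanSpace.single i (1 : ℂ), (1 : Mat _) (EuclideanSpace.single j (1 : ℂ))⟫_ℂ
          = 0 := by
        simp [EuclideanSpace.inner_single_left, Ne.symm h]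
      rw [this]; simp
    · simp
  have ψn := F.psi_norm σ hσR ψ1
  refine ⟨_, φ0.comp (NonUnitalStarSubalgebraClass.subtype (F.alg hD) : F.alg hD →ₗ[ℂ] B),
    (F.psi σ).codRestrict (F.alg hD).toSubmodule (fun m => F.mem_alg_of_sp hD (ψm m)),
    fun a => φ0n a.1, ψn, fun m x hx ξ => ?_, fun m y hy => F.psi_pos σ hσR y hy, fun a ha => ?_⟩
  · have := hx fun i => W (ξ i)
    refine this.trans_eq (Finset.sum_congr rfl fun i _ => Finset.sum_congr rfl fun j _ => ?_)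
    exact (φ0i (x i j).1 (ξ i) (ξ j)).symm
  · obtain ⟨b, hb, h⟩ := hn a ha
    change ‖F.psi σ (φ0 a.1) - a.1‖ < ε
    have e : F.psi σ (φ0 a.1) - a.1 = (b - a.1) - F.psi σ (φ0 (b - a.1)) := by
      rw [map_sub, map_sub, ψφ b hb]; abel
    have := norm_sub_le (b - a.1) (F.psi σ (φ0 (b - a.1)))
    have := (ψn (φ0 (b - a.1))).trans (φ0n _)
    rw [e]; linarith

end Fam

end Pool.Agent.H491Z.AF
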