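import Pool.Agent.H491Z.AFTrace

namespace Pool.Agent.H491Z.AF

open Finset

section generic

variable {𝒜 : Type} [CStarAlgebra 𝒜]

lemma exists_inv_mem (S : NonUnitalStarSubalgebra ℂ 𝒜) (hS : IsClosed (S : Set 𝒜))
    (h1 : (1 : 𝒜) ∈ S) {t : 𝒜} (ht : t ∈ S) (hn : ‖t‖ < 1) : ∃ z ∈ S, (1 - t) * z = 1 := by
  refine ⟨∑' i : ℕ, t ^ i, tsum_mem hS fun i => ?_, mul_neg_geom_series t hn⟩
  induction i with
  | zero => simpa using h1
  | succ i ih => rw [pow_succ]; exact mul_mem ih ht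

lemma exists_cut (S : NonUnitalStarSubalgebra ℂ 𝒜) (hS : IsClosed (S : Set 𝒜)) {h a : 𝒜}
    (hh : IsSelfAdjoint h) (hn : ‖h‖ = 1) (ha : a ∈ S) (hd : ‖a - h‖ ≤ 1 / 10) :
    ∃ x ∈ S, ∃ y ∈ S, ∃ z ∈ S, y ≠ 0 ∧ y * z * x = y ∧ ‖z * (x - h)‖ < 1 := by
  set x : 𝒜 := (2⁻¹ : ℂ) • (a + star a) with hx
  have hxS : x ∈ S := SMulMemClass.smul_mem _ (add_mem ha (star_mem ha))
  have hsa : IsSelfAdjoint x := by
    rw [IsSelfAdjoint, hx, star_smul, star_add, star_star, add_comm]; simp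
  have hxe : ‖x - h‖ ≤ 1 / 10 := by
    have : x - h = (2⁻¹ : ℂ) • ((a - h) + star (a - h)) := by
      rw [hx, star_sub, hh.star_eq]
      module
    rw [this, norm_smul]
    have h2 := norm_add_le (a - h) (star (a - h))
    rw [norm_star] at h2
    simp only [norm_inv, Complex.norm_ofNat]
    linarith
  clear_value x
  let g : ℝ → ℝ := fun t => max 0 (|t| - 1 / 2)
  let k : ℝ → ℝ := fun t => t / max (t * t) (1 / 4)
  have pos : ∀ t : ℝ, 0 < max (t * t) (1 / 4) := fun t => lt_max_of_lt_right (by norm_num)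
  have hg : Continuous g := by fun_prop
  have hk : Continuous k := Continuous.div (by fun_prop) (by fun_prop) fun t => (pos t).ne'
  have g0 : g 0 = 0 := by norm_num [g]
  have k0 : k 0 = 0 := by simp [k]
  refine ⟨x, hxS, cfcₙ g x, cfcₙ_mem (𝕜' := ℂ) g hxS, cfcₙ k x, cfcₙ_mem (𝕜' := ℂ) k hxS,
    fun h0 => ?_, ?_, ?_⟩
  · have h2 : ‖x‖ ≤ 1 / 2 := by
      rw [← cfcₙ_id' ℝ x]
      refine norm_cfcₙ_le fun t ht => ?_
      have := norm_apply_le_norm_cfcₙ g x ht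
      rw [h0, norm_zero, norm_le_zero_iff] at this
      have h3 : |t| - 1 / 2 ≤ g t := le_max_right _ _
      rw [Real.norm_eq_abs]
      linarith
    have := norm_sub_le x (x - h)
    rw [sub_sub_cancel] at this
    linarith
  · have e1 : cfcₙ g x * cfcₙ k x * x = cfcₙ (fun t => g t * k t * t) x := by
      rw [cfcₙ_mul (fun t => g t * k t) (fun t => t) x (hf0 := by simp [g0]), cfcₙ_mul g k x,
        cfcₙ_id' ℝ x]
    rw [e1]
    refine cfcₙ_congr fun t _ => ?_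
    by_cases ht : |t| ≤ 1 / 2
    · have : g t = 0 := max_eq_left (by linarith)
      simp [this]
    · have h3 : 1 / 4 ≤ t * t := by
        rw [← abs_mul_abs_self]; nlinarith [abs_nonneg t]
      have h4 : t ≠ 0 := by rintro rfl; norm_num at h3
      simp only [k, max_eq_left h3]
      field_simp
  · have h2 : ‖cfcₙ k x‖ ≤ 2 := by
      refine norm_cfcₙ_le fun t _ => ?_
      simp only [k]
      rw [Real.norm_eq_abs, abs_div, abs_of_pos (pos t), div_le_iff₀ (pos t)]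
      have a1 := le_max_left (t * t) (1 / 4)
      have a2 := le_max_right (t * t) (1 / 4)
      have a3 := abs_mul_abs_self t
      nlinarith [sq_nonneg (|t| - 1 / 2), abs_nonneg t]
    have := norm_mul_le (cfcₙ k x) (x - h)
    nlinarith [norm_nonneg (x - h), norm_nonneg (cfcₙ k x)]

end generic

namespace Fam

variable {D : Diag} (F : Fam D B) (hD : D.OK)

theorem isAF : IsAF (F.alg hD) := by
  refine ⟨F.lev hD, F.lev_mono hD, F.finDim_lev hD, fun n a ha => F.mem_alg_of_sp hD ha, ?_⟩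
  refine closure_mono (s := (F.inf hD : Set B)) ?_
  rintro a ⟨n, ha⟩
  exact Set.mem_iUnion.2 ⟨n, ha⟩

variable (h1 : ∀ n i, F.p n i = 1)
include h1

theorem isSimple : IsSimple (F.alg hD) := by
  have one : (1 : B) ∈ F.alg hD := F.mem_alg_of_sp hD (F.one_mem_sp hD h1 0)
  refine ⟨⟨⟨⟨1, one⟩, 0, fun h => one_ne_zero_B (congrArg Subtype.val h)⟩⟩, fun J _ => ?_⟩
  by_cases hJ : J = ⊥
  · exact Or.inl hJ
  right
  let JJ : B → Prop := fun a => ∃ h : a ∈ F.alg hD, (⟨a, h⟩ : F.alg hD) ∈ J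
  have ml : ∀ a ∈ F.alg hD, ∀ c, JJ c → JJ (a * c) := by
    rintro a ha c ⟨hc, h⟩
    exact ⟨mul_mem ha hc, J.mul_mem_left ⟨a, ha⟩ _ h⟩
  have mr : ∀ a ∈ F.alg hD, ∀ c, JJ c → JJ (c * a) := by
    rintro a ha c ⟨hc, h⟩
    exact ⟨mul_mem hc ha, J.mul_mem_right _ ⟨a, ha⟩ h⟩
  have ad : ∀ a c, JJ a → JJ c → JJ (a + c) := by
    rintro a c ⟨ha, h⟩ ⟨hc, h'⟩
    exact ⟨add_mem ha hc, J.add_mem h h'⟩
  have sm : ∀ (t : ℂ) c, JJ c → JJ (t • c) := by
    intro t c h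
    have := ml (t • 1) (SMulMemClass.smul_mem t one) c h
    rwa [smul_mul_assoc, one_mul] at this
  obtain ⟨a, haJ, ha0⟩ : ∃ a ∈ J, a ≠ 0 := by
    by_contra hc
    push Not at hc
    exact hJ (eq_bot_iff.2 fun a ha => by rw [hc a ha]; exact zero_mem _)
  have n0 : ‖star a.1 * a.1‖ ≠ 0 := by
    rw [norm_ne_zero_iff]
    exact fun h => ha0 (Subtype.ext ((CStarRing.star_mul_self_eq_zero_iff a.1).1 h))
  obtain ⟨h, hh, hsa, hn⟩ : ∃ h : B, JJ h ∧ IsSelfAdjoint h ∧ ‖h‖ = 1 := by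
    refine ⟨((‖star a.1 * a.1‖⁻¹ : ℝ) : ℂ) • (star a.1 * a.1),
      sm _ _ (ml _ (star_mem a.2) _ ⟨a.2, haJ⟩), ?_, ?_⟩
    · rw [IsSelfAdjoint, star_smul, star_mul, star_star, Complex.star_def, Complex.conj_ofReal]
    · rw [norm_smul, Complex.norm_real, norm_inv, norm_norm, inv_mul_cancel₀ n0]
  obtain ⟨n, -, b, hb, hd⟩ := F.approx hD hh.1 (ε := 1 / 10) (by norm_num) 0
  obtain ⟨x, hx, y, hy, z, hz, y0, e1, e2⟩ := exists_cut (F.lev hD n) (F.closed_sp n) hsa hn hb hd.le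
  have al : ∀ {n a}, a ∈ F.sp n → a ∈ F.alg hD := fun h => F.mem_alg_of_sp hD h
  obtain ⟨v, hv, e3⟩ := exists_inv_mem (F.alg hD) inferInstance one
    (mul_mem (al hz) (sub_mem (al hx) hh.1)) e2
  have Jy : JJ y := by
    have : y = y * z * h * v := by
      have e4 : y * z * h = y * (1 - z * (x - h)) := by
        rw [mul_sub, mul_one, ← mul_assoc, mul_sub, e1]; abel
      rw [e4, mul_assoc, e3, mul_one]
    rw [this]
    exact mr _ hv _ (ml _ (mul_mem (al hy) (al hz)) _ hh)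
  obtain ⟨μ, hμ, ν, hν, e, c0⟩ : ∃ μ ∈ D.paths n, ∃ ν ∈ D.paths n, en μ = en ν ∧
      F.co μ ν y ≠ 0 := by
    by_contra hc
    push Not at hc
    exact y0 (F.eq_zero_of_co hD h1 hy hc)
  have JE : JJ (F.E μ μ) := by
    have e5 : F.E μ μ * y * F.E ν μ = F.co μ ν y • F.E μ μ := by
      have : F.E μ μ * y * F.E ν μ = F.u μ * (star (F.u μ) * y * F.u ν) * star (F.u μ) := by
        simp only [E, mul_assoc]
      rw [this, (F.scal hD h1 hy hμ hν).1, mul_smul_comm, smul_mul_assoc, mul_one, E]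
    have := sm (F.co μ ν y)⁻¹ _ (mr _ (al (F.E_mem_sp hν hμ e.symm)) _
      (ml _ (al (F.E_mem_sp hμ hμ rfl)) _ Jy))
    rwa [e5, smul_smul, inv_mul_cancel₀ c0, one_smul] at this
  have JE' : ∀ ρ ∈ D.paths (n + 1), JJ (F.E ρ ρ) := by
    intro ρ hρ
    have he : (⟨en ρ, 0⟩ : Ed) ∈ D.edges n (en μ) := D.mem_edges.2
      ⟨Diag.en_lt hD hρ, hD.2.2 n _ (Diag.en_lt hD hμ) _ (Diag.en_lt hD hρ)⟩
    have hm := D.cons_mem_paths.2 ⟨hμ, he⟩
    have e6 : F.E μ μ * F.E (⟨en ρ, 0⟩ :: μ) ρ = F.E (⟨en ρ, 0⟩ :: μ) ρ := by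
      rw [F.E_succ hD hμ hμ rfl, Finset.sum_mul, Finset.sum_eq_single_of_mem _ he]
      · rw [F.E_mul_E hD _ hm hm hm rfl, if_pos rfl]
      · intro e' he' hne
        have hm' := D.cons_mem_paths.2 ⟨hμ, he'⟩
        rw [F.E_mul_E hD _ hm' hm' hm rfl, if_neg (fun h => hne (List.cons.inj h).1)]
    have := ml _ (al (F.E_mem_sp hρ hm rfl)) _ (mr _ (al (F.E_mem_sp hm hρ rfl)) _ JE)
    rwa [e6, F.E_mul_E hD _ hρ hm hm rfl, if_pos rfl] at this
  have J1 : JJ 1 := by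
    rw [← h1 0 0, ← F.sum_E hD (n + 1)]
    exact Finset.sum_induction _ JJ ad ⟨zero_mem _, J.zero_mem⟩ JE'
  rw [eq_top_iff]
  intro c _
  obtain ⟨_, h⟩ := mr c.1 c.2 1 J1
  simpa using h

end Fam

end Pool.Agent.H491Z.AF
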