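import Mathlib

namespace Pool.Agent.H491Z.AF

open Finset

abbrev Nd : Type := List (List ℕ × List Bool) × List Bool

abbrev VV : Type := Nd →₀ ℚ

def trunc {α : Type} (n : ℕ) (z : ℕ → α) : List α := (List.range n).map z

@[simp] lemma length_trunc {α : Type} (n : ℕ) (z : ℕ → α) : (trunc n z).length = n := by
  simp [trunc]

lemma dropLast_trunc {α : Type} (n : ℕ) (z : ℕ → α) : (trunc n z).dropLast = trunc (n - 1) z := by
  rcases n with _ | n
  · simp [trunc]
  · simp [trunc, List.range_succ]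

lemma trunc_eq_iff {α : Type} {n : ℕ} {z z' : ℕ → α} :
    trunc n z = trunc n z' ↔ ∀ i < n, z i = z' i := by
  simp [trunc, List.map_inj_left]

lemma exists_trunc {α : Type} [Inhabited α] (l : ℕ → List α) (h1 : ∀ n, (l n).length = n)
    (h2 : ∀ n, (l (n + 1)).dropLast = l n) : ∃ z : ℕ → α, ∀ n, l n = trunc n z := by
  refine ⟨fun i => (l (i + 1)).getLastD default, fun n => ?_⟩
  induction n with
  | zero => simpa [trunc] using List.length_eq_zero_iff.1 (h1 0)
  | succ n ih =>
    have hne : l (n + 1) ≠ [] := by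
      intro h; have := h1 (n + 1); rw [h] at this; simp at this
    rw [trunc, List.range_succ, List.map_append, ← trunc, ← ih, ← h2 n]
    conv_lhs => rw [← List.dropLast_append_getLast hne]
    simp [List.getLastD_eq_getLast?, List.getLast?_eq_some_getLast hne]

abbrev Hm : Type := (ℕ → ℕ) → (ℕ → Bool) × (ℕ → Bool)

def S0 (h : Hm) (u v : List Bool) (t : List ℕ) : Prop :=
  ∃ n α, t = trunc n α ∧ u = trunc n (h α).1 ∧ v = trunc n (h α).2

def top : List (List ℕ × List Bool) → List Bool → List Bool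
  | [], u => u
  | p :: _, _ => p.2

def valid (h : Hm) : List (List ℕ × List Bool) → List Bool → Prop
  | [], _ => True
  | p :: l, u => S0 h (top l u) p.2 p.1 ∧ valid h l u

def TT (h : Hm) (x : ℕ → Bool) : Set Nd :=
  {w | valid h w.1 w.2 ∧ top w.1 w.2 = trunc w.2.length x}

def par (w : Nd) : Nd := (w.1.map fun p => (p.1.dropLast, p.2.dropLast), w.2.dropLast)

lemma branch_aux (h : Hm) (hc : Continuous h) (x : ℕ → Bool) (m : ℕ) :
    ∀ l : ℕ → List (List ℕ × List Bool), (∀ n, (l n).length = m) →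
      (∀ n, (l (n + 1)).map (fun p => (p.1.dropLast, p.2.dropLast)) = l n) →
      (∀ n, valid h (l n) (trunc n x)) → ∃ z, (∀ n, top (l n) (trunc n x) = trunc n z) ∧
        Relation.ReflTransGen (fun a b => (a, b) ∈ Set.range h) x z := by
  induction m with
  | zero =>
    intro l h1 _ _
    exact ⟨x, fun n => by rw [List.length_eq_zero_iff.1 (h1 n)]; rfl, .refl⟩
  | succ m ih =>
    intro l h1 h2 h3
    have ex : ∀ n, ∃ p t, l n = p :: t := fun n => List.exists_cons_of_length_eq_add_one (h1 n)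
    choose p t hl using ex
    have c2 : ∀ n, ((p (n + 1)).1.dropLast, (p (n + 1)).2.dropLast) = p n ∧
        (t (n + 1)).map (fun p => (p.1.dropLast, p.2.dropLast)) = t n := by
      intro n
      have := h2 n
      rw [hl, hl, List.map_cons] at this
      exact List.cons.inj this
    have c3 : ∀ n, S0 h (top (t n) (trunc n x)) (p n).2 (p n).1 ∧ valid h (t n) (trunc n x) := by
      intro n
      have := h3 n
      rwa [hl] at this
    obtain ⟨z', hz', hr⟩ := ih t (fun n => by have := h1 n; rw [hl] at this; simpa using this)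
      (fun n => (c2 n).2) (fun n => (c3 n).2)
    have c4 : ∀ n, ∃ α, (p n).1 = trunc n α ∧ trunc n z' = trunc n (h α).1 ∧
        (p n).2 = trunc n (h α).2 := by
      intro n
      obtain ⟨k, α, a1, a2, a3⟩ := (c3 n).1
      rw [hz'] at a2
      obtain rfl : n = k := by simpa using congrArg List.length a2
      exact ⟨α, a1, a2, a3⟩
    choose α b1 b2 b3 using c4
    obtain ⟨β, hβ⟩ := exists_trunc (fun n => (p n).1) (fun n => by rw [b1]; simp)
      (fun n => congrArg Prod.fst (c2 n).1)
    obtain ⟨z, hz⟩ := exists_trunc (fun n => (p n).2) (fun n => by rw [b3]; simp)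
      (fun n => congrArg Prod.snd (c2 n).1)
    refine ⟨z, fun n => by rw [hl]; exact hz n, hr.tail ⟨β, ?_⟩⟩
    have lim : ∀ {γ : Type} [TopologicalSpace γ] (a : ℕ → ℕ → γ) (b : ℕ → γ),
        (∀ n, trunc n (a n) = trunc n b) → Filter.Tendsto a Filter.atTop (nhds b) := by
      intro γ _ a b hab
      rw [tendsto_pi_nhds]
      intro i
      refine tendsto_const_nhds.congr' ?_
      filter_upwards [Filter.eventually_gt_atTop i] with n hn
      exact (trunc_eq_iff.1 (hab n) i hn).symm
    have t1 := (hc.tendsto β).comp (lim α β fun n => (b1 n).symm.trans (hβ n))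
    have t2 := (lim (fun n => (h (α n)).1) z' fun n => (b2 n).symm).prodMk_nhds
      (lim (fun n => (h (α n)).2) z fun n => (b3 n).symm.trans (hz n))
    exact tendsto_nhds_unique t1 t2

lemma branch (h : Hm) (hc : Continuous h) (x y : ℕ → Bool) (w : ℕ → Nd)
    (h1 : ∀ n, w n ∈ TT h y) (h2 : ∀ n, (w n).2 = trunc n x) (h3 : ∀ n, par (w (n + 1)) = w n) :
    Relation.ReflTransGen (fun a b => (a, b) ∈ Set.range h) x y := by
  have len : ∀ n, (w n).1.length = (w 0).1.length := by
    intro n
    induction n with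
    | zero => rfl
    | succ n ih => rw [← ih, ← h3 n]; simp [par]
  obtain ⟨z, hz, hr⟩ := branch_aux h hc x _ (fun n => (w n).1) len
    (fun n => congrArg Prod.fst (h3 n)) (fun n => by have := (h1 n).1; rwa [h2] at this)
  have : z = y := by
    funext i
    have := (h1 (i + 1)).2
    rw [h2, hz, length_trunc] at this
    exact trunc_eq_iff.1 this i (by omega)
  exact this ▸ hr

noncomputable def pr (c : List Bool ⊕ List Bool) : ℕ :=
  Nat.nth Nat.Prime (Encodable.encode c + 1)

lemma pr_prime (c : List Bool ⊕ List Bool) : (pr c).Prime := Nat.prime_nth_prime _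

lemma pr_inj : Function.Injective pr := fun _ _ h =>
  Encodable.encode_injective (Nat.succ_injective (Nat.nth_injective Nat.infinite_setOf_prime h))

lemma pr_ne_two (c : List Bool ⊕ List Bool) : pr c ≠ 2 := fun h => by
  rw [← Nat.nth_prime_zero_eq_two] at h
  exact absurd (Nat.nth_injective Nat.infinite_setOf_prime h) (by omega)

noncomputable def vec : Nd ⊕ Nd → VV
  | .inl w => Finsupp.single w 1
  | .inr w => Finsupp.single w 1 + Finsupp.single (par w) 1

def lab : Nd ⊕ Nd → List Bool ⊕ List Bool := Sum.map Prod.snd Prod.snd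

noncomputable def gen (p : (Nd ⊕ Nd) × ℕ) : VV := ((2 * pr (lab p.1) : ℚ) ^ p.2)⁻¹ • vec p.1

def ok (T : Set Nd) : Nd ⊕ Nd → Prop
  | .inl w => w ∈ T
  | .inr w => w ∈ T ∧ w.2 ≠ []

noncomputable def GG (T : Set Nd) : Submodule ℤ VV := Submodule.span ℤ (gen '' {p | ok T p.1})

noncomputable def ell (ω : Nd → ℤ) : VV →ₗ[ℚ] ℚ := Finsupp.linearCombination ℚ fun w => (ω w : ℚ)

lemma ell_single (ω : Nd → ℤ) (w : Nd) : ell ω (Finsupp.single w 1) = ω w := by simp [ell]

noncomputable def ss : VV →ₗ[ℚ] ℚ := ell fun _ => 1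

lemma gen_mem {T : Set Nd} {j : Nd ⊕ Nd} (h : ok T j) (k : ℕ) : gen (j, k) ∈ GG T :=
  Submodule.subset_span ⟨(j, k), h, rfl⟩

lemma vec_mem {T : Set Nd} {j : Nd ⊕ Nd} (h : ok T j) : vec j ∈ GG T := by
  simpa [gen] using gen_mem h 0

lemma GG_half (T : Set Nd) : ∀ v ∈ GG T, (2 : ℚ)⁻¹ • v ∈ GG T := by
  intro v hv
  induction hv using Submodule.span_induction with
  | mem x hx =>
    obtain ⟨⟨j, k⟩, hj, rfl⟩ := hx
    have : (2 : ℚ)⁻¹ • gen (j, k) = pr (lab j) • gen (j, k + 1) := by
      have := (pr_prime (lab j)).ne_zero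
      rw [gen, gen, ← Nat.cast_smul_eq_nsmul ℚ, smul_smul, smul_smul]
      congr 1
      field_simp
      ring
    rw [this]
    exact nsmul_mem (gen_mem hj _) _
  | zero => simp
  | add x y _ _ h1 h2 => rw [smul_add]; exact add_mem h1 h2
  | smul c x _ h => rw [smul_comm]; exact Submodule.smul_mem _ _ h

lemma div_zero {T : Set Nd} (ω : Nd → ℤ) (c : List Bool ⊕ List Bool)
    (h : ∀ j, ok T j → lab j = c → ell ω (vec j) = 0) {g : VV}
    (hg : ∀ k : ℕ, ((pr c : ℚ) ^ k)⁻¹ • g ∈ GG T) : ell ω g = 0 := by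
  have : Fact (pr c).Prime := ⟨pr_prime c⟩
  have h1 : ∀ v ∈ GG T, padicNorm (pr c) (ell ω v) ≤ 1 := by
    intro v hv
    induction hv using Submodule.span_induction with
    | mem x hx =>
      obtain ⟨⟨j, k⟩, hj, rfl⟩ := hx
      by_cases hl : lab j = c
      · simp [gen, h j hj hl]
      · have : Fact (pr (lab j)).Prime := ⟨pr_prime _⟩
        obtain ⟨z, hz⟩ : ∃ z : ℤ, ell ω (vec j) = z := by
          rcases j with w | w
          · exact ⟨_, ell_single ω w⟩
          · exact ⟨ω w + ω (par w), by simp [vec, ell_single]⟩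
        have e1 : padicNorm (pr c) (pr (lab j)) = 1 :=
          padicNorm.padicNorm_of_prime_of_ne fun h => hl (pr_inj h).symm
        have e2 : padicNorm (pr c) 2 = 1 := by
          exact_mod_cast padicNorm.padicNorm_of_prime_of_ne (q := 2) (pr_ne_two c)
        rw [gen, map_smul, hz, smul_eq_mul, padicNorm.mul, inv_eq_one_div, padicNorm.div,
          IsAbsoluteValue.abv_pow (padicNorm (pr c)), padicNorm.mul, e1, e2]
        simpa using padicNorm.of_int z
    | zero => simp
    | add x y _ _ h1 h2 => rw [map_add]; exact padicNorm.nonarchimedean.trans (max_le h1 h2)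
    | smul c x _ h =>
      rw [map_zsmul, zsmul_eq_mul, padicNorm.mul]
      exact mul_le_one₀ (padicNorm.of_int c) (padicNorm.nonneg _) h
  by_contra h0
  have p0 : 0 < padicNorm (pr c) (ell ω g) :=
    lt_of_le_of_ne (padicNorm.nonneg _) (padicNorm.nonzero h0).symm
  have p1 : (1 : ℚ) < pr c := by exact_mod_cast (pr_prime c).one_lt
  obtain ⟨k, hk⟩ := pow_unbounded_of_one_lt (padicNorm (pr c) (ell ω g))⁻¹ p1
  have := h1 _ (hg k)
  rw [map_smul, smul_eq_mul, padicNorm.mul, inv_eq_one_div, padicNorm.div,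
    IsAbsoluteValue.abv_pow (padicNorm (pr c)), padicNorm.padicNorm_p_of_prime] at this
  simp only [padicNorm.one, inv_pow, one_div, inv_inv] at this
  rw [inv_lt_iff_one_lt_mul₀ p0] at hk
  linarith

lemma exists_branch {P : ℕ → Nd → Prop} (h0 : ∃ w, P 0 w)
    (hs : ∀ n w, P n w → ∃ w', P (n + 1) w' ∧ par w' = w) :
    ∃ w : ℕ → Nd, (∀ n, P n (w n)) ∧ ∀ n, par (w (n + 1)) = w n := by
  choose f h1 h2 using hs
  obtain ⟨w0, h0⟩ := h0
  let w : (n : ℕ) → {w // P n w} := fun n => Nat.rec ⟨w0, h0⟩ (fun n w => ⟨f n w.1 w.2, h1 _ _ _⟩) n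
  exact ⟨fun n => (w n).1, fun n => (w n).2, fun n => h2 _ _ (w n).2⟩

lemma triv_mem (h : Hm) (x : ℕ → Bool) (n : ℕ) : (([], trunc n x) : Nd) ∈ TT h x :=
  ⟨trivial, by simp [top]⟩

theorem rel_of_map (h : Hm) (hc : Continuous h) (x y : ℕ → Bool) (φ : GG (TT h x) →+ VV)
    (h1 : ∀ g, φ g ∈ GG (TT h y)) (h2 : ∀ g : GG (TT h x), 0 < ss g → φ g ≠ 0) :
    Relation.ReflTransGen (fun a b => (a, b) ∈ Set.range h) x y := by
  classical
  have dv : ∀ j (hj : ok (TT h x) j) (k : ℕ),
      ((pr (lab j) : ℚ) ^ k)⁻¹ • φ ⟨vec j, vec_mem hj⟩ ∈ GG (TT h y) := by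
    intro j hj k
    have p0 : (pr (lab j) : ℚ) ≠ 0 := by exact_mod_cast (pr_prime _).ne_zero
    have : (⟨vec j, vec_mem hj⟩ : GG (TT h x)) =
        (pr (lab j) ^ k) • (2 ^ k) • ⟨gen (j, k), gen_mem hj k⟩ := by
      apply Subtype.ext
      change vec j = (pr (lab j) ^ k) • (2 ^ k) • gen (j, k)
      rw [gen, ← Nat.cast_smul_eq_nsmul ℚ, ← Nat.cast_smul_eq_nsmul ℚ, smul_smul, smul_smul]
      push_cast
      rw [mul_pow, mul_comm ((2 : ℚ) ^ k), mul_inv_cancel₀ (by positivity), one_smul]
    rw [this, map_nsmul, ← Nat.cast_smul_eq_nsmul ℚ, smul_smul]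
    push_cast
    rw [inv_mul_cancel₀ (by positivity), one_smul]
    exact h1 _
  let a : ℕ → VV := fun n => φ ⟨vec (.inl ([], trunc n x)), vec_mem (j := .inl _) (triv_mem h x n)⟩
  have supp : ∀ n w, a n w ≠ 0 → w ∈ TT h y ∧ w.2 = trunc n x := by
    intro n w
    contrapose
    intro hw
    have := div_zero (T := TT h y) (fun w' => if w' = w then 1 else 0) (.inl (trunc n x)) (by
      rintro (w' | w') a1 a2
      · rw [vec, ell_single, if_neg, Int.cast_zero]
        rintro rfl
        exact hw ⟨a1, Sum.inl.inj a2⟩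
      · cases a2) (dv (.inl ([], trunc n x)) (triv_mem h x n))
    rw [ell, Finsupp.linearCombination_apply, Finsupp.sum_eq_single w (by simp +contextual)
      (by simp)] at this
    simpa using this
  obtain ⟨w, a1, a2⟩ := exists_branch (P := fun n w => a n w ≠ 0) (by
      by_contra hc
      push Not at hc
      exact h2 _ (by simp [vec, ss, ell_single]) (Finsupp.ext hc)) (by
      intro n w hw
      by_contra hc
      push Not at hc
      have wl := (supp n w hw).2
      have ne : trunc (n + 1) x ≠ [] := fun h => by simpa using congrArg List.length h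
      have ne2 : trunc n x ≠ trunc (n + 1) x := fun h => by simpa using congrArg List.length h
      let ω : Nd → ℤ := fun w' => (if w' = w then 1 else 0) -
        (if par w' = w ∧ w'.2 = trunc (n + 1) x then 1 else 0)
      have e0 := div_zero (T := TT h y) ω (.inr (trunc (n + 1) x)) (by
        rintro (w' | w') _ a2
        · cases a2
        · have a3 : w'.2 = trunc (n + 1) x := Sum.inr.inj a2
          have a4 : (par w').2 ≠ trunc (n + 1) x := by
            rw [par, a3, dropLast_trunc]; exact ne2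
          have a5 : w' ≠ w := by rintro rfl; exact ne2 (wl.symm.trans a3)
          simp [vec, ell_single, ω, a3, a4, a5])
        (dv (.inr ([], trunc (n + 1) x)) ⟨triv_mem h x _, ne⟩)
      have e1 : φ ⟨vec (.inr ([], trunc (n + 1) x)),
          vec_mem (j := .inr _) ⟨triv_mem h x _, ne⟩⟩ = a (n + 1) + a n := by
        rw [← map_add]
        congr 1
        apply Subtype.ext
        simp [vec, par, dropLast_trunc]
      have e2 : ell ω (a (n + 1)) = 0 := by
        rw [ell, Finsupp.linearCombination_apply, Finsupp.sum]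
        refine Finset.sum_eq_zero fun w' hw' => ?_
        have b1 := Finsupp.mem_support_iff.1 hw'
        have b2 : w' ≠ w := by rintro rfl; exact ne2 (wl.symm.trans (supp _ _ b1).2)
        simp [ω, b2, hc w' b1]
      have e3 : ell ω (a n) = a n w := by
        rw [ell, Finsupp.linearCombination_apply, Finsupp.sum_eq_single w]
        · simp [ω, wl, ne2]
        · intro w' b1 b2
          simp [ω, b2, (supp _ _ b1).2, ne2]
        · simp
      rw [e1, map_add, e2, e3, zero_add] at e0
      exact hw e0)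
  exact branch h hc x y w (fun n => (supp n _ (a1 n)).1) (fun n => (supp n _ (a1 n)).2) a2

theorem map_of_rel (h : Hm) (β : ℕ → ℕ) : ∃ Λ : VV →ₗ[ℚ] VV,
    (∀ v ∈ GG (TT h (h β).1), Λ v ∈ GG (TT h (h β).2)) ∧ ∀ v, ss (Λ v) = ss v := by
  let Ψ : Nd → Nd := fun w => ((trunc w.2.length β, trunc w.2.length (h β).2) :: w.1, w.2)
  have Ψ1 : ∀ w ∈ TT h (h β).1, Ψ w ∈ TT h (h β).2 := fun w hw =>
    ⟨⟨⟨_, β, rfl, hw.2, rfl⟩, hw.1⟩, rfl⟩
  have Ψ2 : ∀ w, par (Ψ w) = Ψ (par w) := fun w => by simp [Ψ, par, dropLast_trunc]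
  refine ⟨Finsupp.lmapDomain ℚ ℚ Ψ, fun v hv => ?_, fun v => ?_⟩
  · induction hv using Submodule.span_induction with
    | mem x hx =>
      obtain ⟨⟨j, k⟩, hj, rfl⟩ := hx
      have : Finsupp.lmapDomain ℚ ℚ Ψ (gen (j, k)) = gen (Sum.map Ψ Ψ j, k) := by
        rw [gen, gen, map_smul]
        rcases j with w | w
        · simp [vec, lab, Ψ]
        · simp only [vec, lab, Sum.map_inr, map_add, Finsupp.lmapDomain_apply,
            Finsupp.mapDomain_single, Ψ2]
          rfl
      rw [this]
      refine gen_mem ?_ k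
      rcases j with w | w
      · exact Ψ1 w hj
      · exact ⟨Ψ1 w hj.1, hj.2⟩
    | zero => simp
    | add x y _ _ h1 h2 => rw [map_add]; exact add_mem h1 h2
    | smul c x _ h => rw [map_zsmul]; exact Submodule.smul_mem _ _ h
  · rw [ss, ell, Finsupp.lmapDomain_apply, Finsupp.linearCombination_mapDomain]
    rfl

end Pool.Agent.H491Z.AF
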