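import Pool.Agent.H491Z.AFGroup
import Pool.Agent.H491Z.AFTree
import Pool.Agent.H491Z.AFSimple
import Pool.Agent.H491Z.AFNuc

namespace Pool.Agent.H491Z.AF

open Finset

noncomputable def uu (D : Diag) : List Ed → B
  | [] => 1
  | e :: μ => uu D μ * cuntz (D.edges μ.length (en μ)) e

lemma can_u (D : Diag) (hD : D.OK) : ∀ μ, (can D hD).u μ = uu D μ
  | [] => rfl
  | e :: μ => by rw [Fam.u, can_u D hD μ]; rfl

noncomputable def gn (D : Diag) (q : List Ed × List Ed) : B :=
  if q ∈ D.pairs q.1.length then uu D q.1 * star (uu D q.2) else 0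

noncomputable def code (dec : ℕ → List Ed × List Ed) (D : Diag) : Gamma :=
  fun n => ContinuousLinearMapWOT.ofCLM (gn D (dec n))

lemma cstar_code {dec : ℕ → List Ed × List Ed} (hd : Function.Surjective dec) (D : Diag)
    (hD : D.OK) : Cstar (code dec D) = (can D hD).alg hD := by
  have : NonUnitalStarAlgebra.adjoin ℂ (Set.range fun n => (code dec D n).toCLM) =
      (can D hD).inf hD := by
    apply le_antisymm
    · refine NonUnitalStarAlgebra.adjoin_le ?_
      rintro _ ⟨n, rfl⟩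
      change gn D (dec n) ∈ (can D hD).inf hD
      unfold gn
      split_ifs with h
      · obtain ⟨h1, h2, h3⟩ := Diag.mem_pairs.1 h
        rw [← can_u D hD, ← can_u D hD]
        exact ⟨_, (can D hD).E_mem_sp h1 h2 h3⟩
      · exact zero_mem _
    · rintro a ⟨n, ha⟩
      refine (can D hD).sp_induction (P := fun a => a ∈ NonUnitalStarAlgebra.adjoin ℂ
        (Set.range fun n => (code dec D n).toCLM)) ha ?_ (zero_mem _) (fun _ _ => add_mem)
        (fun c _ h => SMulMemClass.smul_mem c h)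
      intro μ hμ ν hν h
      obtain ⟨k, hk⟩ := hd (μ, ν)
      refine NonUnitalStarAlgebra.subset_adjoin ℂ _ ⟨k, ?_⟩
      change gn D (dec k) = _
      rw [hk, gn, if_pos (by
        rw [Diag.length_of_mem hμ]; exact Diag.mem_pairs.2 ⟨hμ, hν, h⟩), Fam.E, can_u, can_u]
  rw [Cstar, this, Fam.alg]

section CM

variable {X : Type} [MeasurableSpace X] {Y Z : Type}

def CM (F : X → Y) : Prop := (Set.range F).Countable ∧ ∀ y, MeasurableSet (F ⁻¹' {y})

lemma CM.pre {F : X → Y} (h : CM F) (t : Set Y) : MeasurableSet (F ⁻¹' t) := by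
  have : F ⁻¹' t = ⋃ y ∈ Set.range F ∩ t, F ⁻¹' {y} := by
    ext x; simp
  rw [this]
  exact MeasurableSet.biUnion (h.1.mono Set.inter_subset_left) fun y _ => h.2 y

lemma CM.comp {F : X → Y} (h : CM F) (g : Y → Z) : CM fun x => g (F x) :=
  ⟨(h.1.image g).mono (by rintro _ ⟨x, rfl⟩; exact ⟨_, ⟨x, rfl⟩, rfl⟩),
    fun z => h.pre (g ⁻¹' {z})⟩

lemma CM.pair {F : X → Y} {F' : X → Z} (h : CM F) (h' : CM F') : CM fun x => (F x, F' x) :=
  ⟨(h.1.prod h'.1).mono (by rintro _ ⟨x, rfl⟩; exact ⟨⟨x, rfl⟩, ⟨x, rfl⟩⟩), fun p => by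
    have : (fun x => (F x, F' x)) ⁻¹' {p} = F ⁻¹' {p.1} ∩ F' ⁻¹' {p.2} := by
      ext x; simp [Prod.ext_iff]
    rw [this]; exact (h.2 _).inter (h'.2 _)⟩

lemma CM.const (y : Y) : CM fun _ : X => y :=
  ⟨(Set.countable_singleton y).mono (by rintro _ ⟨x, rfl⟩; rfl),
    fun _ => MeasurableSet.const _⟩

lemma CM.prop {P : X → Prop} (h : MeasurableSet {x | P x}) : CM P :=
  ⟨Set.to_countable _, fun p => by
    by_cases hp : p
    · have : P ⁻¹' {p} = {x | P x} := by ext x; simp [hp]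
      rwa [this]
    · have : P ⁻¹' {p} = {x | P x}ᶜ := by ext x; simp [hp]
      rw [this]; exact h.compl⟩

variable {V : Type} [AddCommGroup V] [Module ℚ V] (s : V →ₗ[ℚ] ℚ) (en' : ℕ → V) (g0 : V)
  (G : X → Submodule ℤ V) (hG : ∀ g, MeasurableSet {x | g ∈ G x})
include hG

open Classical in
lemma cm_LL : ∀ n, CM fun x => LL s en' g0 (G x) n
  | 0 => CM.const _
  | n + 1 => ((cm_LL n).pair (CM.prop (hG (en' n)))).comp
      fun p => step s (p.1 ++ if p.2 ∧ 0 < s (en' n) then [en' n] else [])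

lemma cm_edges (n : ℕ) : CM fun x => (diag s en' g0 (G x)).edges n :=
  ((cm_LL s en' g0 G hG n).pair (cm_LL s en' g0 G hG (n + 1))).comp
    fun p i => (range p.2.length).sigma fun j => range (mult (p.1.getD i 0) p.2 j)

lemma cm_paths : ∀ n, CM fun x => (diag s en' g0 (G x)).paths n
  | 0 => CM.const _
  | n + 1 => ((cm_paths n).pair (cm_edges s en' g0 G hG n)).comp
      fun p => p.1.biUnion fun μ => (p.2 (en μ)).image fun e => e :: μ

lemma cm_uu : ∀ μ, CM fun x => uu (diag s en' g0 (G x)) μ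
  | [] => CM.const _
  | e :: μ => ((cm_uu μ).pair (cm_edges s en' g0 G hG μ.length)).comp
      fun p => p.1 * cuntz (p.2 (en μ)) e

lemma cm_gn (q : List Ed × List Ed) : CM fun x => gn (diag s en' g0 (G x)) q :=
  ((cm_paths s en' g0 G hG q.1.length).pair
    ((cm_uu s en' g0 G hG q.1).pair (cm_uu s en' g0 G hG q.2))).comp
    fun p => if q ∈ (p.1 ×ˢ p.1).filter (fun q => en q.1 = en q.2) then p.2.1 * star p.2.2 else 0

lemma measurable_code (dec : ℕ → List Ed × List Ed) :
    Measurable fun x => code dec (diag s en' g0 (G x)) := by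
  refine (@measurable_pi_iff X ℕ (fun _ => H →WOT[ℂ] H) _ (fun _ => borel (H →WOT[ℂ] H)) _).2
    fun n t _ => ?_
  exact ((cm_gn s en' g0 G hG (dec n)).comp ContinuousLinearMapWOT.ofCLM).pre t

end CM

lemma meas_GG {X : Type} [MeasurableSpace X] (h : Hm) {ι : X → ℕ → Bool} (hι : Measurable ι)
    (g : VV) : MeasurableSet {x | g ∈ GG (TT h (ι x))} := by
  have c1 : ∀ n, CM fun x => trunc n (ι x) := by
    intro n
    induction n with
    | zero => exact CM.const _
    | succ n ih =>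
      have c0 : CM fun x => ι x n :=
        ⟨Set.to_countable _, fun b => (measurable_pi_apply n).comp hι (measurableSet_singleton b)⟩
      simpa [trunc, List.range_succ] using (ih.pair c0).comp fun p => p.1 ++ [p.2]
  have c2 : ∀ w, MeasurableSet {x | w ∈ TT h (ι x)} := fun w =>
    (c1 w.2.length).pre {u | valid h w.1 w.2 ∧ top w.1 w.2 = u}
  have c3 : ∀ j, MeasurableSet {x | ok (TT h (ι x)) j} := by
    rintro (w | w)
    · exact c2 w
    · exact (c2 w).inter (MeasurableSet.const _)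
  have : {x | g ∈ GG (TT h (ι x))} = ⋃ l : ((Nd ⊕ Nd) × ℕ) →₀ ℤ,
      (⋂ p ∈ l.support, {x | ok (TT h (ι x)) p.1}) ∩
        {_x | Finsupp.linearCombination ℤ gen l = g} := by
    ext x
    simp only [GG, Finsupp.mem_span_image_iff_linearCombination, Finsupp.mem_supported,
      Set.mem_setOf_eq, Set.mem_iUnion, Set.mem_inter_iff, Set.mem_iInter]
    exact Iff.rfl
  rw [this]
  exact MeasurableSet.iUnion fun l =>
    (Finset.measurableSet_biInter _ fun p _ => c3 p.1).inter (MeasurableSet.const _)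

theorem main (X : Type) [TopologicalSpace X] [PolishSpace X] [MeasurableSpace X] [BorelSpace X]
    (R : X → X → Prop) (hr : ∀ x, R x x) (ht : ∀ x y z, R x y → R y z → R x z)
    (hA : MeasureTheory.AnalyticSet {p : X × X | R p.1 p.2}) :
    ∃ f : X → Gamma, Measurable f ∧
      (∀ x, IsSimple (Cstar (f x)) ∧ IsNuclear (Cstar (f x)) ∧ IsAF (Cstar (f x))) ∧
      ∀ x y, R x y ↔ Embeds (Cstar (f x)) (Cstar (f y)) := by
  rcases isEmpty_or_nonempty X with hX | ⟨⟨x0⟩⟩
  · exact ⟨isEmptyElim, measurable_of_empty _, isEmptyElim, isEmptyElim⟩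
  obtain ⟨ι, hι, ιinj⟩ := MeasurableSpace.measurable_injection_nat_bool_of_countablySeparated X
  obtain ⟨h, hc, hh⟩ : ∃ h : Hm, Continuous h ∧
      Set.range h = Prod.map ι ι '' {p : X × X | R p.1 p.2} := by
    rw [MeasureTheory.AnalyticSet] at hA
    rcases hA with hA | ⟨g, gc, hg⟩
    · exact absurd hA (Set.Nonempty.ne_empty ⟨(x0, x0), hr x0⟩)
    have := MeasurableSet.univ.analyticSet_image ((hι.prodMap hι).comp gc.measurable)
    rw [Set.image_univ, Set.range_comp, hg, MeasureTheory.AnalyticSet] at this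
    exact this.resolve_left (Set.Nonempty.ne_empty ⟨_, (x0, x0), hr x0, rfl⟩)
  obtain ⟨en', hen⟩ := exists_surjective_nat VV
  obtain ⟨dec, hdec⟩ := exists_surjective_nat (List Ed × List Ed)
  have adm : ∀ z, Adm ss en' (vec (.inl ([], []))) (GG (TT h z)) := fun z =>
    ⟨vec_mem (j := .inl _) (triv_mem h z 0), by simp [vec, ss, ell_single], GG_half _, hen⟩
  refine ⟨fun x => code dec (diag ss en' (vec (.inl ([], []))) (GG (TT h (ι x)))),
    measurable_code _ _ _ _ (meas_GG h hι) dec, fun x => ?_, fun x y => ?_⟩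
  · dsimp only
    rw [cstar_code hdec _ (adm (ι x)).ok]
    exact ⟨Fam.isSimple _ _ (fun _ _ => rfl), Fam.isNuclear _ _ (fun _ _ => rfl), Fam.isAF _ _⟩
  · dsimp only
    rw [cstar_code hdec _ (adm (ι x)).ok, cstar_code hdec _ (adm (ι y)).ok]
    constructor
    · intro hxy
      obtain ⟨β, hβ⟩ : (ι x, ι y) ∈ Set.range h := hh ▸ ⟨(x, y), hxy, rfl⟩
      obtain ⟨Λ, h1, h2⟩ := map_of_rel h β
      rw [hβ] at h1
      exact (adm (ι x)).embeds_of_map (adm (ι y)) Λ h1 h2
    · intro he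
      obtain ⟨φ, h1, h2⟩ := (adm (ι x)).map_of_embeds (adm (ι y)) he
      have := rel_of_map h hc (ι x) (ι y) φ h1 h2
      have key : ∀ z, Relation.ReflTransGen (fun a b => (a, b) ∈ Set.range h) (ι x) z →
          ∃ y', z = ι y' ∧ R x y' := by
        intro z hz
        induction hz with
        | refl => exact ⟨x, rfl, hr x⟩
        | tail _ h2 ih =>
          obtain ⟨y', rfl, h3⟩ := ih
          rw [hh] at h2
          obtain ⟨⟨a, b⟩, h4, h5⟩ := h2
          obtain ⟨h6, h7⟩ := Prod.mk.inj h5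
          obtain rfl : a = y' := ιinj h6
          exact ⟨b, h7.symm, ht _ _ _ h3 h4⟩
      obtain ⟨y', h3, h4⟩ := key _ this
      rwa [ιinj h3]

end Pool.Agent.H491Z.AF
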