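import Mathlib

namespace Pool.Agent.H491Z.AF

lemma exists_proj_near {𝒜 : Type} [CStarAlgebra 𝒜] (S : NonUnitalStarSubalgebra ℂ 𝒜)
    (hS : IsClosed (S : Set 𝒜)) {e a : 𝒜}
    (he : IsStarProjection e) (ha : a ∈ S) {ε : ℝ} (hε : ε ≤ 1 / 20) (h : ‖a - e‖ ≤ ε) :
    ∃ f ∈ S, IsStarProjection f ∧ ‖f - e‖ ≤ 7 * ε := by
  have hε0 : 0 ≤ ε := (norm_nonneg _).trans h
  set x : 𝒜 := (2⁻¹ : ℂ) • (a + star a) with hx
  have hxS : x ∈ S := SMulMemClass.smul_mem _ (add_mem ha (star_mem ha))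
  have hsa : IsSelfAdjoint x := by
    rw [IsSelfAdjoint, hx, star_smul, star_add, star_star, add_comm]; simp
  have hxe : ‖x - e‖ ≤ ε := by
    have : x - e = (2⁻¹ : ℂ) • ((a - e) + star (a - e)) := by
      rw [hx, star_sub, he.isSelfAdjoint.star_eq]
      module
    rw [this, norm_smul]
    have h2 := norm_add_le (a - e) (star (a - e))
    rw [norm_star] at h2
    simp only [norm_inv, Complex.norm_ofNat]
    linarith
  clear_value x
  have hne := he.norm_le
  have hnx : ‖x‖ ≤ 2 := by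
    have := norm_add_le (x - e) e
    simp only [sub_add_cancel] at this
    linarith
  have hq : ‖x * x - x‖ ≤ 4 * ε := by
    have e1 : x * x - x = x * (x - e) + (x - e) * e - (x - e) := by
      rw [mul_sub, sub_mul, he.isIdempotentElem.eq]; abel
    rw [e1]
    have h1 := norm_mul_le x (x - e)
    have h2 := norm_mul_le (x - e) e
    have h3 := norm_sub_le (x * (x - e) + (x - e) * e) (x - e)
    have h4 := norm_add_le (x * (x - e)) ((x - e) * e)
    have h5 := norm_nonneg (x - e)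
    nlinarith [norm_nonneg e, norm_nonneg x]
  have hspec : ∀ t ∈ quasispectrum ℝ x, |t * t - t| ≤ 4 * ε := by
    intro t ht
    have h1 := norm_apply_le_norm_cfcₙ (fun t : ℝ => t * t - t) x ht (by fun_prop) (by simp) hsa
    rw [cfcₙ_sub _ _ x, cfcₙ_mul _ _ x, cfcₙ_id' ℝ x] at h1
    exact h1.trans hq
  let χ : ℝ → ℝ := fun t => max 0 (min 1 (3 * t - 1))
  have hχc : Continuous χ := by fun_prop
  have hχ0 : χ 0 = 0 := by norm_num [χ]
  have hχ : ∀ t ∈ quasispectrum ℝ x, (χ t = 0 ∧ |t| ≤ 6 * ε) ∨ (χ t = 1 ∧ |1 - t| ≤ 6 * ε) := by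
    intro t ht
    have h1 := abs_le.1 (hspec t ht)
    by_cases h2 : t ≤ 1 / 3
    · left
      refine ⟨max_eq_left ((min_le_right _ _).trans (by linarith)), abs_le.2 ⟨?_, ?_⟩⟩ <;> nlinarith
    · by_cases h3 : 2 / 3 ≤ t
      · right
        refine ⟨?_, abs_le.2 ⟨?_, ?_⟩⟩
        · simp only [χ]; rw [min_eq_left (by linarith)]; norm_num
        · nlinarith
        · nlinarith
      · exfalso; nlinarith
  refine ⟨cfcₙ χ x, cfcₙ_mem (𝕜' := ℂ) χ hxS, ⟨?_, cfcₙ_predicate χ x⟩, ?_⟩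
  · rw [IsIdempotentElem, ← cfcₙ_mul χ χ x]
    refine cfcₙ_congr fun t ht => ?_
    rcases hχ t ht with h | h <;> simp [h.1]
  · have h1 : ‖cfcₙ χ x - x‖ ≤ 6 * ε := by
      have : cfcₙ χ x - x = cfcₙ (fun t => χ t - t) x := by
        rw [cfcₙ_sub _ _ x, cfcₙ_id' ℝ x]
      rw [this]
      refine norm_cfcₙ_le fun t ht => ?_
      rcases hχ t ht with h | h
      · simpa [h.1] using h.2
      · simpa [h.1] using h.2
    have := norm_add_le (cfcₙ χ x - x) (x - e)
    simp only [sub_add_sub_cancel] at this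
    linarith

end Pool.Agent.H491Z.AF
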