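import Pool.Agent.H491Z.AFHom
import Pool.Agent.H491Z.AFProj

namespace Pool.Agent.H491Z.AF

open Finset
open scoped InnerProductSpace

lemma idem_trace {ι : Type} [Fintype ι] [DecidableEq ι] (A : Matrix ι ι ℂ) (hA : A * A = A) :
    ∃ k : ℕ, A.trace = k ∧ (k = 0 → A = 0) := by
  have h1 : IsIdempotentElem (Matrix.toLin' A) := by
    rw [IsIdempotentElem, Module.End.mul_eq_comp, ← Matrix.toLin'_mul, hA]
  refine ⟨_, by rw [← Matrix.trace_toLin'_eq, (LinearMap.IsIdempotentElem.isProj_range _ h1).trace],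
    fun h => ?_⟩
  rw [Submodule.finrank_eq_zero, LinearMap.range_eq_bot] at h
  exact Matrix.toLin'.map_eq_zero_iff.1 h

noncomputable def om (a : B) : ℂ := ⟪dl 0, a (dl 0)⟫_ℂ

lemma om_smul_one (c : ℂ) : om (c • 1) = c := by
  have : (c • (1 : B)) (dl 0) = c • dl 0 := rfl
  rw [om, this, inner_smul_right, inner_dl]; simp

namespace Fam

variable {D : Diag} (F : Fam D B)

noncomputable def co (μ ν : List Ed) (a : B) : ℂ := om (star (F.u μ) * a * F.u ν)

lemma co_add (μ ν : List Ed) (a b : B) : F.co μ ν (a + b) = F.co μ ν a + F.co μ ν b := by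
  simp [co, om, mul_add, add_mul, inner_add_right]

lemma co_sub (μ ν : List Ed) (a b : B) : F.co μ ν (a - b) = F.co μ ν a - F.co μ ν b := by
  simp [co, om, mul_sub, sub_mul, inner_sub_right]

noncomputable def tr (n i : ℕ) (a : B) : ℂ :=
  ∑ μ ∈ (D.paths n).filter (fun μ => en μ = i), F.co μ μ a

lemma tr_add (n i : ℕ) (a b : B) : F.tr n i (a + b) = F.tr n i a + F.tr n i b := by
  simp [tr, co_add, Finset.sum_add_distrib]

lemma tr_sub (n i : ℕ) (a b : B) : F.tr n i (a - b) = F.tr n i a - F.tr n i b := by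
  simp [tr, co_sub, Finset.sum_sub_distrib]

lemma tr_zero (n i : ℕ) : F.tr n i 0 = 0 := by simp [tr, co, om]

variable (hD : D.OK) (h1 : ∀ n i, F.p n i = 1)
include hD h1

lemma scal {n : ℕ} {a : B} (ha : a ∈ F.sp n) {μ ν : List Ed} (hμ : μ ∈ D.paths n)
    (hν : ν ∈ D.paths n) : star (F.u μ) * a * F.u ν = F.co μ ν a • 1 ∧
      (en μ ≠ en ν → F.co μ ν a = 0) := by
  obtain ⟨c, rfl⟩ := F.exists_coeff ha
  unfold co
  rw [F.sandwich hD c hμ hν, h1]
  split_ifs with h
  · simp [om_smul_one, h]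
  · simp [om]

lemma one_mem_sp (n : ℕ) : (1 : B) ∈ F.sp n := by
  rw [← h1 0 0, ← F.sum_E hD n]
  exact Submodule.sum_mem _ fun μ h => F.E_mem_sp h h rfl

lemma co_mul {n : ℕ} {a b : B} (ha : a ∈ F.sp n) (hb : b ∈ F.sp n) {μ ν : List Ed}
    (hμ : μ ∈ D.paths n) (hν : ν ∈ D.paths n) : F.co μ ν (a * b) =
      ∑ ρ ∈ (D.paths n).filter (fun ρ => en ρ = en μ), F.co μ ρ a * F.co ρ ν b := by
  have e1 : star (F.u μ) * (a * b) * F.u ν =
      (∑ ρ ∈ D.paths n, F.co μ ρ a * F.co ρ ν b) • 1 := by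
    have : a * b = a * (∑ ρ ∈ D.paths n, F.E ρ ρ) * b := by rw [F.sum_E hD n, h1, mul_one]
    rw [this, Finset.mul_sum, Finset.sum_mul, Finset.mul_sum, Finset.sum_mul, Finset.sum_smul]
    refine Finset.sum_congr rfl fun ρ hρ => ?_
    have : star (F.u μ) * (a * F.E ρ ρ * b) * F.u ν =
        (star (F.u μ) * a * F.u ρ) * (star (F.u ρ) * b * F.u ν) := by
      simp only [E, mul_assoc]
    rw [this, (F.scal hD h1 ha hμ hρ).1, (F.scal hD h1 hb hρ hν).1]
    simp [smul_smul, mul_comm]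
  rw [co, e1, om_smul_one, Finset.sum_filter]
  refine Finset.sum_congr rfl fun ρ hρ => ?_
  split_ifs with h
  · rfl
  · rw [(F.scal hD h1 ha hμ hρ).2 (Ne.symm h), zero_mul]

lemma eq_zero_of_co {n : ℕ} {a : B} (ha : a ∈ F.sp n)
    (h : ∀ μ ∈ D.paths n, ∀ ν ∈ D.paths n, en μ = en ν → F.co μ ν a = 0) : a = 0 := by
  have : a = (∑ ρ ∈ D.paths n, F.E ρ ρ) * a * (∑ ρ ∈ D.paths n, F.E ρ ρ) := by
    rw [F.sum_E hD n, h1, mul_one, one_mul]
  rw [this, Finset.sum_mul, Finset.sum_mul]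
  refine Finset.sum_eq_zero fun μ hμ => ?_
  rw [Finset.mul_sum]
  refine Finset.sum_eq_zero fun ν hν => ?_
  have : F.E μ μ * a * F.E ν ν = F.u μ * (star (F.u μ) * a * F.u ν) * star (F.u ν) := by
    simp only [E, mul_assoc]
  rw [this, (F.scal hD h1 ha hμ hν).1]
  by_cases h2 : en μ = en ν
  · simp [h μ hμ ν hν h2]
  · simp [(F.scal hD h1 ha hμ hν).2 h2]

lemma tr_mul_comm {n : ℕ} (i : ℕ) {a b : B} (ha : a ∈ F.sp n) (hb : b ∈ F.sp n) :
    F.tr n i (a * b) = F.tr n i (b * a) := by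
  have : ∀ {a b : B}, a ∈ F.sp n → b ∈ F.sp n → F.tr n i (a * b) =
      ∑ μ ∈ (D.paths n).filter (fun μ => en μ = i), ∑ ρ ∈ (D.paths n).filter (fun μ => en μ = i),
        F.co μ ρ a * F.co ρ μ b := by
    intro a b ha hb
    refine Finset.sum_congr rfl fun μ hμ => ?_
    rw [mem_filter] at hμ
    rw [F.co_mul hD h1 ha hb hμ.1 hμ.1, hμ.2]
  rw [this ha hb, this hb ha, Finset.sum_comm]
  simp only [mul_comm]

lemma tr_idem {n : ℕ} (i : ℕ) {f : B} (hf : f ∈ F.sp n) (hi : f * f = f) :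
    ∃ k : ℕ, F.tr n i f = k ∧
      (k = 0 → ∀ μ ∈ D.paths n, ∀ ν ∈ D.paths n, en μ = i → en ν = i → F.co μ ν f = 0) := by
  let A : Matrix ((D.paths n).filter (fun μ => en μ = i)) ((D.paths n).filter (fun μ => en μ = i))
    ℂ := Matrix.of fun μ ν => F.co μ.1 ν.1 f
  have hA : A * A = A := by
    ext μ ν
    have hμ := mem_filter.1 μ.2
    have hν := mem_filter.1 ν.2
    rw [Matrix.mul_apply]
    simp only [A, Matrix.of_apply]
    rw [Finset.sum_coe_sort _ (fun ρ => F.co μ.1 ρ f * F.co ρ ν.1 f)]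
    conv_rhs => rw [← hi, F.co_mul hD h1 hf hf hμ.1 hν.1, hμ.2]
  obtain ⟨k, hk, hk0⟩ := idem_trace A hA
  refine ⟨k, ?_, fun h μ hμ ν hν e1 e2 => ?_⟩
  · rw [← hk, Matrix.trace, tr, ← Finset.sum_coe_sort]
    rfl
  · have := congrFun (congrFun (hk0 h) ⟨μ, mem_filter.2 ⟨hμ, e1⟩⟩) ⟨ν, mem_filter.2 ⟨hν, e2⟩⟩
    simpa [A] using this

lemma tr_succ {n : ℕ} (j : ℕ) (hj : j < D.r (n + 1)) {a : B} (ha : a ∈ F.sp n) :
    F.tr (n + 1) j a = ∑ i ∈ range (D.r n), D.M n i j * F.tr n i a := by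
  have e1 : ∀ μ ∈ D.paths n, ∀ e ∈ D.edges n (en μ), F.co (e :: μ) (e :: μ) a = F.co μ μ a := by
    intro μ hμ e he
    have : star (F.u (e :: μ)) * a * F.u (e :: μ) = star (F.w n (en μ) e) *
        (star (F.u μ) * a * F.u μ) * F.w n (en μ) e := by
      simp only [u, star_mul, Diag.length_of_mem hμ, mul_assoc]
    rw [co, this, (F.scal hD h1 ha hμ hμ).1, mul_smul_comm, smul_mul_assoc, mul_one,
      F.orth n _ (Diag.en_lt hD hμ) e he e he, if_pos rfl, h1, om_smul_one]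
  rw [tr, Finset.sum_filter, Diag.sum_paths_succ]
  have e2 : ∀ μ ∈ D.paths n, (∑ e ∈ D.edges n (en μ),
      if en (e :: μ) = j then F.co (e :: μ) (e :: μ) a else 0) = D.M n (en μ) j * F.co μ μ a := by
    intro μ hμ
    rw [Finset.sum_congr rfl (g := fun e => if e.1 = j then F.co μ μ a else 0)
      (fun e he => by rw [e1 μ hμ e he]; rfl),
      Diag.sum_edges n (en μ) (fun l => if l = j then F.co μ μ a else 0)]
    simp [hj]
  rw [Finset.sum_congr rfl e2]
  simp only [tr, Finset.mul_sum]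
  rw [← Finset.sum_fiberwise_of_maps_to (s := D.paths n) (t := range (D.r n)) (g := en)
    (fun μ hμ => mem_range.2 (Diag.en_lt hD hμ))]
  refine Finset.sum_congr rfl fun i _ => Finset.sum_congr rfl fun μ hμ => ?_
  rw [(mem_filter.1 hμ).2]

lemma tr_E {n : ℕ} (i : ℕ) {μ : List Ed} (hμ : μ ∈ D.paths n) :
    F.tr n i (F.E μ μ) = if en μ = i then 1 else 0 := by
  have : ∀ ν ∈ (D.paths n).filter (fun μ => en μ = i), F.co ν ν (F.E μ μ) =
      if ν = μ then 1 else 0 := by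
    intro ν hν
    have hν := (mem_filter.1 hν).1
    rw [co, mul_assoc, F.E_mul_u hD hμ hμ hν rfl]
    by_cases h : μ = ν
    · subst h
      rw [if_pos rfl, F.star_u_mul hD hμ hμ, if_pos rfl, h1, if_pos rfl]
      simpa using om_smul_one 1
    · rw [if_neg h, if_neg (Ne.symm h)]; simp [om]
  rw [tr, Finset.sum_congr rfl this, Finset.sum_ite_eq']
  simp [hμ]

lemma tr_le {n : ℕ} (i : ℕ) {f f' w : B} (hf : f ∈ F.sp n) (hf' : f' ∈ F.sp n) (hw : w ∈ F.sp n)
    (pf : IsStarProjection f) (pf' : IsStarProjection f')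
    (h : ‖star (f' * w * f) * (f' * w * f) - f‖ < 1) {k k' : ℕ} (hk : F.tr n i f = k)
    (hk' : F.tr n i f' = k') : k ≤ k' := by
  set z := f' * w * f with hz
  have mul : ∀ {a b : B}, a ∈ F.sp n → b ∈ F.sp n → a * b ∈ F.sp n :=
    fun ha hb => (F.lev hD n).mul_mem ha hb
  have hzm : z ∈ F.sp n := mul (mul hf' hw) hf
  have hzs : star z ∈ F.sp n := star_mem (s := F.lev hD n) hzm
  set v := star z * z + (1 - f) with hv
  have hvm : v ∈ F.sp n := add_mem (mul hzs hzm) (sub_mem (F.one_mem_sp hD h1 n) hf)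
  have hu : IsUnit v := by
    have : v = 1 - (f - star z * z) := by rw [hv]; abel
    rw [this]
    exact isUnit_one_sub_of_norm_lt_one (by rwa [norm_sub_rev])
  obtain ⟨y, hy, hvy⟩ : ∃ y ∈ F.sp n, v * y = 1 := by
    let L : F.sp n →ₗ[ℂ] F.sp n := (LinearMap.mulLeft ℂ v).restrict fun x hx => mul hvm hx
    have : Function.Injective L := by
      intro a b hab
      have : v * a.1 = v * b.1 := congrArg Subtype.val hab
      exact Subtype.ext (hu.mul_left_cancel this)
    obtain ⟨y, hy⟩ := LinearMap.injective_iff_surjective.1 this ⟨1, F.one_mem_sp hD h1 n⟩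
    exact ⟨y, y.2, congrArg Subtype.val hy⟩
  have hyv : y * v = 1 := by
    apply hu.mul_left_cancel
    rw [← mul_assoc, hvy, one_mul, mul_one]
  have zf : z * f = z := by rw [hz, mul_assoc, pf.isIdempotentElem.eq]
  have fz : f * star z = star z := by
    have := congrArg star zf
    rwa [star_mul, pf.isSelfAdjoint.star_eq] at this
  have f'z : f' * z = z := by
    rw [hz, ← mul_assoc, ← mul_assoc, pf'.isIdempotentElem.eq]
  have zf' : star z * f' = star z := by
    have := congrArg star f'z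
    rwa [star_mul, pf'.isSelfAdjoint.star_eq] at this
  have vf : v * f = star z * z := by
    rw [hv, add_mul, mul_assoc, zf, pf.one_sub_mul_self, add_zero]
  have fv : f * v = star z * z := by
    rw [hv, mul_add, ← mul_assoc, fz, pf.mul_one_sub_self, add_zero]
  have yzz : y * (star z * z) = f := by rw [← vf, ← mul_assoc, hyv, one_mul]
  set g := z * y * star z with hg
  have hgm : g ∈ F.sp n := mul (mul hzm hy) hzs
  have gg : g * g = g := by
    calc g * g = z * (y * (star z * z)) * y * star z := by simp only [hg, mul_assoc]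
      _ = g := by rw [yzz, zf]
  have f'g : f' * g = g := by rw [hg, ← mul_assoc, ← mul_assoc, f'z]
  have gf' : g * f' = g := by rw [hg, mul_assoc, zf']
  have trg : F.tr n i g = k := by
    rw [hg, mul_assoc, F.tr_mul_comm hD h1 i hzm (mul hy hzs), mul_assoc, yzz, hk]
  obtain ⟨l, hl, -⟩ := F.tr_idem hD h1 i (f := f' - g) (sub_mem hf' hgm) (by
    rw [mul_sub, sub_mul, sub_mul, pf'.isIdempotentElem.eq, f'g, gf', gg]; abel)
  rw [F.tr_sub, hk', trg] at hl
  have : (k' : ℂ) = ((k + l : ℕ) : ℂ) := by push_cast; linear_combination hl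
  have := Nat.cast_injective this
  omega

end Fam

end Pool.Agent.H491Z.AF
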