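import Pool.Agent.H491Z.SosDefs

namespace Pool.Agent.H491Z.Sos

open Finset MvPolynomial
open scoped Classical

variable {V E : Type} [Fintype E]

noncomputable def ind (X : Finset E) : E →₀ ℕ := ∑ g ∈ X, Finsupp.single g 1

omit [Fintype E] in
lemma ind_apply (X : Finset E) (g : E) : ind X g = if g ∈ X then 1 else 0 := by
  unfold ind
  rw [Finsupp.finsetSum_apply]
  simp [Finsupp.single_apply]

omit [Fintype E] in
lemma mon_eq (X : Finset E) : mon X = monomial (ind X) (1 : ℤ) := by
  unfold mon ind
  induction X using Finset.induction_on with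
  | empty => simp
  | insert a s ha ih =>
    rw [Finset.prod_insert ha, Finset.sum_insert ha, ih, MvPolynomial.X, monomial_mul]
    simp

noncomputable def poly (p : Finset E → ℤ) : MvPolynomial E ℤ := ∑ X, C (p X) * mon X

noncomputable def dd (e : E) (p : Finset E → ℤ) : Finset E → ℤ := fun X => if e ∈ X then 0 else p (insert e X)

omit [Fintype E] in
lemma pderiv_mon (e : E) (X : Finset E) :
    pderiv e (mon X) = if e ∈ X then mon (X.erase e) else 0 := by
  rw [mon_eq, pderiv_monomial]
  split_ifs with h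
  · rw [mon_eq]
    have : ind X - Finsupp.single e 1 = ind (X.erase e) := by
      ext g
      simp only [Finsupp.coe_tsub, Pi.sub_apply, ind_apply, Finsupp.single_apply, mem_erase]
      by_cases hg : e = g
      · subst hg; simp [h]
      · simp [hg, Ne.symm hg]
    rw [this]; simp [ind_apply, h]
  · simp [ind_apply, h]

lemma pderiv_poly (e : E) (p : Finset E → ℤ) : pderiv e (poly p) = poly (dd e p) := by
  unfold poly
  rw [map_sum]
  have h1 : ∀ X : Finset E, pderiv e (C (p X) * mon X) =
      if e ∈ X then C (p X) * mon (X.erase e) else 0 := by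
    intro X
    rw [pderiv_C_mul, pderiv_mon]
    split_ifs <;> simp
  have h2 : ∀ X : Finset E, C (dd e p X) * mon X =
      if e ∉ X then C (p (insert e X)) * mon X else 0 := by
    intro X
    unfold dd
    split_ifs <;> simp_all
  simp only [h1, h2]
  rw [← Finset.sum_filter, ← Finset.sum_filter]
  refine Finset.sum_nbij' (fun X => X.erase e) (fun X => insert e X) ?_ ?_ ?_ ?_ ?_
  · intro X hX; simp
  · intro X hX; simp
  · intro X hX; simp only [mem_filter, mem_univ, true_and] at hX; exact insert_erase hX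
  · intro X hX; simp only [mem_filter, mem_univ, true_and] at hX; exact erase_insert hX
  · intro X hX; simp only [mem_filter, mem_univ, true_and] at hX; rw [insert_erase hX]

omit [Fintype E] in
lemma ind_add_iff {K W : Finset E} (hKW : K ⊆ W) (X Y : Finset E) :
    ind X + ind Y = ind K + ind W ↔ (K ⊆ X ∧ X ⊆ W) ∧ Y = K ∪ (W \ X) := by
  constructor
  · intro h
    have h' : ∀ g, (if g ∈ X then 1 else 0) + (if g ∈ Y then 1 else 0) =
        (if g ∈ K then 1 else 0) + (if g ∈ W then 1 else 0 : ℕ) := by
      intro g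
      have := DFunLike.congr_fun h g
      simpa [ind_apply] using this
    refine ⟨⟨fun g hg => ?_, fun g hg => ?_⟩, ?_⟩
    · have h1 := h' g; have h2 := hKW hg
      by_contra hc
      simp only [hc, hg, h2, if_true, if_false] at h1
      split_ifs at h1 <;> omega
    · have := h' g; have := @hKW g
      by_contra hc; split_ifs at * <;> first | omega | tauto
    · ext g
      have := h' g; have := @hKW g
      simp only [mem_union, mem_sdiff]
      split_ifs at * <;> first | omega | tauto
  · rintro ⟨⟨h1, h2⟩, rfl⟩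
    ext g
    have := @h1 g; have := @h2 g; have := @hKW g
    simp only [Finsupp.coe_add, Pi.add_apply, ind_apply, mem_union, mem_sdiff]
    split_ifs <;> first | omega | tauto

lemma coeff_poly_mul {K W : Finset E} (hKW : K ⊆ W) (p q : Finset E → ℤ) :
    coeff (ind K + ind W) (poly p * poly q) =
      ∑ X, if K ⊆ X ∧ X ⊆ W then p X * q (K ∪ (W \ X)) else 0 := by
  unfold poly
  rw [Finset.sum_mul_sum, coeff_sum]
  refine Finset.sum_congr rfl fun X _ => ?_
  rw [coeff_sum]
  have : ∀ Y : Finset E, coeff (ind K + ind W) (C (p X) * mon X * (C (q Y) * mon Y)) =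
      if (K ⊆ X ∧ X ⊆ W) ∧ Y = K ∪ (W \ X) then p X * q Y else 0 := by
    intro Y
    rw [mon_eq, mon_eq, C_mul_monomial, C_mul_monomial, monomial_mul, coeff_monomial]
    simp only [ind_add_iff hKW, mul_one]
  simp only [this]
  by_cases h : K ⊆ X ∧ X ⊆ W
  · simp [h]
  · simp [h]

noncomputable def fo (src tgt : E → V) (X : Finset E) : ℤ := if IsForest src tgt X then 1 else 0

lemma forestPoly_eq (src tgt : E → V) : forestPoly src tgt = poly (fo src tgt) := by
  unfold forestPoly poly fo
  rw [Finset.sum_filter]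
  refine Finset.sum_congr rfl fun X _ => ?_
  split_ifs <;> simp

lemma coeff_rayleigh (src tgt : E → V) (e f : E) {K W : Finset E} (hKW : K ⊆ W) :
    coeff (ind K + ind W) (rayleigh (forestPoly src tgt) e f) =
      ∑ X, if K ⊆ X ∧ X ⊆ W then
        dd e (fo src tgt) X * dd f (fo src tgt) (K ∪ (W \ X)) -
          fo src tgt X * dd e (dd f (fo src tgt)) (K ∪ (W \ X)) else 0 := by
  unfold rayleigh
  rw [forestPoly_eq, pderiv_poly, pderiv_poly, pderiv_poly, coeff_sub, coeff_poly_mul hKW,
    coeff_poly_mul hKW, ← Finset.sum_sub_distrib]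
  refine Finset.sum_congr rfl fun X _ => ?_
  split_ifs <;> simp

/-- The pairs `(A, C)` that occur in the unicyclic reading. -/
def Good (src tgt : E → V) (e f : E) (p : Finset E × Finset E) : Prop :=
  IsForest src tgt p.1 ∧ e ∉ p.1 ∧ f ∉ p.1 ∧ IsCycle src tgt p.2 ∧ e ∈ p.2 ∧ f ∈ p.2 ∧
    p.2 ⊆ p.1 ∪ {e, f} ∧ ∀ C, IsCycle src tgt C → C ⊆ p.1 ∪ {e, f} → C = p.2

omit [Fintype E] in
lemma good_iff (src tgt : E → V) (e f : E) (S A C : Finset E) :
    (IsA src tgt true e f S A ∧ Through src tgt e f S A C) ↔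
      Good src tgt e f (A, C) ∧ S ⊆ C := by
  constructor
  · rintro ⟨⟨h1, h2, h3, _, h5⟩, h6, h7, h8⟩
    obtain ⟨C0, _, hu⟩ := h5 rfl
    refine ⟨⟨h1, h2, h3, h6, h7 (by simp), h7 (by simp), h8, fun C' a b => ?_⟩,
      fun g hg => h7 (by simp [hg])⟩
    rw [hu C' ⟨a, b⟩, hu C ⟨h6, h8⟩]
  · rintro ⟨⟨h1, h2, h3, h4, h5, h6, h7, h8⟩, h9⟩
    have hT : Through src tgt e f S A C := by
      refine ⟨h4, ?_, h7⟩
      intro g hg
      simp only [mem_union, mem_insert, mem_singleton] at hg
      rcases hg with hg | rfl | rfl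
      exacts [h9 hg, h5, h6]
    exact ⟨⟨h1, h2, h3, ⟨C, hT, fun C' h => h8 C' h.1 h.2.2⟩,
      fun _ => ⟨C, ⟨h4, h7⟩, fun C' h => h8 C' h.1 h.2⟩⟩, hT⟩

lemma inner_eq (src tgt : E → V) (e f : E) (S : Finset E) (F : Finset E → Finset E → MvPolynomial E ℤ) :
    (∑ A : Finset E with IsA src tgt true e f S A,
      ∑ C : Finset E with Through src tgt e f S A C, F A C) =
    ∑ p : Finset E × Finset E with Good src tgt e f p, if S ⊆ p.2 then F p.1 p.2 else 0 := by
  rw [Finset.sum_filter, Finset.sum_filter, Fintype.sum_prod_type]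
  refine Finset.sum_congr rfl fun A _ => ?_
  rw [Finset.sum_filter]
  by_cases hA : IsA src tgt true e f S A
  · rw [if_pos hA]
    refine Finset.sum_congr rfl fun C _ => ?_
    have := good_iff src tgt e f S A C
    by_cases h1 : Through src tgt e f S A C
    · have h := this.1 ⟨hA, h1⟩
      simp [h1, h.1, h.2]
    · rw [if_neg h1]
      by_cases h2 : Good src tgt e f (A, C)
      · by_cases h3 : S ⊆ C
        · exact absurd (this.2 ⟨h2, h3⟩).2 h1
        · simp [h3]
      · simp [h2]
  · rw [if_neg hA]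
    symm
    refine Finset.sum_eq_zero fun C _ => ?_
    have := good_iff src tgt e f S A C
    by_cases h2 : Good src tgt e f (A, C)
    · by_cases h3 : S ⊆ C
      · exact absurd (this.2 ⟨h2, h3⟩).1 hA
      · simp [h3]
    · simp [h2]

omit [Fintype E] in
lemma ind3_iff {K W S A B : Finset E} (hKW : K ⊆ W) (hA : S ⊆ A) (hB : S ⊆ B) :
    ind S + (ind (A \ S) + ind (B \ S)) = ind K + ind W ↔
      (A ∪ B = W ∧ K ⊆ A ∩ B) ∧ S = (A ∩ B) \ K := by
  constructor
  · intro h
    have h' : ∀ g, (if g ∈ S then 1 else 0) + ((if g ∈ A ∧ g ∉ S then 1 else 0) +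
        (if g ∈ B ∧ g ∉ S then 1 else 0)) =
        (if g ∈ K then 1 else 0) + (if g ∈ W then 1 else 0 : ℕ) := by
      intro g
      have := DFunLike.congr_fun h g
      simpa [ind_apply] using this
    refine ⟨⟨?_, fun g hg => ?_⟩, ?_⟩
    · ext g
      have := h' g; have := @hKW g; have := @hA g; have := @hB g
      simp only [mem_union]
      split_ifs at * <;> first | omega | tauto
    · have := h' g; have := @hKW g; have := @hA g; have := @hB g
      simp only [mem_inter]
      split_ifs at * <;> first | omega | tauto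
    · ext g
      have := h' g; have := @hKW g; have := @hA g; have := @hB g
      simp only [mem_inter, mem_sdiff]
      split_ifs at * <;> first | omega | tauto
  · rintro ⟨⟨rfl, h2⟩, rfl⟩
    ext g
    have := @h2 g
    simp only [Finsupp.coe_add, Pi.add_apply, ind_apply, mem_union, mem_sdiff, mem_inter] at *
    split_ifs <;> first | omega | tauto

lemma coeff_sos (src tgt : E → V) (e f : E) (c : Finset E → Finset E → ℤ) {K W : Finset E}
    (hKW : K ⊆ W) :
    coeff (ind K + ind W) (∑ S : Finset E with IsS src tgt e f S, mon S *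
        (∑ A : Finset E with IsA src tgt true e f S A,
          ∑ C : Finset E with Through src tgt e f S A C,
            MvPolynomial.C (c S C) * mon (A \ S)) ^ 2) =
      ∑ p : Finset E × Finset E with Good src tgt e f p,
        ∑ q : Finset E × Finset E with Good src tgt e f q,
          if p.1 ∪ q.1 = W ∧ K ⊆ p.1 ∩ q.1 ∧ (p.1 ∩ q.1) \ K ⊆ p.2 ∩ q.2 then
            c ((p.1 ∩ q.1) \ K) p.2 * c ((p.1 ∩ q.1) \ K) q.2 else 0 := by
  simp only [inner_eq, sq, Finset.sum_mul_sum]
  simp only [Finset.mul_sum, coeff_sum]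
  rw [Finset.sum_comm]
  refine Finset.sum_congr rfl fun p hp => ?_
  rw [Finset.sum_comm]
  refine Finset.sum_congr rfl fun q hq => ?_
  simp only [mem_filter, mem_univ, true_and] at hp hq
  have sub : ∀ r : Finset E × Finset E, Good src tgt e f r → ∀ S, IsS src tgt e f S → S ⊆ r.2 →
      S ⊆ r.1 := by
    intro r hr S hS h g hg
    have := hr.2.2.2.2.2.2.1 (h hg)
    simp only [mem_union, mem_insert, mem_singleton] at this
    rcases this with h | rfl | rfl
    · exact h
    · exact absurd hg hS.1
    · exact absurd hg hS.2.1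
  have term : ∀ S ∈ (univ.filter fun S => IsS src tgt e f S), coeff (ind K + ind W) (mon S *
      ((if S ⊆ p.2 then C (c S p.2) * mon (p.1 \ S) else 0) *
        (if S ⊆ q.2 then C (c S q.2) * mon (q.1 \ S) else 0))) =
      if S = (p.1 ∩ q.1) \ K then
        (if p.1 ∪ q.1 = W ∧ K ⊆ p.1 ∩ q.1 ∧ (p.1 ∩ q.1) \ K ⊆ p.2 ∩ q.2 then
            c ((p.1 ∩ q.1) \ K) p.2 * c ((p.1 ∩ q.1) \ K) q.2 else 0) else 0 := by
    intro S hS
    simp only [mem_filter, mem_univ, true_and] at hS
    by_cases h1 : S ⊆ p.2
    · by_cases h2 : S ⊆ q.2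
      · rw [if_pos h1, if_pos h2, mon_eq, mon_eq, mon_eq, C_mul_monomial, C_mul_monomial,
          monomial_mul, monomial_mul, coeff_monomial]
        simp only [ind3_iff hKW (sub p hp S hS h1) (sub q hq S hS h2)]
        by_cases h3 : S = (p.1 ∩ q.1) \ K
        · have h4 : (p.1 ∩ q.1) \ K ⊆ p.2 ∩ q.2 := h3 ▸ subset_inter h1 h2
          rw [if_pos h3, ← h3]
          simp [← h3, h1, h2, subset_inter h1 h2]
        · simp [h3]
      · rw [if_neg h2]
        split_ifs with h3 h4
        · exact absurd (h3 ▸ h4.2.2.trans inter_subset_right) h2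
        · simp
        · simp
    · rw [if_neg h1]
      split_ifs with h2 h3 h4 h3 h4
      · exact absurd (h3 ▸ h4.2.2.trans inter_subset_left) h1
      · simp
      · simp
      · exact absurd (h3 ▸ h4.2.2.trans inter_subset_left) h1
      · simp
      · simp
  rw [Finset.sum_congr rfl term, Finset.sum_ite_eq']
  split_ifs with h1 h2 h2
  · rfl
  · rfl
  · exfalso
    apply h1
    simp only [mem_filter, mem_univ, true_and]
    refine ⟨fun h => hp.2.1 ?_, fun h => hp.2.2.1 ?_, p.2, hp.2.2.2.1, ?_⟩
    · simp only [mem_sdiff, mem_inter] at h; exact h.1.1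
    · simp only [mem_sdiff, mem_inter] at h; exact h.1.1
    · intro g hg
      simp only [mem_union, mem_insert, mem_singleton] at hg
      rcases hg with hg | rfl | rfl
      · exact (mem_inter.1 (h2.2.2 hg)).1
      · exact hp.2.2.2.2.1
      · exact hp.2.2.2.2.2.1
  · rfl

end Pool.Agent.H491Z.Sos
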