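import Pool.Agent.H491Z.SosAlg

namespace Pool.Agent.H491Z.Sos

open Finset MvPolynomial
open scoped Classical

noncomputable def toSet (a : ℕ) : Finset (Fin 12) := univ.filter fun i => a.testBit i = true

lemma mem_toSet (a : ℕ) (i : Fin 12) : i ∈ toSet a ↔ a.testBit i = true := by simp [toSet]

lemma toSet_inj {a b : ℕ} (ha : a < 4096) (hb : b < 4096) : toSet a = toSet b ↔ a = b := by
  refine ⟨fun h => ?_, fun h => h ▸ rfl⟩
  apply Nat.eq_of_testBit_eq
  intro i
  by_cases hi : i < 12
  · have := Finset.ext_iff.1 h ⟨i, hi⟩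
    simp only [mem_toSet] at this
    exact Bool.eq_iff_iff.2 this
  · have h2 : (4096 : ℕ) ≤ 2 ^ i := by
      calc (4096 : ℕ) = 2 ^ 12 := by norm_num
        _ ≤ 2 ^ i := Nat.pow_le_pow_right (by norm_num) (by omega)
    rw [Nat.testBit_eq_false_of_lt (by omega), Nat.testBit_eq_false_of_lt (by omega)]

lemma toSet_surj (X : Finset (Fin 12)) : ∃ a < 4096, toSet a = X := by
  have : Function.Bijective (fun a : Fin 4096 => toSet a) := by
    rw [Fintype.bijective_iff_injective_and_card]
    refine ⟨fun a b h => Fin.ext ((toSet_inj a.2 b.2).1 h), ?_⟩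
    simp
  obtain ⟨a, ha⟩ := this.2 X
  exact ⟨a, a.2, ha⟩

lemma sum_toSet (F : Finset (Fin 12) → ℤ) :
    ∑ X, F X = ((List.range 4096).map fun a => F (toSet a)).sum := by
  rw [← List.sum_toFinset _ List.nodup_range]
  symm
  refine Finset.sum_bij (fun a _ => toSet a) (fun _ _ => mem_univ _) ?_ ?_ (fun _ _ => rfl)
  · intro a ha b hb h
    simp only [List.mem_toFinset, List.mem_range] at ha hb
    exact (toSet_inj ha hb).1 h
  · intro X _
    obtain ⟨a, ha, rfl⟩ := toSet_surj X
    exact ⟨a, by simpa using ha, rfl⟩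

lemma toSet_and {_i : DecidableEq (Fin 12)} (a b : ℕ) :
    toSet (a &&& b) = toSet a ∩ toSet b := by
  ext i; simp [mem_toSet]

lemma toSet_or {_i : DecidableEq (Fin 12)} (a b : ℕ) :
    toSet (a ||| b) = toSet a ∪ toSet b := by
  ext i; simp [mem_toSet]

lemma toSet_diff {_i : DecidableEq (Fin 12)} (a b : ℕ) :
    toSet (a &&& (4095 ^^^ b)) = toSet a \ toSet b := by
  ext i
  have : Nat.testBit 4095 i = true := by fin_cases i <;> decide
  simp [mem_toSet, this]

lemma toSet_subset {a : ℕ} (ha : a < 4096) (b : ℕ) : toSet a ⊆ toSet b ↔ a &&& b = a := by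
  rw [← toSet_inj (lt_of_le_of_lt Nat.and_le_left ha) ha, toSet_and (_i := inferInstance), Finset.inter_eq_left]

lemma toSet_one : toSet 1 = {0} := by
  ext i; fin_cases i <;> simp [mem_toSet] <;> decide

lemma toSet_64 : toSet 64 = {6} := by
  ext i; fin_cases i <;> simp [mem_toSet] <;> decide

lemma toSet_65 {_i : DecidableEq (Fin 12)} : toSet 65 = {0, 6} := by
  obtain rfl : _i = instDecidableEqFin 12 := Subsingleton.elim _ _
  ext i; fin_cases i <;> simp [mem_toSet] <;> decide

lemma toSet_zero : toSet 0 = ∅ := by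
  ext i; simp [mem_toSet]

def degB (a : ℕ) (v : Fin 8) : ℕ :=
  ((List.finRange 12).filter fun g : Fin 12 => a.testBit g && (cubeSrc g == v || cubeTgt g == v)).length

lemma deg_toSet (a : ℕ) (v : Fin 8) : deg cubeSrc cubeTgt (toSet a) v = degB a v := by
  unfold deg degB
  rw [← Finset.card_union_of_disjoint, ← List.toFinset_card_of_nodup
    ((List.nodup_finRange 12).filter _)]
  · congr 1
    ext g
    simp [mem_toSet, and_or_left]
  · rw [Finset.disjoint_left]
    intro g h1 h2
    simp only [mem_filter] at h1 h2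
    have : ∀ g, cubeSrc g ≠ cubeTgt g := by decide
    exact this g (h1.2.trans h2.2.symm)

def cycB (c : ℕ) : Bool :=
  c != 0 && ((List.finRange 8).all fun v => degB c v == 0 || degB c v == 2) &&
    (List.range 4096).all fun d => d &&& c != d || d == 0 || d == c ||
      (List.finRange 8).any fun v => degB d v != 0 && degB (c &&& (4095 ^^^ d)) v != 0

lemma isCycle_iff {c : ℕ} (hc : c < 4096) :
    IsCycle cubeSrc cubeTgt (toSet c) ↔ cycB c = true := by
  unfold IsCycle cycB
  simp only [Bool.and_eq_true, bne_iff_ne, ne_eq, List.all_eq_true, List.mem_finRange,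
    Bool.or_eq_true, beq_iff_eq, forall_const, List.mem_range, List.any_eq_true, true_and,
    and_assoc, deg_toSet]
  refine and_congr ?_ (and_congr Iff.rfl ?_)
  · rw [Finset.nonempty_iff_ne_empty, ← toSet_zero, ne_eq, toSet_inj hc (by norm_num)]
  · constructor
    · intro h d hd
      by_cases h1 : d &&& c = d
      · by_cases h2 : d = 0
        · simp [h2]
        · by_cases h3 : d = c
          · simp [h3]
          · right
            have := h (toSet d) ((toSet_subset hd c).2 h1)
              (by rw [Finset.nonempty_iff_ne_empty, ← toSet_zero, ne_eq,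
                toSet_inj hd (by norm_num)]; exact h2)
              (by rw [toSet_inj hd hc]; exact h3)
            rw [← toSet_diff] at this
            simpa only [deg_toSet] using this
      · simp [h1]
    · intro h D h1 h2 h3
      obtain ⟨d, hd, rfl⟩ := toSet_surj D
      rw [toSet_subset hd] at h1
      rw [Finset.nonempty_iff_ne_empty, ← toSet_zero, ne_eq, toSet_inj hd (by norm_num)] at h2
      rw [toSet_inj hd hc] at h3
      have := h d hd
      simp only [h1, h2, h3, not_true_eq_false, false_or] at this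
      rw [← toSet_diff]
      simpa only [deg_toSet] using this

def cycL : List ℕ := [43, 277, 318, 582, 621, 851, 888, 1176, 1203, 1421, 1446, 1781, 1995, 2016,
  2251, 2272, 2526, 2701, 2726, 2968, 2995, 3155, 3192, 3398, 3437, 3605, 3646, 3840]

lemma cyc_check : (List.range 4096).filter cycB = cycL := by decide +kernel

lemma isCycle_iff' {c : ℕ} (hc : c < 4096) :
    IsCycle cubeSrc cubeTgt (toSet c) ↔ c ∈ cycL := by
  rw [isCycle_iff hc, ← cyc_check]
  simp [hc]

lemma cycL_lt : ∀ c ∈ cycL, c < 4096 := by decide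

end Pool.Agent.H491Z.Sos
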