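import Pool.Agent.H491Z.SosBits

set_option maxRecDepth 20000
set_option linter.constructorNameAsVariable false

namespace Pool.Agent.H491Z.Sos

open Finset MvPolynomial
open scoped Classical

def forB (a : ℕ) : Bool := cycL.all fun c => c &&& a != c

lemma isForest_iff (a : ℕ) : IsForest cubeSrc cubeTgt (toSet a) ↔ forB a = true := by
  unfold IsForest forB
  simp only [List.all_eq_true, bne_iff_ne, ne_eq]
  constructor
  · intro h c hc h1
    exact h (toSet c) ((toSet_subset (cycL_lt c hc) a).2 h1) ((isCycle_iff' (cycL_lt c hc)).2 hc)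
  · intro h C h1 h2
    obtain ⟨c, hc, rfl⟩ := toSet_surj C
    exact h c ((isCycle_iff' hc).1 h2) ((toSet_subset hc a).1 h1)

def foB (a : ℕ) : ℤ := if forB a then 1 else 0

lemma fo_toSet (a : ℕ) : fo cubeSrc cubeTgt (toSet a) = foB a := by
  unfold fo foB
  simp only [isForest_iff]

lemma insert0 {_i : DecidableEq (Fin 12)} (a : ℕ) : insert 0 (toSet a) = toSet (1 ||| a) := by
  rw [toSet_or (_i := _i), toSet_one, Finset.insert_eq]

lemma insert6 {_i : DecidableEq (Fin 12)} (a : ℕ) : insert 6 (toSet a) = toSet (64 ||| a) := by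
  rw [toSet_or (_i := _i), toSet_64, Finset.insert_eq]

def d0 (p : ℕ → ℤ) (a : ℕ) : ℤ := if a.testBit 0 then 0 else p (1 ||| a)
def d6 (p : ℕ → ℤ) (a : ℕ) : ℤ := if a.testBit 6 then 0 else p (64 ||| a)

lemma dd0 (p : Finset (Fin 12) → ℤ) (p' : ℕ → ℤ) (h : ∀ a, p (toSet a) = p' a) (a : ℕ) :
    dd 0 p (toSet a) = d0 p' a := by
  unfold dd d0
  rw [insert0, h]
  simp only [mem_toSet]
  rfl

lemma dd6 (p : Finset (Fin 12) → ℤ) (p' : ℕ → ℤ) (h : ∀ a, p (toSet a) = p' a) (a : ℕ) :
    dd 6 p (toSet a) = d6 p' a := by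
  unfold dd d6
  rw [insert6, h]
  simp only [mem_toSet]
  rfl

def lhsB (k w : ℕ) : ℤ :=
  ((List.range 4096).map fun x => if k &&& x = k ∧ x &&& w = x then
    d0 foB x * d6 foB (k ||| (w &&& (4095 ^^^ x))) -
      foB x * d0 (d6 foB) (k ||| (w &&& (4095 ^^^ x))) else 0).sum

lemma lhs_eq {k w : ℕ} (hk : k < 4096) (hkw : k &&& w = k) :
    coeff (ind (toSet k) + ind (toSet w)) (rayleigh (forestPoly cubeSrc cubeTgt) 0 6) =
      lhsB k w := by
  rw [coeff_rayleigh _ _ _ _ ((toSet_subset hk w).2 hkw), sum_toSet]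
  unfold lhsB
  refine congrArg List.sum (List.map_congr_left fun x hx => ?_)
  have hx' : x < 4096 := List.mem_range.1 hx
  rw [← toSet_diff, ← toSet_or, dd0 _ _ fo_toSet, dd6 _ _ fo_toSet, dd0 _ _ (dd6 _ _ fo_toSet),
    fo_toSet]
  simp only [toSet_subset hk, toSet_subset hx']

def goodB (a c : ℕ) : Bool :=
  !a.testBit 0 && !a.testBit 6 && c.testBit 0 && c.testBit 6 && c &&& (a ||| 65) == c &&
    forB a && cycL.all fun c' => c' &&& (a ||| 65) != c' || c' == c

lemma good_toSet (a : ℕ) {c : ℕ} (hc : c < 4096) :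
    Good cubeSrc cubeTgt 0 6 (toSet a, toSet c) ↔ c ∈ cycL ∧ goodB a c = true := by
  unfold Good goodB
  simp only [isForest_iff, mem_toSet, isCycle_iff' hc]
  rw [← toSet_65, ← toSet_or, toSet_subset hc]
  have : (∀ C, IsCycle cubeSrc cubeTgt C → C ⊆ toSet (a ||| 65) → C = toSet c) ↔
      ∀ c' ∈ cycL, c' &&& (a ||| 65) ≠ c' ∨ c' = c := by
    constructor
    · intro h c' hc'
      have h1 := cycL_lt c' hc'
      by_cases h2 : c' &&& (a ||| 65) = c'
      · right
        exact (toSet_inj h1 hc).1 (h _ ((isCycle_iff' h1).2 hc') ((toSet_subset h1 _).2 h2))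
      · exact Or.inl h2
    · intro h C h1 h2
      obtain ⟨c', hc', rfl⟩ := toSet_surj C
      rcases h c' ((isCycle_iff' hc').1 h1) with h3 | h3
      · exact absurd ((toSet_subset hc' _).1 h2) h3
      · rw [h3]
  rw [this]
  have e0 : ((0 : Fin 12) : ℕ) = 0 := rfl
  have e6 : ((6 : Fin 12) : ℕ) = 6 := rfl
  simp only [e0, e6, Bool.and_eq_true, Bool.not_eq_true', beq_iff_eq, List.all_eq_true,
    Bool.or_eq_true, bne_iff_ne, Bool.not_eq_true]
  tauto

def Lm : List (ℕ × ℕ) := [
  (556, 621), (572, 621), (684, 621), (700, 621), (786, 851), (794, 851), (812, 621),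
  (818, 851), (914, 851), (922, 851), (940, 621), (946, 851), (1580, 621), (1596, 621),
  (1708, 621), (1716, 1781), (1810, 851), (1818, 851), (1836, 621), (1842, 851), (1930, 1995),
  (1938, 851), (2186, 2251), (2190, 2251), (2202, 2251), (2206, 2251), (2442, 2251),
  (2446, 2251), (2458, 2251), (2604, 621), (2620, 621), (2698, 2251), (2714, 2251),
  (2834, 851), (2842, 851), (2860, 621), (2866, 851), (2954, 2251), (2962, 851), (3090, 3155),
  (3094, 3155), (3098, 3155), (3102, 3155), (3122, 3155), (3126, 3155), (3210, 2251),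
  (3214, 2251), (3218, 3155), (3222, 3155), (3346, 3155), (3354, 3155), (3372, 3437),
  (3378, 3155), (3466, 2251), (3474, 3155), (3602, 3155), (3610, 3155), (3628, 621),
  (3634, 3155), (3722, 2251), (3730, 3155)]

lemma Lm_check : ((List.range 4096).flatMap fun a => (cycL.filter (goodB a)).map fun c => (a, c))
    = Lm := by decide +kernel

lemma mem_Lm (a c : ℕ) : (a, c) ∈ Lm ↔ a < 4096 ∧ c ∈ cycL ∧ goodB a c = true := by
  rw [← Lm_check]
  simp only [List.mem_flatMap, List.mem_range, List.mem_map, List.mem_filter, Prod.mk.injEq]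
  constructor
  · rintro ⟨a', h1, c', h2, rfl, rfl⟩; exact ⟨h1, h2⟩
  · rintro ⟨h1, h2⟩; exact ⟨a, h1, c, h2, rfl, rfl⟩

lemma Lm_nodup : Lm.Nodup := by decide +kernel

attribute [irreducible] Lm

lemma sum_good (F : Finset (Fin 12) × Finset (Fin 12) → ℤ) :
    ∑ p : Finset (Fin 12) × Finset (Fin 12) with Good cubeSrc cubeTgt 0 6 p, F p =
      (Lm.map fun p => F (toSet p.1, toSet p.2)).sum := by
  rw [← List.sum_toFinset _ Lm_nodup]
  symm
  refine Finset.sum_bij (fun p _ => (toSet p.1, toSet p.2)) ?_ ?_ ?_ (fun _ _ => rfl)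
  · rintro ⟨a, c⟩ h
    rw [List.mem_toFinset, mem_Lm] at h
    simp only [mem_filter, mem_univ, true_and]
    exact (good_toSet a (cycL_lt c h.2.1)).2 h.2
  · rintro ⟨a, c⟩ h ⟨a', c'⟩ h' hh
    rw [List.mem_toFinset, mem_Lm] at h h'
    simp only [Prod.mk.injEq] at hh ⊢
    exact ⟨(toSet_inj h.1 h'.1).1 hh.1, (toSet_inj (cycL_lt c h.2.1) (cycL_lt c' h'.2.1)).1 hh.2⟩
  · rintro ⟨A, C⟩ h
    obtain ⟨a, ha, rfl⟩ := toSet_surj A
    obtain ⟨c, hc, rfl⟩ := toSet_surj C
    simp only [mem_filter, mem_univ, true_and] at h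
    exact ⟨(a, c), by rw [List.mem_toFinset, mem_Lm]; exact ⟨ha, (good_toSet a hc).1 h⟩, rfl⟩

def termsB (k w : ℕ) : List (ℕ × ℕ × ℕ) :=
  Lm.flatMap fun p => (Lm.filter fun q => p.1 ||| q.1 = w ∧ k &&& (p.1 &&& q.1) = k ∧
    ((p.1 &&& q.1) &&& (4095 ^^^ k)) &&& (p.2 &&& q.2) = (p.1 &&& q.1) &&& (4095 ^^^ k)).map
      fun q => ((p.1 &&& q.1) &&& (4095 ^^^ k), p.2, q.2)

lemma sum_filter_map {α β : Type} (l : List α) (P : α → Prop) [DecidablePred P] (g : α → β)
    (F : β → ℤ) : (((l.filter fun q => P q).map g).map F).sum =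
      (l.map fun q => if P q then F (g q) else 0).sum := by
  induction l with
  | nil => simp
  | cons a l ih =>
    by_cases h : P a
    · simp only [List.filter_cons, h, decide_true, if_true, List.map_cons, List.sum_cons, ih]
    · simp only [List.filter_cons, h, decide_false, if_false, List.map_cons, List.sum_cons, ih,
        zero_add, Bool.false_eq_true]

lemma sum_flatMap_map {α β : Type} (l : List α) (g : α → List β) (F : β → ℤ) :
    ((l.flatMap g).map F).sum = (l.map fun p => ((g p).map F).sum).sum := by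
  induction l with
  | nil => simp
  | cons a l ih => simp only [List.flatMap_cons, List.map_append, List.sum_append, ih,
      List.map_cons, List.sum_cons]

lemma key_eq (c : Finset (Fin 12) → Finset (Fin 12) → ℤ)
    (h : rayleigh (forestPoly cubeSrc cubeTgt) 0 6 =
      ∑ S : Finset (Fin 12) with IsS cubeSrc cubeTgt 0 6 S, mon S *
        (∑ A : Finset (Fin 12) with IsA cubeSrc cubeTgt true 0 6 S A,
          ∑ C : Finset (Fin 12) with Through cubeSrc cubeTgt 0 6 S A C,
            MvPolynomial.C (c S C) * mon (@SDiff.sdiff _ (@Finset.instSDiff _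
              (fun a b => Classical.propDecidable (a = b))) A S)) ^ 2)
    {k w : ℕ} (hk : k < 4096) (hw : w < 4096) (hkw : k &&& w = k) :
    lhsB k w = ((termsB k w).map fun t =>
      c (toSet t.1) (toSet t.2.1) * c (toSet t.1) (toSet t.2.2)).sum := by
  rw [← lhs_eq hk hkw, h, coeff_sos _ _ _ _ _ ((toSet_subset hk w).2 hkw), sum_good]
  unfold termsB
  rw [sum_flatMap_map]
  refine congrArg List.sum (List.map_congr_left fun p hp => ?_)
  rw [sum_good, sum_filter_map]
  refine congrArg List.sum (List.map_congr_left fun q hq => ?_)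
  have hp1 : p.1 < 4096 := ((mem_Lm p.1 p.2).1 hp).1
  have hq1 : q.1 < 4096 := ((mem_Lm q.1 q.2).1 hq).1
  have h1 : p.1 ||| q.1 < 4096 := Nat.or_lt_two_pow (n := 12) hp1 hq1
  have h2 : (p.1 &&& q.1) &&& (4095 ^^^ k) < 4096 :=
    lt_of_le_of_lt Nat.and_le_left (lt_of_le_of_lt Nat.and_le_left hp1)
  dsimp only
  rw [← toSet_or, ← toSet_and, ← toSet_and, ← toSet_diff]
  simp only [toSet_inj h1 hw, toSet_subset hk, toSet_subset h2]

end Pool.Agent.H491Z.Sos
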