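import Mathlib

/-! Spanning forest polynomial of a finite multigraph, its Rayleigh difference and the
sum of squares form conjectured by Wagner. A graph has vertex type `V`, edge type `E`, and the
edge `g` joins `src g` and `tgt g` (the order plays no role; loops and parallel edges allowed). -/

namespace Pool.Agent.H491Z.Sos

open Finset
open scoped Classical

variable {V E : Type} [Fintype E]

/-- The degree of `v` in the edge set `C`, loops counted twice. -/
noncomputable def deg (src tgt : E → V) (C : Finset E) (v : V) : ℕ :=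
  (C.filter fun g => src g = v).card + (C.filter fun g => tgt g = v).card

/-- `C` is the edge set of a circuit: nonempty, 2-regular on the vertices it meets, and connected
(it cannot be split into two nonempty parts without a common vertex). -/
def IsCycle (src tgt : E → V) (C : Finset E) : Prop :=
  C.Nonempty ∧ (∀ v, deg src tgt C v = 0 ∨ deg src tgt C v = 2) ∧
    ∀ D ⊆ C, D.Nonempty → D ≠ C → ∃ v, deg src tgt D v ≠ 0 ∧ deg src tgt (C \ D) v ≠ 0

/-- A spanning forest: an edge set containing no cycle. -/
def IsForest (src tgt : E → V) (X : Finset E) : Prop :=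
  ∀ C ⊆ X, ¬ IsCycle src tgt C

/-- The monomial `y^X`. -/
noncomputable def mon (X : Finset E) : MvPolynomial E ℤ := ∏ g ∈ X, MvPolynomial.X g

/-- The spanning forest generating polynomial. -/
noncomputable def forestPoly (src tgt : E → V) : MvPolynomial E ℤ :=
  ∑ X : Finset E with IsForest src tgt X, mon X

/-- The Rayleigh difference `G_e G_f - G G_ef`. -/
noncomputable def rayleigh (G : MvPolynomial E ℤ) (e f : E) : MvPolynomial E ℤ :=
  MvPolynomial.pderiv e G * MvPolynomial.pderiv f G -
    G * MvPolynomial.pderiv e (MvPolynomial.pderiv f G)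

/-- `S` avoids `e, f` and `S ∪ {e, f}` lies inside some cycle. -/
def IsS (src tgt : E → V) (e f : E) (S : Finset E) : Prop :=
  e ∉ S ∧ f ∉ S ∧ ∃ C, IsCycle src tgt C ∧ S ∪ {e, f} ⊆ C

/-- `C` is a cycle with `S ∪ {e, f} ⊆ C ⊆ A ∪ {e, f}`. -/
def Through (src tgt : E → V) (e f : E) (S A C : Finset E) : Prop :=
  IsCycle src tgt C ∧ S ∪ {e, f} ⊆ C ∧ C ⊆ A ∪ {e, f}

/-- `A` is a spanning forest avoiding `e, f` with exactly one cycle `C` such that
`S ∪ {e, f} ⊆ C ⊆ A ∪ {e, f}`; if `uni` is true, moreover `A ∪ {e, f}` contains only one cycle. -/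
def IsA (src tgt : E → V) (uni : Bool) (e f : E) (S A : Finset E) : Prop :=
  IsForest src tgt A ∧ e ∉ A ∧ f ∉ A ∧ (∃! C, Through src tgt e f S A C) ∧
    (uni = true → ∃! C, IsCycle src tgt C ∧ C ⊆ A ∪ {e, f})

/-- The Rayleigh difference for `e, f` has the sum of squares form for some signs `c S C`.
(The innermost sum has exactly one term, the cycle `C(S, A)`.) -/
def IsSOS (src tgt : E → V) (uni : Bool) (e f : E) : Prop :=
  ∃ c : Finset E → Finset E → ℤ, (∀ S C, c S C = 1 ∨ c S C = -1) ∧
    rayleigh (forestPoly src tgt) e f =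
      ∑ S : Finset E with IsS src tgt e f S, mon S *
        (∑ A : Finset E with IsA src tgt uni e f S A,
          ∑ C : Finset E with Through src tgt e f S A C,
            MvPolynomial.C (c S C) * mon (A \ S)) ^ 2

/-- First endpoints of the twelve edges of the 3-cube on the vertices `0, ..., 7`
(two vertices are adjacent when their binary expansions differ in one digit). -/
def cubeSrc : Fin 12 → Fin 8 := ![0, 0, 0, 1, 1, 2, 2, 3, 4, 4, 5, 6]

/-- Second endpoints of the twelve edges of the 3-cube. -/
def cubeTgt : Fin 12 → Fin 8 := ![1, 2, 4, 3, 5, 3, 6, 7, 5, 6, 7, 7]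

end Pool.Agent.H491Z.Sos
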