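import Pool.Agent.H491Z.SosCube

set_option maxRecDepth 20000
set_option linter.constructorNameAsVariable false

namespace Pool.Agent.H491Z.Sos

open Finset MvPolynomial
open scoped Classical

lemma l702 : lhsB 702 702 = 0 := by decide +kernel

lemma through702 (C : Finset (Fin 12)) :
    Through cubeSrc cubeTgt 0 6 ∅ (toSet 702) C ↔ C = toSet 621 := by
  obtain ⟨c, hc, rfl⟩ := toSet_surj C
  unfold Through
  rw [isCycle_iff' hc, ← toSet_65, ← toSet_or, ← toSet_zero, ← toSet_or, toSet_subset hc,
    toSet_subset (by norm_num), toSet_inj hc (by norm_num)]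
  constructor
  · rintro ⟨h1, h2, h3⟩
    have : ∀ c ∈ cycL, (0 ||| 65) &&& c = 0 ||| 65 → c &&& (702 ||| 65) = c → c = 621 := by decide +kernel
    exact this c h1 h2 h3
  · rintro rfl
    decide +kernel

lemma ind2_iff {E : Type} (S A B T : Finset E) (hA : ∀ g ∈ S, g ∉ A) (hB : ∀ g ∈ S, g ∉ B) :
    ind S + (ind A + ind B) = ind T + ind T ↔ S = ∅ ∧ A = T ∧ B = T := by
  constructor
  · intro h
    have h' : ∀ g, (if g ∈ S then 1 else 0) + ((if g ∈ A then 1 else 0) +
        (if g ∈ B then 1 else 0)) =
        (if g ∈ T then 1 else 0) + (if g ∈ T then 1 else 0 : ℕ) := by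
      intro g
      have := DFunLike.congr_fun h g
      simpa [ind_apply] using this
    refine ⟨?_, ?_, ?_⟩ <;> ext g <;> have := h' g <;> have := hA g <;> have := hB g <;>
      (try simp only [Finset.notMem_empty]) <;> split_ifs at * <;> first | omega | tauto
  · rintro ⟨rfl, rfl, rfl⟩
    simp [ind]

theorem not_sos_false : ¬ IsSOS cubeSrc cubeTgt false 0 6 := by
  rintro ⟨c, hc, h⟩
  have hsq : ∀ S C, c S C * c S C = 1 := by
    intro S C; rcases hc S C with h | h <;> rw [h] <;> norm_num
  have h0 := lhs_eq (k := 702) (w := 702) (by norm_num) (by decide)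
  rw [l702, h] at h0
  simp only [sq, Finset.sum_mul_sum] at h0
  simp only [Finset.sum_mul, Finset.mul_sum, coeff_sum] at h0
  have term : ∀ (S A B : Finset (Fin 12)) (x y : ℤ), coeff (ind (toSet 702) + ind (toSet 702))
      (mon S * (MvPolynomial.C x * mon (@SDiff.sdiff _ (@Finset.instSDiff _
              (fun a b => Classical.propDecidable (a = b))) A S) *
        (MvPolynomial.C y * mon (@SDiff.sdiff _ (@Finset.instSDiff _
              (fun a b => Classical.propDecidable (a = b))) B S)))) =
      if S = ∅ then (if A = toSet 702 then (if B = toSet 702 then x * y else 0) else 0)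
        else 0 := by
    intro S A B x y
    rw [mon_eq, mon_eq, mon_eq, C_mul_monomial, C_mul_monomial, monomial_mul, monomial_mul,
      coeff_monomial]
    rw [if_congr (ind2_iff _ _ _ _ (by simp +contextual) (by simp +contextual)) rfl rfl]
    by_cases h1 : S = ∅
    · subst h1
      simp only [Finset.sdiff_empty, true_and, if_true, one_mul, mul_one]
      split_ifs <;> tauto
    · simp [h1]
  simp only [term] at h0
  have hS : IsS cubeSrc cubeTgt 0 6 ∅ :=
    ⟨by simp, by simp, toSet 621, ((through702 _).2 rfl).1, ((through702 _).2 rfl).2.1⟩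
  have hA : IsA cubeSrc cubeTgt false 0 6 ∅ (toSet 702) :=
    ⟨(isForest_iff _).2 (by decide +kernel), by rw [mem_toSet]; decide, by rw [mem_toSet]; decide,
      ⟨toSet 621, (through702 _).2 rfl, fun C hC => (through702 C).1 hC⟩, by simp⟩
  rw [Finset.sum_eq_single_of_mem ∅ (by simpa using hS) (by intro b _ hb; simp [hb]),
    Finset.sum_eq_single_of_mem (toSet 702) (by simpa using hA) (by intro b _ hb; simp [hb]),
    Finset.sum_eq_single_of_mem (toSet 702) (by simpa using hA) (by intro b _ hb; simp [hb])] at h0
  have hT : (univ.filter fun C => Through cubeSrc cubeTgt 0 6 ∅ (toSet 702) C) = {toSet 621} := by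
    ext C; simp [through702]
  rw [hT] at h0
  simp [hsq] at h0

end Pool.Agent.H491Z.Sos
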