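import Pool.Agent.H491Z.SosCube

set_option maxRecDepth 20000
set_option linter.constructorNameAsVariable false

namespace Pool.Agent.H491Z.Sos

open Finset MvPolynomial
open scoped Classical

lemma t0 : termsB 0 830 = [(512, 621, 851), (512, 851, 621)] := by
  decide +kernel

lemma l0 : lhsB 0 830 = -2 := by decide +kernel

lemma t1 : termsB 0 1966 = [(520, 621, 1995), (520, 1995, 621)] := by
  decide +kernel

lemma l1 : lhsB 0 1966 = -2 := by decide +kernel

lemma t2 : termsB 0 1974 = [(528, 851, 1781), (528, 1781, 851)] := by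
  decide +kernel

lemma l2 : lhsB 0 1974 = -2 := by decide +kernel

lemma t3 : termsB 0 2734 = [(8, 621, 2251), (8, 2251, 621)] := by
  decide +kernel

lemma l3 : lhsB 0 2734 = -2 := by decide +kernel

lemma t4 : termsB 0 2970 = [(2, 851, 2251), (786, 851, 851), (786, 851, 851), (786, 851, 851), (2, 2251, 851),
    (2186, 2251, 2251), (2186, 2251, 2251), (2186, 2251, 2251), (2186, 2251, 2251), (2186, 2251, 2251),
    (786, 851, 851), (786, 851, 851), (2186, 2251, 2251), (786, 851, 851)] := by
  decide +kernel

lemma l4 : lhsB 0 2970 = 14 := by decide +kernel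

lemma t5 : termsB 0 3226 = [(2050, 2251, 3155), (2186, 2251, 2251), (2050, 3155, 2251), (3090, 3155, 3155), (2186, 2251, 2251),
    (3090, 3155, 3155)] := by
  decide +kernel

lemma l5 : lhsB 0 3226 = 6 := by decide +kernel

lemma t6 : termsB 0 3390 = [(3072, 3155, 3437), (3090, 3155, 3155), (3090, 3155, 3155), (3090, 3155, 3155), (3072, 3437, 3155),
    (3090, 3155, 3155)] := by
  decide +kernel

lemma l6 : lhsB 0 3390 = 2 := by decide +kernel

lemma t7 : termsB 0 3502 = [(2056, 2251, 3437), (2056, 3437, 2251)] := by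
  decide +kernel

lemma l7 : lhsB 0 3502 = -2 := by decide +kernel

lemma t8 : termsB 0 3646 = [(0, 621, 3155), (0, 3155, 621), (3090, 3155, 3155), (3090, 3155, 3155), (3090, 3155, 3155),
    (3090, 3155, 3155)] := by
  decide +kernel

lemma l8 : lhsB 0 3646 = 2 := by decide +kernel

lemma t9 : termsB 0 3766 = [(1040, 1781, 3155), (1040, 3155, 1781), (3090, 3155, 3155), (3090, 3155, 3155), (3090, 3155, 3155),
    (3090, 3155, 3155)] := by
  decide +kernel

lemma l9 : lhsB 0 3766 = 2 := by decide +kernel

lemma t10 : termsB 0 3858 = [(18, 851, 3155), (786, 851, 851), (786, 851, 851), (18, 3155, 851), (3090, 3155, 3155),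
    (3090, 3155, 3155)] := by
  decide +kernel

lemma l10 : lhsB 0 3858 = 6 := by decide +kernel

lemma t11 : termsB 0 3978 = [(138, 1995, 2251), (138, 2251, 1995), (2186, 2251, 2251), (2186, 2251, 2251), (2186, 2251, 2251),
    (2186, 2251, 2251), (2186, 2251, 2251), (2186, 2251, 2251)] := by
  decide +kernel

lemma l11 : lhsB 0 3978 = 8 := by decide +kernel

lemma t12 : termsB 0 3998 = [(2, 851, 2251), (18, 851, 3155), (18, 851, 3155), (18, 851, 3155), (2, 851, 2251),
    (138, 1995, 2251), (1026, 1995, 3155), (2, 2251, 851), (138, 2251, 1995), (2050, 2251, 3155),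
    (2050, 2251, 3155), (18, 3155, 851), (1026, 3155, 1995), (2050, 3155, 2251), (18, 3155, 851),
    (2, 2251, 851), (18, 3155, 851), (2050, 3155, 2251)] := by
  decide +kernel

lemma l12 : lhsB 0 3998 = 14 := by decide +kernel

lemma t13 : termsB 0 4030 = [(0, 621, 3155), (8, 621, 2251), (0, 621, 3155), (0, 621, 3155), (2, 851, 2251),
    (256, 851, 3437), (512, 851, 621), (18, 851, 3155), (0, 621, 3155), (18, 851, 3155),
    (8, 621, 2251), (512, 621, 851), (8, 621, 2251), (512, 621, 851), (128, 1781, 2251),
    (528, 1781, 851), (1040, 1781, 3155), (8, 621, 2251), (2, 851, 2251), (520, 1995, 621),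
    (1026, 1995, 3155), (512, 851, 621), (2, 2251, 851), (8, 2251, 621), (8, 2251, 621),
    (128, 2251, 1781), (2050, 2251, 3155), (8, 2251, 621), (512, 621, 851), (520, 621, 1995),
    (2056, 2251, 3437), (512, 851, 621), (528, 851, 1781), (2050, 2251, 3155), (512, 851, 621),
    (0, 3155, 621), (18, 3155, 851), (18, 3155, 851), (1026, 3155, 1995), (2050, 3155, 2251),
    (2, 2251, 851), (0, 3155, 621), (0, 3155, 621), (1040, 3155, 1781), (256, 3437, 851),
    (2056, 3437, 2251), (3072, 3437, 3155), (8, 2251, 621), (0, 3155, 621), (512, 621, 851),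
    (2050, 3155, 2251), (3072, 3155, 3437)] := by
  decide +kernel

lemma l13 : lhsB 0 4030 = -16 := by decide +kernel

lemma t14 : termsB 4 4030 = [(0, 621, 3155), (0, 621, 3155), (8, 621, 2251), (128, 1781, 2251), (8, 621, 2251),
    (8, 2251, 621), (8, 2251, 621), (128, 2251, 1781), (0, 3155, 621), (0, 3155, 621)] := by
  decide +kernel

lemma l14 : lhsB 4 4030 = -6 := by decide +kernel

lemma t15 : termsB 32 4030 = [(0, 621, 3155), (0, 621, 3155), (256, 851, 3437), (512, 851, 621), (512, 621, 851),
    (512, 851, 621), (0, 3155, 621), (256, 3437, 851), (0, 3155, 621), (512, 621, 851)] := by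
  decide +kernel

lemma l15 : lhsB 32 4030 = -6 := by decide +kernel

theorem not_sos_true : ¬ IsSOS cubeSrc cubeTgt true 0 6 := by
  rintro ⟨c, hc, h⟩
  have hsq : ∀ S C, c S C * c S C = 1 := by
    intro S C; rcases hc S C with h | h <;> rw [h] <;> norm_num
  have h0 := key_eq c h (k := 0) (w := 830) (by norm_num) (by norm_num) (by decide)
  rw [t0, l0] at h0
  have h1 := key_eq c h (k := 0) (w := 1966) (by norm_num) (by norm_num) (by decide)
  rw [t1, l1] at h1
  have h2 := key_eq c h (k := 0) (w := 1974) (by norm_num) (by norm_num) (by decide)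
  rw [t2, l2] at h2
  have h3 := key_eq c h (k := 0) (w := 2734) (by norm_num) (by norm_num) (by decide)
  rw [t3, l3] at h3
  have h4 := key_eq c h (k := 0) (w := 2970) (by norm_num) (by norm_num) (by decide)
  rw [t4, l4] at h4
  have h5 := key_eq c h (k := 0) (w := 3226) (by norm_num) (by norm_num) (by decide)
  rw [t5, l5] at h5
  have h6 := key_eq c h (k := 0) (w := 3390) (by norm_num) (by norm_num) (by decide)
  rw [t6, l6] at h6
  have h7 := key_eq c h (k := 0) (w := 3502) (by norm_num) (by norm_num) (by decide)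
  rw [t7, l7] at h7
  have h8 := key_eq c h (k := 0) (w := 3646) (by norm_num) (by norm_num) (by decide)
  rw [t8, l8] at h8
  have h9 := key_eq c h (k := 0) (w := 3766) (by norm_num) (by norm_num) (by decide)
  rw [t9, l9] at h9
  have h10 := key_eq c h (k := 0) (w := 3858) (by norm_num) (by norm_num) (by decide)
  rw [t10, l10] at h10
  have h11 := key_eq c h (k := 0) (w := 3978) (by norm_num) (by norm_num) (by decide)
  rw [t11, l11] at h11
  have h12 := key_eq c h (k := 0) (w := 3998) (by norm_num) (by norm_num) (by decide)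
  rw [t12, l12] at h12
  have h13 := key_eq c h (k := 0) (w := 4030) (by norm_num) (by norm_num) (by decide)
  rw [t13, l13] at h13
  have h14 := key_eq c h (k := 4) (w := 4030) (by norm_num) (by norm_num) (by decide)
  rw [t14, l14] at h14
  have h15 := key_eq c h (k := 32) (w := 4030) (by norm_num) (by norm_num) (by decide)
  rw [t15, l15] at h15
  simp only [List.map_cons, List.map_nil, List.sum_cons, List.sum_nil, hsq] at h0 h1 h2 h3 h4 h5 h6 h7 h8 h9 h10 h11 h12 h13 h14 h15
  linarith

end Pool.Agent.H491Z.Sos
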